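import Pool.Agent.T2h82.As.FinS

/-!
# The limit law for the triples
-/

set_option autoImplicit false

namespace Pool.Agent.T2h82.As

open Finset Filter Topology MeasureTheory
open Pool.Agent.H328R2.ABC (rad rad_pos)
open Pool.Agent.T2h82 (pw pw_pos HH)
open Pool.Agent.T2h82.Sq (gf IsT R3 Mem PP rad_pow Tr tr_finite)

/-- the constant -/
noncomputable def c1 : ℝ :=
  1 / 4 * ((volume (Lev 1 1 1)).toReal * ∏' p : Nat.Primes, lc 1 (3 / 5) (3 / 5) p)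

theorem wq_one (q : ℤ × ℤ) : 1 ≤ wq q := by
  unfold wq ws
  have h1 := one_le_ew (pw_pos q.1.natAbs).ne'
  have h2 := one_le_ew (pw_pos q.2.natAbs).ne'
  have h3 := one_le_ew (pw_pos (gf q).natAbs).ne'
  rw [pow_one]
  exact one_le_mul_of_one_le_of_one_le h1 (one_le_mul_of_one_le_of_one_le h2 h3)

/-- the sum is at least the power `2 / 5` of the radical -/
theorem rad_le_five {q : ℤ × ℤ} (h : Pr q) : (R3 (Psi q) : ℝ) ^ 2 ≤ ((Psi q).2.2 : ℝ) ^ 5 := by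
  have h1 := rad_wq h
  have h2 := wq_one q
  have h3 : (R3 (Psi q) : ℝ) ≤ pq q := by
    rw [← h1]
    exact le_mul_of_one_le_right (by positivity) h2
  have e : ((gf q : ℤ) : ℝ) = (q.1 : ℝ) ^ 2 - q.2 := by
    unfold gf
    push_cast
    rfl
  rw [psi_mx h]
  have m1 : (q.1 : ℝ) ^ 2 ≤ mx ((q.1 : ℝ), (q.2 : ℝ)) := le_max_left _ _
  have m2 : |(q.2 : ℝ)| ≤ mx ((q.1 : ℝ), (q.2 : ℝ)) := (le_max_left _ _).trans (le_max_right _ _)
  have m3 : |((gf q : ℤ) : ℝ)| ≤ mx ((q.1 : ℝ), (q.2 : ℝ)) := by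
    rw [e]
    exact (le_max_right _ _).trans (le_max_right _ _)
  set m := mx ((q.1 : ℝ), (q.2 : ℝ)) with hm
  have hm0 : 0 ≤ m := (sq_nonneg _).trans m1
  calc (R3 (Psi q) : ℝ) ^ 2 ≤ pq q ^ 2 := by gcongr
    _ = (q.1 : ℝ) ^ 2 * (|(q.2 : ℝ)| ^ 2 * |((gf q : ℤ) : ℝ)| ^ 2) := by
        unfold pq
        rw [mul_pow, mul_pow, sq_abs]
    _ ≤ m * (m ^ 2 * m ^ 2) := by gcongr
    _ = m ^ 5 := by ring

theorem AS_empty (K t T : ℝ) (hT : 0 < T) (ht0 : 0 ≤ t) (ht : t < 1) : AS K 1 t T = ∅ := by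
  rw [Set.eq_empty_iff_forall_notMem]
  intro q hq
  obtain ⟨h1, -, -, h4⟩ := (mem_AS hT q).1 hq
  unfold Pc at h4
  rw [one_mul] at h4
  have h5 := rad_le_five h1
  have hc : 0 < (Psi q).2.2 := by
    obtain ⟨a, b, c, d⟩ := psi_isT h1
    omega
  have hc' : (0 : ℝ) < ((Psi q).2.2 : ℝ) ^ 5 := by positivity
  have h6 : t * (R3 (Psi q) : ℝ) ^ 2 ≤ t * ((Psi q).2.2 : ℝ) ^ 5 := by gcongr
  nlinarith

theorem lawS : ∃ G : ℝ → ℝ, MonotoneOn G (Set.Ioi 0) ∧ (∀ t, 0 < t → t < 1 → G t = 0) ∧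
    (∀ t, 0 < t → 0 ≤ G t) ∧
    Tendsto G atTop (𝓝 c1) ∧ ∀ k : ℝ, 2 / 5 < k → ∀ t : ℝ, 0 < t →
      Tendsto (fun T : ℝ => ((Tr k (T ^ 5) (Pc 1 t)).ncard : ℝ) / T ^ 3) atTop (𝓝 (G t)) := by
  have hex : ∀ t : ℝ, 0 < t → ∃ L : ℝ, ∀ k : ℝ, 2 / 5 < k → Tendsto (fun T : ℝ =>
      ((Tr k (T ^ 5) (Pc 1 t)).ncard : ℝ) / T ^ 3) atTop (𝓝 L) := by
    intro t ht
    obtain ⟨L, h1, -⟩ := law_limS 1 t ht.ne'
    exact ⟨L, h1⟩
  choose! G hG using hex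
  have hG2 : ∀ t : ℝ, 0 < t → Tendsto (fun T : ℝ =>
      ((Tr 1 (T ^ 5) (Pc 1 t)).ncard : ℝ) / T ^ 3) atTop (𝓝 (G t)) := fun t ht =>
    hG t ht 1 (by norm_num)
  have hc := (countS 1 (by norm_num)).2.2.2
  have hc' : Tendsto (fun T : ℝ => ((Tr 1 (T ^ 5) (Pc 0 1)).ncard : ℝ) / T ^ 3) atTop
    (𝓝 c1) := hc
  have hle : ∀ t : ℝ, 0 < t → G t ≤ c1 := by
    intro t ht
    refine le_of_tendsto_of_tendsto (hG2 t ht) hc' ?_
    filter_upwards [eventually_ge_atTop 1] with T hT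
    have hT0 : 0 < T := by linarith
    have h1 : Tr 1 (T ^ 5) (Pc 1 t) ⊆ Tr 1 (T ^ 5) (Pc 0 1) := by
      refine tr_mono _ _ _ _ (fun W _ => ?_)
      unfold Pc
      rw [zero_mul, one_mul]
      positivity
    have h2 := Set.ncard_le_ncard h1 (tr_finite _ _ _)
    have h3 : ((Tr 1 (T ^ 5) (Pc 1 t)).ncard : ℝ) ≤ ((Tr 1 (T ^ 5) (Pc 0 1)).ncard : ℝ) := by
      exact_mod_cast h2
    gcongr
  have hnn : ∀ t : ℝ, 0 < t → 0 ≤ G t := by
    intro t ht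
    refine ge_of_tendsto (hG2 t ht) ?_
    filter_upwards [eventually_ge_atTop 1] with T hT
    positivity
  refine ⟨G, ?_, ?_, hnn, ?_, fun k h1 t ht => hG t ht k h1⟩
  · intro t ht t' ht' htt
    refine le_of_tendsto_of_tendsto (hG2 t ht) (hG2 t' ht') ?_
    filter_upwards [eventually_ge_atTop 1] with T hT
    have hT0 : 0 < T := by linarith
    have h1 : Tr 1 (T ^ 5) (Pc 1 t) ⊆ Tr 1 (T ^ 5) (Pc 1 t') := by
      refine tr_mono _ _ _ _ (fun W hW => ?_)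
      unfold Pc at hW ⊢
      refine hW.trans ?_
      gcongr
    have h2 := Set.ncard_le_ncard h1 (tr_finite _ _ _)
    have h3 : ((Tr 1 (T ^ 5) (Pc 1 t)).ncard : ℝ) ≤ ((Tr 1 (T ^ 5) (Pc 1 t')).ncard : ℝ) := by
      exact_mod_cast h2
    gcongr
  · intro t ht ht1
    refine le_antisymm (le_of_forall_pos_le_add (fun ε hε => ?_)) (hnn t ht)
    rw [zero_add]
    obtain ⟨K, hK⟩ := (transferS 1 (by norm_num) ε hε).exists
    refine le_of_tendsto (hG2 t ht) ?_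
    filter_upwards [hK 1 t, eventually_gt_atTop 0] with T h2 h3
    rw [AS_empty K t T h3 ht.le ht1, Set.ncard_empty] at h2
    rw [div_le_iff₀ (by positivity)]
    have := (abs_le.1 h2).2
    push_cast at this
    linarith
  · rw [Metric.tendsto_nhds]
    intro ε hε
    obtain ⟨K, hK, hK1⟩ := ((transferS 1 (by norm_num) (ε / 8) (by positivity)).and
      (eventually_ge_atTop 1)).exists
    obtain ⟨t₀, hf⟩ := farS K hK1 (ε / 8) (by positivity)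
    filter_upwards [eventually_ge_atTop t₀, eventually_gt_atTop 0] with t ht ht0
    rw [Real.dist_eq, abs_sub_comm, abs_of_nonneg (by linarith [hle t ht0])]
    have h1 : c1 - G t ≤ ε / 2 := by
      refine le_of_tendsto (hc'.sub (hG2 t ht0)) ?_
      filter_upwards [hK 0 1, hK 1 t, hf t ht, eventually_gt_atTop 0] with T h2 h3 h4 h5
      rw [abs_le] at h2 h3
      have hp : 0 < T ^ 3 := by positivity
      rw [← sub_div, div_le_iff₀ hp]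
      linarith [h2.1, h2.2, h3.1, h3.2]
    linarith

theorem convS (k : ℝ) (P : ℕ × ℕ × ℕ → Prop) (L : ℝ)
    (h : Tendsto (fun T : ℝ => ((Tr k (T ^ 5) P).ncard : ℝ) / T ^ 3) atTop (𝓝 L)) :
    Tendsto (fun X : ℝ => ((Tr k X P).ncard : ℝ) / X ^ (3 / 5 : ℝ)) atTop (𝓝 L) := by
  have h1 := h.comp (tendsto_rpow_atTop (by norm_num : (0 : ℝ) < 1 / 5))
  refine h1.congr' ?_
  filter_upwards [eventually_gt_atTop 0] with X hX
  simp only [Function.comp]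
  have e1 : (X ^ (1 / 5 : ℝ)) ^ 5 = X := by
    rw [← Real.rpow_natCast, ← Real.rpow_mul hX.le]
    norm_num
  have e2 : (X ^ (1 / 5 : ℝ)) ^ 3 = X ^ (3 / 5 : ℝ) := by
    rw [← Real.rpow_natCast, ← Real.rpow_mul hX.le]
    norm_num
  rw [e1, e2]

theorem c1_pos : 0 < c1 := by
  have h1 := convS 1 (Pc 0 1) c1 (countS 1 (by norm_num)).2.2.2
  obtain ⟨c, X₀, hc, h2⟩ := Pool.Agent.T2h82.Sq.lower' 1 (by norm_num)
  have h3 : c ≤ c1 := by
    refine ge_of_tendsto h1 ?_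
    filter_upwards [eventually_ge_atTop X₀, eventually_ge_atTop 1] with X hX hX1
    rw [le_div_iff₀ (by positivity)]
    refine (h2 X hX).trans ?_
    have h4 : Tr 1 X (fun _ => True) ⊆ Tr 1 X (Pc 0 1) := by
      refine tr_mono _ _ _ _ (fun W _ => ?_)
      unfold Pc
      rw [zero_mul, one_mul]
      positivity
    exact_mod_cast Set.ncard_le_ncard h4 (tr_finite _ _ _)
  linarith

theorem lc_eqS {p : ℕ} (hp : p.Prime) : lc 1 (3 / 5) (3 / 5) p =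
    (1 - 1 / (p : ℝ)) * (1 - 2 / (p : ℝ) + 3 * (p - 1) / (p * (p - (p : ℝ) ^ (3 / 5 : ℝ)))) := by
  have hp1 : (1 : ℝ) < p := by exact_mod_cast hp.one_lt
  have hp0 : (0 : ℝ) < p := by linarith
  have hlt : (p : ℝ) ^ (3 / 5 : ℝ) < p := by
    calc (p : ℝ) ^ (3 / 5 : ℝ) < (p : ℝ) ^ (1 : ℝ) :=
          Real.rpow_lt_rpow_of_exponent_lt hp1 (by norm_num)
      _ = p := Real.rpow_one _
  have e1 : (p : ℝ) ^ ((3 / 5 : ℝ) - 1) = (p : ℝ) ^ (3 / 5 : ℝ) / p := by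
    rw [Real.rpow_sub_one hp0.ne']
  have hne : (p : ℝ) - (p : ℝ) ^ (3 / 5 : ℝ) ≠ 0 := by linarith
  have hb : bt p (3 / 5) = (p - 1) / (p - (p : ℝ) ^ (3 / 5 : ℝ)) := by
    unfold bt
    rw [e1]
    have h2 : 1 - (p : ℝ) ^ (3 / 5 : ℝ) / p = (p - (p : ℝ) ^ (3 / 5 : ℝ)) / p := by
      field_simp
    rw [h2]
    field_simp
  unfold lc
  rw [hb, if_neg (by
    intro h
    exact hp.one_lt.ne' (Nat.dvd_one.1 h))]
  congr 1
  field_simp
  ring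

/-- the condition `c ≤ τ R ^ (2 / 5)` -/
theorem pc_rpow {τ : ℝ} (hτ : 0 < τ) (x : ℕ × ℕ × ℕ) :
    ((x.2.2 : ℝ) ≤ τ * (R3 x : ℝ) ^ (2 / 5 : ℝ)) ↔ Pc 1 (τ ^ 5) x := by
  have h0 : (0 : ℝ) ≤ (R3 x : ℝ) := by positivity
  unfold Pc
  rw [one_mul]
  have e : (τ * (R3 x : ℝ) ^ (2 / 5 : ℝ)) ^ 5 = τ ^ 5 * (R3 x : ℝ) ^ 2 := by
    rw [mul_pow]
    congr 1
    rw [← Real.rpow_natCast, ← Real.rpow_mul h0, ← Real.rpow_natCast]
    norm_num
  rw [← e]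
  constructor
  · intro h
    exact pow_le_pow_left₀ (by positivity) h 5
  · intro h
    exact le_of_pow_le_pow_left₀ (n := 5) (by norm_num) (by positivity) h

end Pool.Agent.T2h82.As
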