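import Pool.Agent.T2h82.As.Fin

/-!
# The limit law of the Szpiro quotient
-/

set_option autoImplicit false

namespace Pool.Agent.T2h82.As

open Finset Filter Topology MeasureTheory
open Pool.Agent.H328R2.ABC (rad rad_pos)
open Pool.Agent.T2h82

/-- the constant -/
noncomputable def c0 : ℝ :=
  2 * ((volume (Lev 64 0 1)).toReal * ∏' p : Nat.Primes, lc 4 0 (3 / 4) p)

theorem law : ∃ G : ℝ → ℝ, MonotoneOn G (Set.Ioi 0) ∧ Tendsto G (𝓝[>] 0) (𝓝 0) ∧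
    Tendsto G atTop (𝓝 c0) ∧ ∀ κ : ℝ, 3 / 2 < κ → κ < 3 → ∀ t : ℝ, 0 < t →
      Tendsto (fun T : ℝ => ((Cl κ (T ^ 4) (Pst 1 t)).ncard : ℝ) / T ^ 3) atTop (𝓝 (G t)) := by
  have hex : ∀ t : ℝ, 0 < t → ∃ L : ℝ, ∀ κ : ℝ, 3 / 2 < κ → κ < 3 → Tendsto (fun T : ℝ =>
      ((Cl κ (T ^ 4) (Pst 1 t)).ncard : ℝ) / T ^ 3) atTop (𝓝 L) := by
    intro t ht
    obtain ⟨L, h1, -⟩ := law_lim 1 t ht.ne'
    exact ⟨L, h1⟩
  choose! G hG using hex
  have hG2 : ∀ t : ℝ, 0 < t → Tendsto (fun T : ℝ =>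
      ((Cl 2 (T ^ 4) (Pst 1 t)).ncard : ℝ) / T ^ 3) atTop (𝓝 (G t)) := fun t ht =>
    hG t ht 2 (by norm_num) (by norm_num)
  have hc := (count 2 (by norm_num) (by norm_num)).2.2.2
  have hc' : Tendsto (fun T : ℝ => ((Cl 2 (T ^ 4) (Pst 0 1)).ncard : ℝ) / T ^ 3) atTop
    (𝓝 c0) := hc
  have hle : ∀ t : ℝ, 0 < t → G t ≤ c0 := by
    intro t ht
    refine le_of_tendsto_of_tendsto (hG2 t ht) hc' ?_
    filter_upwards [eventually_ge_atTop 1] with T hT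
    have hT0 : 0 < T := by linarith
    have h1 : Cl 2 (T ^ 4) (Pst 1 t) ⊆ Cl 2 (T ^ 4) (Pst 0 1) := by
      refine cl_mono _ _ _ _ (fun W _ => ?_)
      unfold Pst
      rw [zero_mul, one_mul]
      positivity
    have h2 := Set.ncard_le_ncard h1 (cl_finite 2 (T ^ 4) (by norm_num) (one_le_pow₀ hT) _)
    have h3 : ((Cl 2 (T ^ 4) (Pst 1 t)).ncard : ℝ) ≤ ((Cl 2 (T ^ 4) (Pst 0 1)).ncard : ℝ) := by
      exact_mod_cast h2
    gcongr
  have hnn : ∀ t : ℝ, 0 < t → 0 ≤ G t := by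
    intro t ht
    refine ge_of_tendsto (hG2 t ht) ?_
    filter_upwards [eventually_ge_atTop 1] with T hT
    positivity
  have hlimC : ∀ (L : ℝ) (s t : ℝ), Tendsto (fun T : ℝ =>
      ((Cl 2 (T ^ 4) (Pst s t)).ncard : ℝ) / T ^ 3) atTop (𝓝 L) → ∀ B : ℝ,
      (∀ᶠ T in atTop, ((Cl 2 (T ^ 4) (Pst s t)).ncard : ℝ) ≤ B * T ^ 3) → L ≤ B := by
    intro L s t h1 B h2
    refine le_of_tendsto h1 ?_
    filter_upwards [h2, eventually_gt_atTop 0] with T h3 h4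
    rw [div_le_iff₀ (by positivity)]
    exact h3
  refine ⟨G, ?_, ?_, ?_, fun κ h1 h2 t ht => hG t ht κ h1 h2⟩
  · intro t ht t' ht' htt
    refine le_of_tendsto_of_tendsto (hG2 t ht) (hG2 t' ht') ?_
    filter_upwards [eventually_ge_atTop 1] with T hT
    have hT0 : 0 < T := by linarith
    have h1 : Cl 2 (T ^ 4) (Pst 1 t) ⊆ Cl 2 (T ^ 4) (Pst 1 t') := by
      refine cl_mono _ _ _ _ (fun W hW => ?_)
      unfold Pst at hW ⊢
      refine hW.trans ?_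
      gcongr
    have h2 := Set.ncard_le_ncard h1 (cl_finite 2 (T ^ 4) (by norm_num) (one_le_pow₀ hT) _)
    have h3 : ((Cl 2 (T ^ 4) (Pst 1 t)).ncard : ℝ) ≤ ((Cl 2 (T ^ 4) (Pst 1 t')).ncard : ℝ) := by
      exact_mod_cast h2
    gcongr
  · rw [Metric.tendsto_nhdsWithin_nhds]
    intro ε hε
    obtain ⟨K, hK, hK1⟩ := ((transfer 2 (by norm_num) (by norm_num) (ε / 4) (by positivity)).and
      (eventually_ge_atTop 1)).exists
    obtain ⟨t₀, ht₀, hn⟩ := near K hK1 (ε / 4) (by positivity)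
    refine ⟨t₀, ht₀, fun t ht htt => ?_⟩
    rw [Set.mem_Ioi] at ht
    rw [Real.dist_eq, sub_zero] at htt ⊢
    rw [abs_of_pos ht] at htt
    rw [abs_of_nonneg (hnn t ht)]
    have h1 := hlimC (G t) 1 t (hG2 t ht) (ε / 2) (by
      filter_upwards [hK 1 t, hn t ht htt.le] with T h2 h3
      rw [abs_le] at h2
      linarith [h2.2])
    linarith
  · rw [Metric.tendsto_nhds]
    intro ε hε
    obtain ⟨K, hK, hK1⟩ := ((transfer 2 (by norm_num) (by norm_num) (ε / 8) (by positivity)).and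
      (eventually_ge_atTop 1)).exists
    obtain ⟨t₀, hf⟩ := far K hK1 (ε / 8) (by positivity)
    filter_upwards [eventually_ge_atTop t₀, eventually_gt_atTop 0] with t ht ht0
    rw [Real.dist_eq, abs_sub_comm, abs_of_nonneg (by linarith [hle t ht0])]
    have h1 : c0 - G t ≤ ε / 2 := by
      refine le_of_tendsto (hc'.sub (hG2 t ht0)) ?_
      filter_upwards [hK 0 1, hK 1 t, hf t ht, eventually_gt_atTop 0] with T h2 h3 h4 h5
      rw [abs_le] at h2 h3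
      have hp : 0 < T ^ 3 := by positivity
      rw [← sub_div, div_le_iff₀ hp]
      linarith [h2.1, h2.2, h3.1, h3.2]
    linarith

theorem conv (κ : ℝ) (P : WeierstrassCurve ℤ → Prop) (L : ℝ)
    (h : Tendsto (fun T : ℝ => ((Cl κ (T ^ 4) P).ncard : ℝ) / T ^ 3) atTop (𝓝 L)) :
    Tendsto (fun X : ℝ => ((Cl κ X P).ncard : ℝ) / X ^ (3 / 4 : ℝ)) atTop (𝓝 L) := by
  have h1 := h.comp (tendsto_rpow_atTop (by norm_num : (0 : ℝ) < 1 / 4))
  refine h1.congr' ?_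
  filter_upwards [eventually_gt_atTop 0] with X hX
  simp only [Function.comp]
  have e1 : (X ^ (1 / 4 : ℝ)) ^ 4 = X := by
    rw [← Real.rpow_natCast, ← Real.rpow_mul hX.le]
    norm_num
  have e2 : (X ^ (1 / 4 : ℝ)) ^ 3 = X ^ (3 / 4 : ℝ) := by
    rw [← Real.rpow_natCast, ← Real.rpow_mul hX.le]
    norm_num
  rw [e1, e2]

theorem c0_pos : 0 < c0 := by
  have h1 := conv 2 (Pst 0 1) c0 (count 2 (by norm_num) (by norm_num)).2.2.2
  obtain ⟨X₀, h2⟩ := lower 2 (by norm_num)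
  have h3 : (1 : ℝ) / 2000 ≤ c0 := by
    refine ge_of_tendsto h1 ?_
    filter_upwards [eventually_ge_atTop X₀, eventually_ge_atTop 1] with X hX hX1
    rw [le_div_iff₀ (by positivity)]
    refine (h2 X hX).trans ?_
    have h4 : Cl 2 X (fun _ => True) ⊆ Cl 2 X (Pst 0 1) := by
      refine cl_mono _ _ _ _ (fun W _ => ?_)
      unfold Pst
      rw [zero_mul, one_mul]
      positivity
    exact_mod_cast Set.ncard_le_ncard h4 (cl_finite 2 X (by norm_num) hX1 _)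
  linarith

theorem lc_eq {p : ℕ} (hp : p.Prime) : lc 4 0 (3 / 4) p =
    if p = 2 then (3 - (2 : ℝ) ^ (3 / 4 : ℝ)) / (8 * (2 - (2 : ℝ) ^ (3 / 4 : ℝ)))
    else (1 - 1 / (p : ℝ)) ^ 2 * (1 + 2 / (p - (p : ℝ) ^ (3 / 4 : ℝ))) := by
  have hp1 : (1 : ℝ) < p := by exact_mod_cast hp.one_lt
  have hp0 : (0 : ℝ) < p := by linarith
  have hlt : (p : ℝ) ^ (3 / 4 : ℝ) < p := by
    calc (p : ℝ) ^ (3 / 4 : ℝ) < (p : ℝ) ^ (1 : ℝ) :=
          Real.rpow_lt_rpow_of_exponent_lt hp1 (by norm_num)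
      _ = p := Real.rpow_one _
  have e1 : (p : ℝ) ^ ((3 / 4 : ℝ) - 1) = (p : ℝ) ^ (3 / 4 : ℝ) / p := by
    rw [Real.rpow_sub_one hp0.ne']
  have hb : bt p (3 / 4) = (p - 1) / (p - (p : ℝ) ^ (3 / 4 : ℝ)) := by
    unfold bt
    rw [e1]
    have h1 : (p : ℝ) - (p : ℝ) ^ (3 / 4 : ℝ) ≠ 0 := by linarith
    have h2 : 1 - (p : ℝ) ^ (3 / 4 : ℝ) / p = (p - (p : ℝ) ^ (3 / 4 : ℝ)) / p := by
      field_simp
    rw [h2]
    field_simp
  have hne : (p : ℝ) - (p : ℝ) ^ (3 / 4 : ℝ) ≠ 0 := by linarith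
  unfold lc
  rw [hb]
  by_cases h2 : p = 2
  · subst h2
    rw [if_pos (by norm_num), if_pos rfl]
    push_cast at hne ⊢
    field_simp
    ring
  · rw [if_neg, if_neg h2]
    · have hb0 : bt p 0 = 1 := by
        unfold bt
        rw [zero_sub, Real.rpow_neg_one, ← one_div, div_self]
        have : 1 / (p : ℝ) < 1 := by rw [div_lt_one hp0]; exact hp1
        linarith
      rw [hb0]
      field_simp
      ring
    · intro h
      apply h2
      have h3 : p ∣ 2 ^ 2 := by simpa using h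
      exact (Nat.prime_dvd_prime_iff_eq hp Nat.prime_two).1 (hp.dvd_of_dvd_pow h3)

end Pool.Agent.T2h82.As
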