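import Pool.Agent.T2h82.As.Equi

/-!
# Lattice points in regions which depend on the point, periodically or almost periodically
-/

set_option autoImplicit false

namespace Pool.Agent.T2h82.As

open MeasureTheory Set Filter Topology
open scoped ENNReal

theorem exists_lim (f : ℝ → ℝ) (h : ∀ ε : ℝ, 0 < ε → ∃ L : ℝ, ∀ᶠ T in atTop, |f T - L| ≤ ε) :
    ∃ L : ℝ, Tendsto f atTop (𝓝 L) := by
  refine cauchySeq_tendsto_of_complete ?_
  rw [Metric.cauchySeq_iff]
  intro ε hε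
  obtain ⟨L, hL⟩ := h (ε / 3) (by positivity)
  obtain ⟨N, hN⟩ := eventually_atTop.1 hL
  refine ⟨N, fun m hm n hn => ?_⟩
  have h1 := abs_le.1 (hN m hm)
  have h2 := abs_le.1 (hN n hn)
  rw [Real.dist_eq, abs_lt]
  constructor <;> linarith

theorem Nice.empty : Nice (∅ : Set (ℝ × ℝ)) :=
  ⟨MeasurableSet.empty, Bornology.isBounded_empty, by simp⟩

theorem Nice.inter_le {R : Set (ℝ × ℝ)} (hR : Nice R) {f g : ℝ × ℝ → ℝ} (hf : Continuous f)
    (hg : Continuous g) (h : volume {p | f p = g p} = 0) : Nice (R ∩ {p | f p ≤ g p}) := by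
  refine ⟨hR.meas.inter (isClosed_le hf hg).measurableSet, hR.bdd.subset inter_subset_left, ?_⟩
  refine measure_mono_null (frontier_inter_subset _ _) (measure_union_null ?_ ?_)
  · exact measure_mono_null inter_subset_left hR.fr
  · exact measure_mono_null (inter_subset_right.trans (frontier_le_subset_eq hf hg)) h

theorem nice_box (K L : ℝ) : Nice (Icc (-K) K ×ˢ Icc (-L) L) := by
  refine ⟨measurableSet_Icc.prod measurableSet_Icc,
    (Metric.isBounded_Icc _ _).prod (Metric.isBounded_Icc _ _), ?_⟩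
  exact ((convex_Icc _ _).prod (convex_Icc _ _)).addHaar_frontier _

theorem Ix_eq {R : Set (ℝ × ℝ)} (q r1 r2 : ℤ) (a b : ℝ) (p : ℤ × ℤ) :
    p ∈ Ix R q r1 r2 a b ↔
      (((r1 + q * p.1 : ℤ) : ℝ) / a, ((r2 + q * p.2 : ℤ) : ℝ) / b) ∈ R := by
  unfold Ix
  push_cast
  rfl

/-- the points counted -/
def Pt (F : ℤ → ℤ → Set (ℝ × ℝ)) (a b : ℝ) : Set (ℤ × ℤ) :=
  {p | ((p.1 : ℝ) / a, (p.2 : ℝ) / b) ∈ F p.1 p.2}

theorem pt_finite (F : ℤ → ℤ → Set (ℝ × ℝ)) (B : Set (ℝ × ℝ)) (hB : Bornology.IsBounded B)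
    (hF : ∀ x u, F x u ⊆ B) {a b : ℝ} (ha : 0 < a) (hb : 0 < b) : (Pt F a b).Finite := by
  refine (ix_finite hB one_pos ha hb 0 0).subset ?_
  intro p hp
  have := hF _ _ hp
  unfold Ix
  simpa using this

/-- the periodic case -/
theorem equi_per (q : ℕ) (hq : 0 < q) (F : ℤ → ℤ → Set (ℝ × ℝ)) (hn : ∀ x u, Nice (F x u))
    (B : Set (ℝ × ℝ)) (hB : Bornology.IsBounded B) (hF : ∀ x u, F x u ⊆ B)
    (hper : ∀ x u i j : ℤ, F (x + q * i) (u + q * j) = F x u) (a b : ℝ → ℝ)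
    (ha : Tendsto a atTop atTop) (hb : Tendsto b atTop atTop) :
    Tendsto (fun T => ((Pt F (a T) (b T)).ncard : ℝ) / (a T * b T)) atTop
      (𝓝 (∑ r ∈ Finset.range q ×ˢ Finset.range q,
        (volume (F r.1 r.2)).toReal / (q : ℝ) ^ 2)) := by
  classical
  have h1 := tendsto_finsetSum (Finset.range q ×ˢ Finset.range q) (fun r _ =>
    equi (hn r.1 r.2) (q := (q : ℝ)) (by exact_mod_cast hq) (r.1 : ℝ) (r.2 : ℝ) a b ha hb)
  refine h1.congr' ?_
  filter_upwards [ha.eventually_gt_atTop 0, hb.eventually_gt_atTop 0] with T hT1 hT2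
  rw [← Finset.sum_div]
  congr 1
  have hfin := pt_finite F B hB hF hT1 hT2
  rw [Set.ncard_eq_toFinset_card _ hfin]
  have hqz : (q : ℤ) ≠ 0 := by exact_mod_cast hq.ne'
  set φ : ℤ × ℤ → ℕ × ℕ := fun p => ((p.1 % q).toNat, (p.2 % q).toNat) with hφ
  have hmaps : ∀ p ∈ hfin.toFinset, φ p ∈ Finset.range q ×ˢ Finset.range q := by
    intro p _
    rw [Finset.mem_product, Finset.mem_range, Finset.mem_range, hφ]
    have e1 := Int.emod_nonneg p.1 hqz
    have e2 := Int.emod_lt_of_pos p.1 (by exact_mod_cast hq : (0 : ℤ) < q)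
    have e3 := Int.emod_nonneg p.2 hqz
    have e4 := Int.emod_lt_of_pos p.2 (by exact_mod_cast hq : (0 : ℤ) < q)
    simp only
    omega
  rw [Finset.card_eq_sum_card_fiberwise hmaps]
  push_cast
  refine Finset.sum_congr rfl (fun r hr => ?_)
  rw [Finset.mem_product, Finset.mem_range, Finset.mem_range] at hr
  have hi := ix_finite (hn r.1 r.2).bdd (q := (q : ℝ)) (by exact_mod_cast hq) hT1 hT2 (r.1 : ℝ)
    (r.2 : ℝ)
  rw [Set.ncard_eq_toFinset_card _ hi]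
  norm_cast
  have hmod : ∀ (s : ℕ) (i : ℤ), s < q → (((s : ℤ) + q * i) % q).toNat = s := by
    intro s i hs
    rw [Int.add_mul_emod_self_left, Int.emod_eq_of_lt (by positivity) (by exact_mod_cast hs)]
    simp
  refine Finset.card_bij (fun i _ => ((r.1 : ℤ) + q * i.1, (r.2 : ℤ) + q * i.2)) ?_ ?_ ?_
  · intro i hi'
    rw [Set.Finite.mem_toFinset] at hi'
    have h2 := (Ix_eq (q : ℤ) (r.1 : ℤ) (r.2 : ℤ) (a T) (b T) i).1 (by
      push_cast
      exact hi')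
    rw [Finset.mem_filter, Set.Finite.mem_toFinset]
    refine ⟨?_, ?_⟩
    · unfold Pt
      show (_, _) ∈ F _ _
      rw [hper]
      exact h2
    · rw [hφ]
      simp only
      rw [hmod _ _ hr.1, hmod _ _ hr.2]
  · intro i _ j _ hij
    simp only [Prod.mk.injEq] at hij
    refine Prod.ext ?_ ?_
    · exact mul_left_cancel₀ hqz (by linarith [hij.1])
    · exact mul_left_cancel₀ hqz (by linarith [hij.2])
  · intro p hp
    rw [Finset.mem_filter, Set.Finite.mem_toFinset] at hp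
    obtain ⟨h2, h3⟩ := hp
    rw [hφ] at h3
    simp only at h3
    have e1 : (r.1 : ℤ) = p.1 % q := by
      rw [← h3]
      exact Int.toNat_of_nonneg (Int.emod_nonneg _ hqz)
    have e2 : (r.2 : ℤ) = p.2 % q := by
      rw [← h3]
      exact Int.toNat_of_nonneg (Int.emod_nonneg _ hqz)
    have f1 : (r.1 : ℤ) + q * (p.1 / q) = p.1 := by
      rw [e1]
      exact Int.emod_add_mul_ediv _ _
    have f2 : (r.2 : ℤ) + q * (p.2 / q) = p.2 := by
      rw [e2]
      exact Int.emod_add_mul_ediv _ _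
    refine ⟨(p.1 / q, p.2 / q), ?_, Prod.ext f1 f2⟩
    rw [Set.Finite.mem_toFinset]
    have h4 := (Ix_eq (R := F r.1 r.2) (q : ℤ) (r.1 : ℤ) (r.2 : ℤ) (a T) (b T)
      (p.1 / q, p.2 / q)).2 (by
        simp only
        rw [f1, f2, ← hper r.1 r.2 (p.1 / q) (p.2 / q), f1, f2]
        exact h2)
    push_cast at h4
    exact h4

/-- the almost periodic case -/
theorem equi_ap (F : ℤ → ℤ → Set (ℝ × ℝ)) (B : Set (ℝ × ℝ)) (hB : Bornology.IsBounded B)
    (hF : ∀ x u, F x u ⊆ B) (a b : ℝ → ℝ) (ha : Tendsto a atTop atTop)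
    (hb : Tendsto b atTop atTop)
    (h : ∀ ε : ℝ, 0 < ε → ∃ q : ℕ, 0 < q ∧ ∃ G : ℤ → ℤ → Set (ℝ × ℝ), (∀ x u, Nice (G x u)) ∧
      (∀ x u, G x u ⊆ B) ∧ (∀ x u i j : ℤ, G (x + q * i) (u + q * j) = G x u) ∧
      ∀ᶠ T in atTop, ({p : ℤ × ℤ | ((p.1 : ℝ) / a T, (p.2 : ℝ) / b T) ∈ B ∧
        F p.1 p.2 ≠ G p.1 p.2}.ncard : ℝ) ≤ ε * (a T * b T)) :
    ∃ L : ℝ, Tendsto (fun T => ((Pt F (a T) (b T)).ncard : ℝ) / (a T * b T)) atTop (𝓝 L) := by
  refine exists_lim _ (fun ε hε => ?_)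
  obtain ⟨q, hq, G, hn, hG, hper, hbad⟩ := h (ε / 2) (by positivity)
  have hlim := equi_per q hq G hn B hB hG hper a b ha hb
  set L := ∑ r ∈ Finset.range q ×ˢ Finset.range q, (volume (G r.1 r.2)).toReal / (q : ℝ) ^ 2
  refine ⟨L, ?_⟩
  have h2 : ∀ᶠ T in atTop, |((Pt G (a T) (b T)).ncard : ℝ) / (a T * b T) - L| < ε / 2 := by
    have := (Metric.tendsto_nhds.1 hlim) (ε / 2) (by positivity)
    simpa only [Real.dist_eq] using this
  filter_upwards [h2, hbad, ha.eventually_gt_atTop 0, hb.eventually_gt_atTop 0] with T h3 h4 h5 h6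
  have hfF := pt_finite F B hB hF h5 h6
  have hfG := pt_finite G B hB hG h5 h6
  have hfB : (Pt (fun _ _ => B) (a T) (b T)).Finite :=
    pt_finite (fun _ _ => B) B hB (fun _ _ => subset_rfl) h5 h6
  set D := {p : ℤ × ℤ | ((p.1 : ℝ) / a T, (p.2 : ℝ) / b T) ∈ B ∧ F p.1 p.2 ≠ G p.1 p.2} with hD
  have hfD : D.Finite := hfB.subset (fun p hp => hp.1)
  have s1 : Pt F (a T) (b T) ⊆ Pt G (a T) (b T) ∪ D := by
    intro p hp
    by_cases e : F p.1 p.2 = G p.1 p.2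
    · left
      unfold Pt at hp ⊢
      show _ ∈ G p.1 p.2
      rw [← e]
      exact hp
    · exact Or.inr ⟨hF _ _ hp, e⟩
  have s2 : Pt G (a T) (b T) ⊆ Pt F (a T) (b T) ∪ D := by
    intro p hp
    by_cases e : F p.1 p.2 = G p.1 p.2
    · left
      unfold Pt at hp ⊢
      show _ ∈ F p.1 p.2
      rw [e]
      exact hp
    · exact Or.inr ⟨hG _ _ hp, e⟩
  have c1 : ((Pt F (a T) (b T)).ncard : ℝ) ≤ (Pt G (a T) (b T)).ncard + D.ncard := by
    exact_mod_cast (Set.ncard_le_ncard s1 (hfG.union hfD)).trans (Set.ncard_union_le _ _)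
  have c2 : ((Pt G (a T) (b T)).ncard : ℝ) ≤ (Pt F (a T) (b T)).ncard + D.ncard := by
    exact_mod_cast (Set.ncard_le_ncard s2 (hfF.union hfD)).trans (Set.ncard_union_le _ _)
  have hp : 0 < a T * b T := by positivity
  have d1 : |((Pt F (a T) (b T)).ncard : ℝ) / (a T * b T) -
      ((Pt G (a T) (b T)).ncard : ℝ) / (a T * b T)| ≤ ε / 2 := by
    rw [← sub_div, abs_div, abs_of_pos hp, div_le_iff₀ hp, abs_le]
    constructor <;> linarith
  have h3' := h3.le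
  rw [abs_le] at d1 h3' ⊢
  constructor <;> linarith [d1.1, d1.2, h3'.1, h3'.2]

end Pool.Agent.T2h82.As
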