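import Pool.Agent.T2h82.Triv
import Pool.Agent.T2h82.As.Per

/-!
# The pairs with prescribed powerful parts: truncation and the counts of the bad pairs
-/

set_option autoImplicit false

namespace Pool.Agent.T2h82.As

open Finset
open Pool.Agent.T2h82 (pw pw_pos pw_dvd sr sr_pos card_sr card_natAbs pw_le_sr)
open scoped Nat

/-- `x ^ 2 - l u` -/
def fl (l : ℤ) (q : ℤ × ℤ) : ℤ := q.1 ^ 2 - l * q.2

theorem pw_gcd {n W : ℕ} (hn : n ≠ 0) (h : pw n ≤ W) : pw (Nat.gcd n (W !)) = pw n := by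
  have hW : W ! ≠ 0 := W.factorial_ne_zero
  have hfac : ∀ p, (Nat.gcd n (W !)).factorization p = min (n.factorization p)
      ((W !).factorization p) := by
    intro p
    rw [Nat.factorization_gcd hn hW]
    rfl
  have key : ∀ p, p ∈ n.primeFactors → n.factorization p ≠ 1 →
      (Nat.gcd n (W !)).factorization p = n.factorization p := by
    intro p hp h1
    have hpp := Nat.prime_of_mem_primeFactors hp
    have h2 : p ^ n.factorization p ∣ pw n := by
      unfold pw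
      exact dvd_prod_of_mem (fun p => p ^ n.factorization p) (mem_filter.2 ⟨hp, h1⟩)
    have h3 : p ^ n.factorization p ≤ W := (Nat.le_of_dvd (pw_pos n) h2).trans h
    have h4 : p ^ n.factorization p ∣ W ! :=
      Nat.dvd_factorial (pow_pos hpp.pos _) h3
    rw [hfac, min_eq_left]
    exact (hpp.pow_dvd_iff_le_factorization hW).1 h4
  have hset : (Nat.gcd n (W !)).primeFactors.filter
      (fun p => ¬ (Nat.gcd n (W !)).factorization p = 1) =
      n.primeFactors.filter (fun p => ¬ n.factorization p = 1) := by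
    ext p
    rw [mem_filter, mem_filter]
    constructor
    · rintro ⟨h1, h2⟩
      have hpp := Nat.prime_of_mem_primeFactors h1
      have h3 : p ∣ Nat.gcd n (W !) := Nat.dvd_of_mem_primeFactors h1
      have h4 : p ∈ n.primeFactors :=
        Nat.mem_primeFactors.2 ⟨hpp, h3.trans (Nat.gcd_dvd_left _ _), hn⟩
      refine ⟨h4, fun h5 => h2 ?_⟩
      have h6 : 1 ≤ (Nat.gcd n (W !)).factorization p :=
        (hpp.dvd_iff_one_le_factorization (Nat.gcd_ne_zero_left hn)).1 h3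
      have h7 := hfac p
      rw [h5] at h7
      have := min_le_left 1 ((W !).factorization p)
      omega
    · rintro ⟨h1, h2⟩
      have hpp := Nat.prime_of_mem_primeFactors h1
      have h3 := key p h1 h2
      refine ⟨?_, by rw [h3]; exact h2⟩
      rw [← Nat.support_factorization, Finsupp.mem_support_iff, h3]
      have : 1 ≤ n.factorization p :=
        (hpp.dvd_iff_one_le_factorization hn).1 (Nat.dvd_of_mem_primeFactors h1)
      omega
  unfold pw
  rw [hset]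
  refine prod_congr rfl (fun p hp => ?_)
  rw [mem_filter] at hp
  rw [key p hp.1 hp.2]

/-- the integers with a large square divisor -/
theorem bad_int (M : ℕ) (D : ℝ) (hD : 0 < D) (S : Finset ℤ)
    (h : ∀ u ∈ S, u ≠ 0 ∧ u.natAbs ≤ M ∧ D < (sr u.natAbs : ℝ)) : (S.card : ℝ) ≤ 4 * M / D := by
  classical
  have h1 := card_natAbs S
  have h2 : S.image Int.natAbs ⊆ (Icc 1 M).filter (fun v => D < (sr v : ℝ)) := by
    intro v hv
    rw [mem_image] at hv
    obtain ⟨u, hu, rfl⟩ := hv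
    obtain ⟨a1, a2, a3⟩ := h u hu
    rw [mem_filter, mem_Icc]
    exact ⟨⟨by omega, a2⟩, a3⟩
  have h3 := card_le_card h2
  have h4 := card_sr M D hD
  have h5 : (S.card : ℝ) ≤ 2 * ((((Icc 1 M).filter (fun v => D < (sr v : ℝ))).card : ℕ) : ℝ) := by
    exact_mod_cast h1.trans (by omega)
  calc (S.card : ℝ) ≤ 2 * (2 * M / D) := by linarith
    _ = _ := by ring

theorem card_prod_le (S : Finset (ℤ × ℤ)) (I J : Finset ℤ) (h : ∀ q ∈ S, q.1 ∈ I ∧ q.2 ∈ J)
    (α β : ℝ) (hα : (I.card : ℝ) ≤ α) (hβ : (J.card : ℝ) ≤ β) : (S.card : ℝ) ≤ α * β := by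
  have h1 : S ⊆ I ×ˢ J := fun q hq => mem_product.2 (h q hq)
  have h2 := card_le_card h1
  rw [card_product] at h2
  have h3 : (S.card : ℝ) ≤ (I.card : ℝ) * J.card := by exact_mod_cast h2
  have h4 : (0 : ℝ) ≤ I.card := by positivity
  exact h3.trans (mul_le_mul hα hβ (by positivity) (h4.trans hα))

theorem card_box (M : ℕ) : (((Icc (-(M : ℤ)) M).card : ℕ) : ℝ) = 2 * M + 1 := by
  rw [Int.card_Icc]
  have : ((M : ℤ) + 1 - -(M : ℤ)).toNat = 2 * M + 1 := by omega
  rw [this]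
  push_cast
  ring

/-- the pairs with a large common prime -/
theorem bad_cop (A U : ℕ) (W : ℕ) (S : Finset (ℤ × ℤ))
    (h : ∀ q ∈ S, q.1 ≠ 0 ∧ q.2 ≠ 0 ∧ q.1.natAbs ≤ A ∧ q.2.natAbs ≤ U ∧
      ∃ p : ℕ, W < p ∧ (p : ℤ) ∣ q.1 ∧ (p : ℤ) ∣ q.2) : (S.card : ℝ) ≤ 8 * A * U / (W + 1) := by
  classical
  have hmul : ∀ (M p : ℕ), 0 < p → ((((Icc (-(M : ℤ)) M).filter
      (fun x => x ≠ 0 ∧ (p : ℤ) ∣ x)).card : ℕ) : ℝ) ≤ 2 * M / p := by
    intro M p hp
    have h1 := card_natAbs ((Icc (-(M : ℤ)) M).filter (fun x => x ≠ 0 ∧ (p : ℤ) ∣ x))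
    have h2 : ((Icc (-(M : ℤ)) M).filter (fun x => x ≠ 0 ∧ (p : ℤ) ∣ x)).image Int.natAbs ⊆
        (Ioc 0 M).filter (fun v => p ∣ v) := by
      intro v hv
      rw [mem_image] at hv
      obtain ⟨x, hx, rfl⟩ := hv
      rw [mem_filter, mem_Icc] at hx
      rw [mem_filter, mem_Ioc]
      exact ⟨⟨by omega, by omega⟩, Int.natCast_dvd.1 hx.2.2⟩
    have h3 := card_le_card h2
    rw [Nat.Ioc_filter_dvd_card_eq_div] at h3
    have h4 : ((((Icc (-(M : ℤ)) M).filter (fun x => x ≠ 0 ∧ (p : ℤ) ∣ x)).card : ℕ) : ℝ) ≤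
        2 * ((M / p : ℕ) : ℝ) := by
      exact_mod_cast h1.trans (by omega)
    have h5 : ((M / p : ℕ) : ℝ) ≤ (M : ℝ) / p := Nat.cast_div_le
    calc _ ≤ 2 * ((M : ℝ) / p) := by linarith
      _ = _ := by ring
  have hsub : S ⊆ (Ioo W (A + 1)).biUnion (fun p =>
      ((Icc (-(A : ℤ)) A).filter (fun x => x ≠ 0 ∧ (p : ℤ) ∣ x)) ×ˢ
        ((Icc (-(U : ℤ)) U).filter (fun x => x ≠ 0 ∧ (p : ℤ) ∣ x))) := by
    intro q hq
    obtain ⟨h1, h2, h3, h4, p, h5, h6, h7⟩ := h q hq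
    rw [mem_biUnion]
    refine ⟨p, ?_, ?_⟩
    · rw [mem_Ioo]
      have := Nat.le_of_dvd (by omega) (Int.natCast_dvd.1 h6)
      omega
    · rw [mem_product, mem_filter, mem_filter, mem_Icc, mem_Icc]
      exact ⟨⟨by omega, h1, h6⟩, ⟨by omega, h2, h7⟩⟩
  have h1 : (S.card : ℝ) ≤ ∑ p ∈ Ioo W (A + 1), (2 * A / p) * (2 * U / (p : ℝ)) := by
    have e1 := (card_le_card hsub).trans card_biUnion_le
    have e2 : (S.card : ℝ) ≤ ∑ p ∈ Ioo W (A + 1),
        (((((Icc (-(A : ℤ)) A).filter (fun x => x ≠ 0 ∧ (p : ℤ) ∣ x)) ×ˢ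
        ((Icc (-(U : ℤ)) U).filter (fun x => x ≠ 0 ∧ (p : ℤ) ∣ x))).card : ℕ) : ℝ) := by
      exact_mod_cast e1
    refine e2.trans (sum_le_sum (fun p hp => ?_))
    rw [mem_Ioo] at hp
    rw [card_product]
    push_cast
    exact mul_le_mul (hmul A p (by omega)) (hmul U p (by omega)) (by positivity) (by positivity)
  refine h1.trans ?_
  have h2 := sum_Ioo_inv_sq_le (α := ℝ) W (A + 1)
  calc ∑ p ∈ Ioo W (A + 1), (2 * A / p) * (2 * U / (p : ℝ))
      = 4 * A * U * ∑ p ∈ Ioo W (A + 1), ((p : ℝ) ^ 2)⁻¹ := by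
        rw [mul_sum]
        refine sum_congr rfl (fun p hp => ?_)
        rw [mem_Ioo] at hp
        have : (p : ℝ) ≠ 0 := by
          have : p ≠ 0 := by omega
          exact_mod_cast this
        field_simp
        ring
    _ ≤ 4 * A * U * (2 / ((W : ℝ) + 1)) := by gcongr
    _ = _ := by ring

end Pool.Agent.T2h82.As
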