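import Pool.Agent.T2h82.As.Reg

/-!
# The areas of the level sets
-/

set_option autoImplicit false

namespace Pool.Agent.T2h82.As

open MeasureTheory Set Filter Topology
open scoped ENNReal

theorem vol_scale {c1 c2 : ℝ} (h1 : 0 < c1) (h2 : 0 < c2) {S : Set (ℝ × ℝ)} (hS : MeasurableSet S) :
    volume {p : ℝ × ℝ | (c1 * p.1, c2 * p.2) ∈ S} = ENNReal.ofReal ((c1 * c2)⁻¹) * volume S := by
  have hm : Measurable (Prod.map (fun x : ℝ => c1 * x) (fun x : ℝ => c2 * x)) :=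
    (measurable_const_mul c1).prodMap (measurable_const_mul c2)
  have e1 := Measure.map_prod_map (volume : Measure ℝ) (volume : Measure ℝ)
    (measurable_const_mul c1) (measurable_const_mul c2)
  rw [Real.map_volume_mul_left h1.ne', Real.map_volume_mul_left h2.ne', Measure.prod_smul_left,
    Measure.prod_smul_right, smul_smul, ← ENNReal.ofReal_mul (abs_nonneg _), ← abs_mul,
    ← mul_inv, abs_of_pos (inv_pos.2 (mul_pos h1 h2))] at e1
  have e2 : volume {p : ℝ × ℝ | (c1 * p.1, c2 * p.2) ∈ S} =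
      (Measure.map (Prod.map (fun x : ℝ => c1 * x) (fun x : ℝ => c2 * x))
        ((volume : Measure ℝ).prod volume)) S := by
    rw [Measure.map_apply hm hS]
    rfl
  rw [e2, ← e1, Measure.smul_apply, smul_eq_mul]
  rfl

/-- the level set -/
def Lev (l : ℝ) (j : ℕ) (m : ℝ) : Set (ℝ × ℝ) :=
  {p | |p.1| ^ j * (|p.2| * |p.1 ^ 2 - l * p.2|) ≤ m}

theorem lev_meas (l : ℝ) (j : ℕ) (m : ℝ) : MeasurableSet (Lev l j m) :=
  (isClosed_le (by fun_prop) continuous_const).measurableSet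

theorem phi_scale (l : ℝ) (j : ℕ) {c : ℝ} (hc : 0 < c) (x u : ℝ) :
    |c * x| ^ j * (|c ^ 2 * u| * |(c * x) ^ 2 - l * (c ^ 2 * u)|) =
      c ^ (4 + j) * (|x| ^ j * (|u| * |x ^ 2 - l * u|)) := by
  have e1 : (c * x) ^ 2 - l * (c ^ 2 * u) = c ^ 2 * (x ^ 2 - l * u) := by ring
  rw [e1, abs_mul, abs_mul, abs_mul, abs_of_pos hc, abs_of_pos (by positivity : (0 : ℝ) < c ^ 2),
    mul_pow, pow_add]
  ring

theorem lev_scale (l : ℝ) (j : ℕ) {c : ℝ} (hc : 0 < c) :
    {p : ℝ × ℝ | (c⁻¹ * p.1, (c⁻¹) ^ 2 * p.2) ∈ Lev l j 1} = Lev l j (c ^ (4 + j)) := by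
  ext p
  unfold Lev
  simp only [mem_ofPred_eq]
  rw [phi_scale l j (inv_pos.2 hc), inv_pow, inv_mul_le_iff₀ (by positivity), mul_one]

theorem vol_lev (l : ℝ) (j : ℕ) {c : ℝ} (hc : 0 < c) :
    volume (Lev l j (c ^ (4 + j))) = ENNReal.ofReal (c ^ 3) * volume (Lev l j 1) := by
  rw [← lev_scale l j hc, vol_scale (inv_pos.2 hc) (by positivity) (lev_meas l j 1)]
  congr 2
  field_simp

theorem root_facts (j : ℕ) {m : ℝ} (hm : 1 ≤ m) : ∃ c : ℝ, 1 ≤ c ∧ c ^ (4 + j) = m ∧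
    c ^ 3 = m ^ (3 / (4 + (j : ℝ))) := by
  have hm0 : 0 < m := by linarith
  have hj : (0 : ℝ) < 4 + (j : ℝ) := by positivity
  refine ⟨m ^ (1 / (4 + (j : ℝ))), Real.one_le_rpow hm (by positivity), ?_, ?_⟩
  · rw [← Real.rpow_natCast, ← Real.rpow_mul hm0.le]
    push_cast
    rw [one_div_mul_cancel hj.ne', Real.rpow_one]
  · rw [← Real.rpow_natCast, ← Real.rpow_mul hm0.le]
    congr 1
    push_cast
    ring

/-- from above -/
theorem lv_upper (l : ℝ) (j : ℕ) (K : ℝ) {m : ℝ} (hm : 1 ≤ m) (hfin : volume (Lev l j 1) ≠ ⊤) :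
    (volume (Lv l j K m)).toReal ≤ m ^ (3 / (4 + (j : ℝ))) * (volume (Lev l j 1)).toReal := by
  obtain ⟨c, hc1, hc2, hc3⟩ := root_facts j hm
  have hc0 : 0 < c := by linarith
  have h1 : volume (Lv l j K m) ≤ ENNReal.ofReal (c ^ 3) * volume (Lev l j 1) := by
    rw [← vol_lev l j hc0, hc2]
    exact measure_mono inter_subset_right
  have h2 := ENNReal.toReal_mono (ENNReal.mul_ne_top ENNReal.ofReal_ne_top hfin) h1
  rw [ENNReal.toReal_mul, ENNReal.toReal_ofReal (by positivity), hc3] at h2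
  exact h2

/-- from below -/
theorem lv_lower (l : ℝ) (hl : l ≠ 0) (j : ℕ) (K K' : ℝ) {m : ℝ} (hm : 1 ≤ m) (hK' : 0 ≤ K')
    (hK : K' * m ≤ K) :
    m ^ (3 / (4 + (j : ℝ))) * (volume (Lv l j K' 1)).toReal ≤ (volume (Lv l j K m)).toReal := by
  obtain ⟨c, hc1, hc2, hc3⟩ := root_facts j hm
  have hc0 : 0 < c := by linarith
  have hcm : c ^ 2 ≤ m := by
    rw [← hc2]
    exact pow_le_pow_right₀ hc1 (by omega)
  have hcm1 : c ≤ m := by
    have : c ≤ c ^ 2 := le_self_pow₀ hc1 (by norm_num)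
    linarith
  have hsub : {p : ℝ × ℝ | (c⁻¹ * p.1, (c⁻¹) ^ 2 * p.2) ∈ Lv l j K' 1} ⊆ Lv l j K m := by
    intro p hp
    have h1 : (c⁻¹ * p.1, (c⁻¹) ^ 2 * p.2) ∈ Lv l j K' 1 := hp
    obtain ⟨h2, h3⟩ := h1
    refine ⟨?_, ?_⟩
    · rw [mem_prod, mem_Icc, mem_Icc, ← abs_le, ← abs_le] at h2 ⊢
      simp only at h2
      rw [abs_mul, abs_mul, abs_of_pos (inv_pos.2 hc0),
        abs_of_pos (by positivity : (0 : ℝ) < c⁻¹ ^ 2), inv_pow, inv_mul_le_iff₀ hc0,
        inv_mul_le_iff₀ (by positivity)] at h2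
      obtain ⟨a1, a2⟩ := h2
      constructor
      · calc |p.1| ≤ c * K' := a1
          _ ≤ m * K' := by gcongr
          _ = K' * m := by ring
          _ ≤ K := hK
      · calc |p.2| ≤ c ^ 2 * K' := a2
          _ ≤ m * K' := by gcongr
          _ = K' * m := by ring
          _ ≤ K := hK
    · have h4 : p ∈ Lev l j (c ^ (4 + j)) := by
        rw [← lev_scale l j hc0]
        exact h3
      rw [hc2] at h4
      exact h4
  have h1 : ENNReal.ofReal (c ^ 3) * volume (Lv l j K' 1) ≤ volume (Lv l j K m) := by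
    refine le_trans (le_of_eq ?_) (measure_mono hsub)
    rw [vol_scale (inv_pos.2 hc0) (by positivity) (lv_nice l hl j K' 1).meas]
    congr 2
    field_simp
  have h2 := ENNReal.toReal_mono ((lv_nice l hl j K m).bdd.measure_lt_top).ne h1
  rw [ENNReal.toReal_mul, ENNReal.toReal_ofReal (by positivity), hc3] at h2
  exact h2

/-- the level sets in growing boxes -/
theorem lv_lim (l : ℝ) (j : ℕ) :
    Tendsto (fun K : ℝ => volume (Lv l j K 1)) atTop (𝓝 (volume (Lev l j 1))) := by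
  have hmono : Monotone (fun K : ℝ => Lv l j K 1) := by
    intro K K' hK p hp
    obtain ⟨h1, h2⟩ := hp
    refine ⟨?_, h2⟩
    rw [mem_prod, mem_Icc, mem_Icc] at h1 ⊢
    obtain ⟨⟨a1, a2⟩, a3, a4⟩ := h1
    exact ⟨⟨by linarith, by linarith⟩, by linarith, by linarith⟩
  have h1 := tendsto_measure_iUnion_atTop (μ := (volume : Measure (ℝ × ℝ))) hmono
  have h2 : (⋃ K : ℝ, Lv l j K 1) = Lev l j 1 := by
    ext p
    rw [mem_iUnion]
    constructor
    · rintro ⟨K, h⟩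
      exact h.2
    · intro h
      refine ⟨max |p.1| |p.2|, ?_, h⟩
      rw [mem_prod, mem_Icc, mem_Icc, ← abs_le, ← abs_le]
      exact ⟨le_max_left _ _, le_max_right _ _⟩
  rw [h2] at h1
  exact h1

end Pool.Agent.T2h82.As
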