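import Pool.Agent.T2h82.As.Loc3
import Pool.Agent.T2h82.As.Vol

/-!
# The constant
-/

set_option autoImplicit false

namespace Pool.Agent.T2h82.As

open Finset Filter Topology MeasureTheory
open Pool.Agent.H328R2.ABC (rad rad_pos)
open Pool.Agent.T2h82 (pw pw_pos mul_rad_eq)
open scoped Nat

/-- the difference between the counts -/
theorem diff_bound (l : ℤ) (hl : l ≠ 0) (P : ℤ → Prop) (Reg : ℕ → ℕ → ℕ → Set (ℝ × ℝ)) (K : ℝ)
    (hK : 0 < K) (hB : ∀ v w z, Reg v w z ⊆ Set.Icc (-K) K ×ˢ Set.Icc (-K) K) :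
    ∃ C : ℝ, 0 < C ∧ ∀ (D : ℝ) (W : ℕ) (T : ℝ), 1 ≤ D → D ^ 3 ≤ W → 1 ≤ T →
      |((Pt (Fn l P Reg) T (T ^ 2)).ncard : ℝ) - ((Pt (Gn l P Reg W) T (T ^ 2)).ncard : ℝ)| ≤
        C * (T ^ 3 / D + T ^ 2) := by
  classical
  have hbdd : Bornology.IsBounded (Set.Icc (-K) K ×ˢ Set.Icc (-K) K : Set (ℝ × ℝ)) :=
    (nice_box K K).bdd
  obtain ⟨C, hC, hbad⟩ := bad_all l hl K hK
  refine ⟨C, hC, fun D W T hD hDW hT => ?_⟩
  have hT0 : 0 < T := by linarith
  have hT2 : 0 < T ^ 2 := by positivity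
  have hF : ∀ x u, Fn l P Reg x u ⊆ Set.Icc (-K) K ×ˢ Set.Icc (-K) K := by
    intro x u
    unfold Fn
    split_ifs
    · exact hB _ _ _
    · exact Set.empty_subset _
  have hG : ∀ x u, Gn l P Reg W x u ⊆ Set.Icc (-K) K ×ˢ Set.Icc (-K) K := by
    intro x u
    unfold Gn
    split_ifs
    · exact hB _ _ _
    · exact Set.empty_subset _
  have hfF := pt_finite _ _ hbdd hF hT0 hT2
  have hfG := pt_finite _ _ hbdd hG hT0 hT2
  have hfB : (Pt (fun _ _ => Set.Icc (-K) K ×ˢ Set.Icc (-K) K) T (T ^ 2)).Finite :=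
    pt_finite _ _ hbdd (fun _ _ => subset_rfl) hT0 hT2
  set B : Set (ℤ × ℤ) := {p : ℤ × ℤ | ((p.1 : ℝ) / T, (p.2 : ℝ) / T ^ 2) ∈
    (Set.Icc (-K) K ×ˢ Set.Icc (-K) K : Set (ℝ × ℝ)) ∧ Bad l W p} with hBd
  have hfD : B.Finite := hfB.subset (fun p hp => hp.1)
  have hcard : (B.ncard : ℝ) ≤ C * (T ^ 3 / D + T ^ 2) := by
    rw [Set.ncard_eq_toFinset_card _ hfD]
    refine hbad D W T hD hDW hT hfD.toFinset (fun q hq => ?_)
    rw [Set.Finite.mem_toFinset] at hq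
    obtain ⟨⟨k1, k2⟩, k3⟩ := hq
    simp only [Set.mem_Icc] at k1 k2
    refine ⟨?_, ?_, k3⟩
    · rw [← abs_le, abs_div, abs_of_pos hT0, div_le_iff₀ hT0] at k1
      exact k1
    · rw [← abs_le, abs_div, abs_of_pos hT2, div_le_iff₀ hT2] at k2
      exact k2
  have s1 : Pt (Fn l P Reg) T (T ^ 2) ⊆ Pt (Gn l P Reg W) T (T ^ 2) ∪ B := by
    intro p hp
    by_cases e : Bad l W p
    · exact Or.inr ⟨hF _ _ hp, e⟩
    · left
      have := fn_eq_gn l P Reg W p.1 p.2 e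
      unfold Pt at hp ⊢
      show _ ∈ Gn l P Reg W p.1 p.2
      rw [← this]
      exact hp
  have s2 : Pt (Gn l P Reg W) T (T ^ 2) ⊆ Pt (Fn l P Reg) T (T ^ 2) ∪ B := by
    intro p hp
    by_cases e : Bad l W p
    · exact Or.inr ⟨hG _ _ hp, e⟩
    · left
      have := fn_eq_gn l P Reg W p.1 p.2 e
      unfold Pt at hp ⊢
      show _ ∈ Fn l P Reg p.1 p.2
      rw [this]
      exact hp
  have c1 : ((Pt (Fn l P Reg) T (T ^ 2)).ncard : ℝ) ≤ (Pt (Gn l P Reg W) T (T ^ 2)).ncard +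
      B.ncard := by
    exact_mod_cast (Set.ncard_le_ncard s1 (hfG.union hfD)).trans (Set.ncard_union_le _ _)
  have c2 : ((Pt (Gn l P Reg W) T (T ^ 2)).ncard : ℝ) ≤ (Pt (Fn l P Reg) T (T ^ 2)).ncard +
      B.ncard := by
    exact_mod_cast (Set.ncard_le_ncard s2 (hfF.union hfD)).trans (Set.ncard_union_le _ _)
  rw [abs_le]
  constructor <;> linarith

/-- the limit as a limit of sums over classes -/
theorem lim_pairs2 (l : ℤ) (hl : l ≠ 0) (P : ℤ → Prop) (d : ℕ) (hd : 0 < d)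
    (hP : ∀ x i : ℤ, P (x + d * i) ↔ P x) (Reg : ℕ → ℕ → ℕ → Set (ℝ × ℝ))
    (hn : ∀ v w z, Nice (Reg v w z)) (K : ℝ) (hK : 0 < K)
    (hB : ∀ v w z, Reg v w z ⊆ Set.Icc (-K) K ×ˢ Set.Icc (-K) K) :
    ∃ L : ℝ, Tendsto (fun T : ℝ => ((Pt (Fn l P Reg) T (T ^ 2)).ncard : ℝ) / (T * T ^ 2)) atTop
      (𝓝 L) ∧ Tendsto (fun W : ℕ => ∑ r ∈ range (W !) ×ˢ range (W !),
        (volume (Gn l P Reg W r.1 r.2)).toReal / ((W ! : ℕ) : ℝ) ^ 2) atTop (𝓝 L) := by
  obtain ⟨L, hL⟩ := lim_pairs l hl P d hd hP Reg hn K hK hB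
  refine ⟨L, hL, ?_⟩
  obtain ⟨C, hC, hdiff⟩ := diff_bound l hl P Reg K hK hB
  have hbdd : Bornology.IsBounded (Set.Icc (-K) K ×ˢ Set.Icc (-K) K : Set (ℝ × ℝ)) :=
    (nice_box K K).bdd
  have key : ∀ W : ℕ, 1 ≤ W → d ≤ W →
      |∑ r ∈ range (W !) ×ˢ range (W !), (volume (Gn l P Reg W r.1 r.2)).toReal /
        ((W ! : ℕ) : ℝ) ^ 2 - L| ≤ C / (W : ℝ) ^ (1 / 3 : ℝ) := by
    intro W hW1 hW
    have hW0 : (1 : ℝ) ≤ W := by exact_mod_cast hW1
    have hdW : (d : ℤ) ∣ (W ! : ℤ) := by exact_mod_cast Nat.dvd_factorial hd hW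
    obtain ⟨e, he⟩ := hdW
    have hP' : ∀ x i : ℤ, P (x + (1 : ℕ) * i * (W ! : ℤ)) ↔ P x := by
      intro x i
      have : x + (1 : ℕ) * i * (W ! : ℤ) = x + d * (e * i) := by
        rw [he]
        push_cast
        ring
      rw [this, hP]
    have hper : ∀ x u i j : ℤ, Gn l P Reg W (x + (W ! : ℕ) * i) (u + (W ! : ℕ) * j) =
        Gn l P Reg W x u := by
      intro x u i j
      have h1 : Int.gcd (x + (W ! : ℕ) * i) (W ! : ℤ) = Int.gcd x (W ! : ℤ) := by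
        rw [Int.gcd_add_mul_left_left]
      have h2 : Int.gcd (u + (W ! : ℕ) * j) (W ! : ℤ) = Int.gcd u (W ! : ℤ) := by
        rw [Int.gcd_add_mul_left_left]
      have h3 : Int.gcd (fl l (x + (W ! : ℕ) * i, u + (W ! : ℕ) * j)) (W ! : ℤ) =
          Int.gcd (fl l (x, u)) (W ! : ℤ) := by
        have : fl l (x + (W ! : ℕ) * i, u + (W ! : ℕ) * j) = fl l (x, u) +
            (W ! : ℤ) * (2 * x * i + (W ! : ℤ) * i ^ 2 - l * j) := by
          unfold fl
          push_cast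
          ring
        rw [this, Int.gcd_add_mul_left_left]
      have h4 : P (x + (W ! : ℕ) * i) ↔ P x := by
        have := hP' x i
        have e2 : x + (1 : ℕ) * i * (W ! : ℤ) = x + (W ! : ℕ) * i := by push_cast; ring
        rw [e2] at this
        exact this
      have h5 := propext h4
      unfold Gn
      rw [h1, h2, h3, h5]
    have hlim := equi_per (W !) (Nat.factorial_pos W) (Gn l P Reg W) (fun x u => by
      unfold Gn
      split_ifs
      · exact hn _ _ _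
      · exact Nice.empty) _ hbdd (fun x u => by
      unfold Gn
      split_ifs
      · exact hB _ _ _
      · exact Set.empty_subset _) hper (fun T => T) (fun T => T ^ 2) tendsto_id
      (tendsto_pow_atTop (by norm_num))
    have h6 := (hlim.sub hL).abs
    have h7 : Tendsto (fun T : ℝ => C * (1 / (W : ℝ) ^ (1 / 3 : ℝ) + T⁻¹)) atTop
        (𝓝 (C * (1 / (W : ℝ) ^ (1 / 3 : ℝ) + 0))) :=
      (tendsto_inv_atTop_zero.const_add _).const_mul C
    have h8 : C * (1 / (W : ℝ) ^ (1 / 3 : ℝ) + 0) = C / (W : ℝ) ^ (1 / 3 : ℝ) := by ring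
    rw [h8] at h7
    refine le_of_tendsto_of_tendsto h6 h7 ?_
    filter_upwards [eventually_ge_atTop 1] with T hT
    have hT0 : 0 < T := by linarith
    have hD1 : 1 ≤ (W : ℝ) ^ (1 / 3 : ℝ) := Real.one_le_rpow hW0 (by norm_num)
    have hD3 : ((W : ℝ) ^ (1 / 3 : ℝ)) ^ 3 ≤ W := by
      rw [← Real.rpow_natCast, ← Real.rpow_mul (by positivity)]
      norm_num
    have h9 := hdiff _ W T hD1 hD3 hT
    have hp : 0 < T * T ^ 2 := by positivity
    rw [abs_sub_comm, ← sub_div, abs_div, abs_of_pos hp, div_le_iff₀ hp]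
    refine h9.trans (le_of_eq ?_)
    field_simp
  have h0 : Tendsto (fun W : ℕ => C / (W : ℝ) ^ (1 / 3 : ℝ)) atTop (𝓝 0) :=
    ((tendsto_rpow_atTop (by norm_num : (0 : ℝ) < 1 / 3)).comp
      tendsto_natCast_atTop_atTop).const_div_atTop C
  rw [tendsto_iff_dist_tendsto_zero]
  refine squeeze_zero' (Eventually.of_forall fun _ => dist_nonneg) ?_ h0
  filter_upwards [eventually_ge_atTop 1, eventually_ge_atTop d] with W h1 h2
  rw [Real.dist_eq]
  exact key W h1 h2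

/-- the region of the level sets -/
def RegJ (l : ℤ) (j : ℕ) (K : ℝ) (v w z : ℕ) : Set (ℝ × ℝ) :=
  Lv (l : ℝ) j K (ew v ^ j * (ew w * ew z))

theorem one_le_ew {n : ℕ} (hn : n ≠ 0) : 1 ≤ ew n := by
  have h2 : (0 : ℝ) < rad n := by exact_mod_cast rad_pos _
  unfold ew
  rw [le_div_iff₀ h2, one_mul]
  have : rad n ≤ n := Nat.le_of_dvd (Nat.pos_of_ne_zero hn) (Nat.prod_primeFactors_dvd n)
  exact_mod_cast this

theorem weight_rpow (j : ℕ) (s : ℝ) (v w z : ℕ) :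
    (ew v ^ j * (ew w * ew z)) ^ s = ew v ^ ((j : ℝ) * s) * (ew w ^ s * ew z ^ s) := by
  have h1 := ew_nonneg v
  have h2 := ew_nonneg w
  have h3 := ew_nonneg z
  rw [Real.mul_rpow (by positivity) (by positivity), Real.mul_rpow h2 h3, ← Real.rpow_natCast (ew v),
    ← Real.rpow_mul h1]

/-- **The constant.** -/
theorem const_lim {l c : ℤ} {d : ℕ} (h : Hy l c d) (j : ℕ) (hj : j ≤ 1) (B : ℝ)
    (hbound : ∀ K : ℝ, 1 ≤ K → ∀ L : ℝ, Tendsto (fun T : ℝ =>
      ((Pt (Fn l (fun x => (d : ℤ) ∣ x - c) (RegJ l j K)) T (T ^ 2)).ncard : ℝ) / (T * T ^ 2))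
        atTop (𝓝 L) → L ≤ B) :
    volume (Lev l j 1) ≠ ⊤ ∧ ∃ κ : ℝ → ℝ, (∀ K : ℝ, 0 < K → Tendsto (fun T : ℝ =>
      ((Pt (Fn l (fun x => (d : ℤ) ∣ x - c) (RegJ l j K)) T (T ^ 2)).ncard : ℝ) / (T * T ^ 2))
        atTop (𝓝 (κ K))) ∧
      Tendsto κ atTop (𝓝 ((volume (Lev l j 1)).toReal *
        ∏' p : Nat.Primes, lc d ((j : ℝ) * (3 / (4 + (j : ℝ)))) (3 / (4 + (j : ℝ))) p)) := by
  classical
  have hl0 : l ≠ 0 := by
    rcases h with h | h
    · rw [h.1]; norm_num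
    · rw [h.1]; norm_num
  have hd0 : 0 < d := by
    rcases h with h | h
    · rw [h.2]; norm_num
    · rw [h.2.1]; norm_num
  have hlr : ((l : ℤ) : ℝ) ≠ 0 := by exact_mod_cast hl0
  have hj1 : (j : ℝ) ≤ 1 := by exact_mod_cast hj
  have hj0 : (0 : ℝ) ≤ j := by positivity
  set σ : ℝ := 3 / (4 + (j : ℝ)) with hσ
  have hσ0 : 0 < σ := by positivity
  have hσ1 : σ ≤ 3 / 4 := by
    rw [hσ]
    exact div_le_div_of_nonneg_left (by norm_num) (by norm_num) (by linarith)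
  set σ' : ℝ := σ + 1 / 8 with hσ'
  have hjσ : (j : ℝ) * σ ≤ σ := by nlinarith
  have hjσ' : (j : ℝ) * σ' ≤ σ' := by nlinarith
  obtain ⟨eu1, eu2, eu3⟩ := euler h (s1 := (j : ℝ) * σ) (s2 := σ) (by positivity) (by linarith)
    hσ0.le (by linarith)
  obtain ⟨ev1, -, -⟩ := euler h (s1 := (j : ℝ) * σ') (s2 := σ') (by positivity) (by linarith)
    (by positivity) (by linarith)
  set S : ℝ := ∏' p : Nat.Primes, lc d ((j : ℝ) * σ) σ p with hS
  set S' : ℝ := ∏' p : Nat.Primes, lc d ((j : ℝ) * σ') σ' p with hS'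
  -- the limits
  have hP : ∀ x i : ℤ, ((d : ℤ) ∣ (x + d * i) - c) ↔ ((d : ℤ) ∣ x - c) := by
    intro x i
    have : (x + d * i) - c = (x - c) + d * i := by ring
    rw [this]
    exact Int.dvd_add_left (dvd_mul_right _ _)
  have hex : ∀ K : ℝ, 0 < K → ∃ L : ℝ, Tendsto (fun T : ℝ =>
      ((Pt (Fn l (fun x => (d : ℤ) ∣ x - c) (RegJ l j K)) T (T ^ 2)).ncard : ℝ) / (T * T ^ 2))
        atTop (𝓝 L) ∧ Tendsto (fun W : ℕ => ∑ r ∈ range (W !) ×ˢ range (W !),
        (volume (Gn l (fun x => (d : ℤ) ∣ x - c) (RegJ l j K) W r.1 r.2)).toReal /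
          ((W ! : ℕ) : ℝ) ^ 2) atTop (𝓝 L) := by
    intro K hK
    exact lim_pairs2 l hl0 _ d hd0 hP (RegJ l j K) (fun v w z => lv_nice _ hlr _ _ _) K hK
      (fun v w z => lv_sub _ _ _ _)
  -- the comparison of one class
  have hAc : ∀ W : ℕ, d ≤ W → ∀ x u : ℤ,
      (Nat.Coprime (Int.gcd x (W ! : ℤ)) (Int.gcd u (W ! : ℤ)) ∧ (d : ℤ) ∣ x - c) ↔
        Ac c d (W !) x u := by
    intro W hW x u
    unfold Ac
    rw [Nat.gcd_eq_right (Nat.dvd_factorial hd0 hW)]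
  have hph : ∀ (W : ℕ) (s : ℝ) (x u : ℤ), ph l c d (Es ((j : ℝ) * s)) (Es s) (W !) x u =
      if Ac c d (W !) x u then (ew (pw (Int.gcd x (W ! : ℤ))) ^ j *
        (ew (pw (Int.gcd u (W ! : ℤ))) * ew (pw (Int.gcd (fl l (x, u)) (W ! : ℤ))))) ^ s else 0 := by
    intro W s x u
    unfold ph Es
    split_ifs
    · rw [weight_rpow]
    · rfl
  have hm1 : ∀ v w z : ℕ, 1 ≤ ew (pw v) ^ j * (ew (pw w) * ew (pw z)) := by
    intro v w z
    have h1 := one_le_ew (pw_pos v).ne'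
    have h2 := one_le_ew (pw_pos w).ne'
    have h3 := one_le_ew (pw_pos z).ne'
    have h4 : 1 ≤ ew (pw v) ^ j := one_le_pow₀ h1
    exact one_le_mul_of_one_le_of_one_le h4 (one_le_mul_of_one_le_of_one_le h2 h3)
  have lower : ∀ K M : ℝ, 0 < K → 1 ≤ M → ∀ L : ℝ, Tendsto (fun W : ℕ =>
      ∑ r ∈ range (W !) ×ˢ range (W !),
        (volume (Gn l (fun x => (d : ℤ) ∣ x - c) (RegJ l j K) W r.1 r.2)).toReal /
          ((W ! : ℕ) : ℝ) ^ 2) atTop (𝓝 L) →
      (volume (Lv l j (K / M) 1)).toReal * (S - M ^ (-(1 / 8) : ℝ) * S') ≤ L := by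
    intro K M hK hM L hL
    have hM0 : 0 < M := by linarith
    set Vk : ℝ := (volume (Lv (l : ℝ) j (K / M) 1)).toReal with hVk
    have hVk0 : 0 ≤ Vk := ENNReal.toReal_nonneg
    have h1 := ((eu1.sub (ev1.const_mul (M ^ (-(1 / 8) : ℝ))))).const_mul Vk
    refine le_of_tendsto_of_tendsto h1 hL ?_
    filter_upwards [eventually_ge_atTop d] with W hW
    have gen : ∀ V A B m q : ℝ, V * (A / q - m * (B / q)) = (V * (A - m * B)) / q := by
      intros
      ring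
    unfold hh
    rw [← Finset.sum_div, gen]
    refine div_le_div_of_nonneg_right ?_ (by positivity)
    rw [mul_sum, ← sum_sub_distrib, mul_sum]
    refine sum_le_sum (fun r _ => ?_)
    rw [hph, hph]
    unfold Gn
    simp only [hAc W hW]
    split_ifs with hc
    · have hm := hm1 (Int.gcd (r.1 : ℤ) (W ! : ℤ)) (Int.gcd (r.2 : ℤ) (W ! : ℤ))
        (Int.gcd (fl l ((r.1 : ℤ), (r.2 : ℤ))) (W ! : ℤ))
      unfold RegJ
      set m := ew (pw (Int.gcd (r.1 : ℤ) (W ! : ℤ))) ^ j * (ew (pw (Int.gcd (r.2 : ℤ) (W ! : ℤ))) *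
        ew (pw (Int.gcd (fl l ((r.1 : ℤ), (r.2 : ℤ))) (W ! : ℤ)))) with hmd
      have hm0 : 0 < m := by linarith
      rcases le_total m M with hle | hle
      · have h2 := lv_lower (l : ℝ) hlr j K (K / M) hm (by positivity) (by
          rw [div_mul_eq_mul_div, div_le_iff₀ hM0]
          exact mul_le_mul_of_nonneg_left hle hK.le)
        have h3 : 0 ≤ M ^ (-(1 / 8) : ℝ) * m ^ σ' := by positivity
        calc Vk * (m ^ σ - M ^ (-(1 / 8) : ℝ) * m ^ σ') ≤ Vk * m ^ σ :=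
              mul_le_mul_of_nonneg_left (by linarith) hVk0
          _ = m ^ σ * Vk := by ring
          _ ≤ _ := h2
      · have h3 : m ^ σ ≤ M ^ (-(1 / 8) : ℝ) * m ^ σ' := by
          rw [hσ', Real.rpow_add hm0, Real.rpow_neg hM0.le]
          have h4 : M ^ (1 / 8 : ℝ) ≤ m ^ (1 / 8 : ℝ) := Real.rpow_le_rpow hM0.le hle (by norm_num)
          have h5 : 0 < M ^ (1 / 8 : ℝ) := by positivity
          have h6 : 0 < m ^ σ := by positivity
          rw [← div_eq_inv_mul, le_div_iff₀ h5]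
          exact mul_le_mul_of_nonneg_left h4 h6.le
        have h7 : Vk * (m ^ σ - M ^ (-(1 / 8) : ℝ) * m ^ σ') ≤ 0 :=
          mul_nonpos_of_nonneg_of_nonpos hVk0 (by linarith)
        exact h7.trans ENNReal.toReal_nonneg
    · simp
  -- finiteness of the area
  have hfin : volume (Lev (l : ℝ) j 1) ≠ ⊤ := by
    have h1 : ∀ᶠ K : ℝ in atTop, volume (Lv (l : ℝ) j K 1) ≤ ENNReal.ofReal (2 * B / S) := by
      have h2 : ∀ᶠ K : ℝ in atTop, K ^ (-(1 / 8) : ℝ) ≤ S / (2 * (|S'| + 1)) :=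
        (tendsto_rpow_neg_atTop (by norm_num)).eventually_le_const (by positivity)
      filter_upwards [h2, eventually_ge_atTop 1] with K hK hK1
      have hK0 : 0 < K := by linarith
      obtain ⟨L, hL1, hL2⟩ := hex (K * K) (by positivity)
      have h3 := lower (K * K) K (by positivity) hK1 L hL2
      have h4 := hbound (K * K) (by nlinarith) L hL1
      rw [mul_div_assoc, div_self hK0.ne', mul_one] at h3
      have h5 : K ^ (-(1 / 8) : ℝ) * S' ≤ S / 2 := by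
        have h6 : 0 ≤ K ^ (-(1 / 8) : ℝ) := by positivity
        have h7 : S' ≤ |S'| + 1 := by linarith [le_abs_self S']
        calc K ^ (-(1 / 8) : ℝ) * S' ≤ K ^ (-(1 / 8) : ℝ) * (|S'| + 1) := by gcongr
          _ ≤ S / (2 * (|S'| + 1)) * (|S'| + 1) := by gcongr
          _ = S / 2 := by
              have : |S'| + 1 ≠ 0 := by positivity
              field_simp
      have h8 : (volume (Lv (l : ℝ) j K 1)).toReal * (S / 2) ≤ B := by
        have h9 : 0 ≤ (volume (Lv (l : ℝ) j K 1)).toReal := ENNReal.toReal_nonneg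
        calc (volume (Lv (l : ℝ) j K 1)).toReal * (S / 2) ≤
            (volume (Lv (l : ℝ) j K 1)).toReal * (S - K ^ (-(1 / 8) : ℝ) * S') :=
              mul_le_mul_of_nonneg_left (by linarith) h9
          _ ≤ L := h3
          _ ≤ B := h4
      have h10 : (volume (Lv (l : ℝ) j K 1)).toReal ≤ 2 * B / S := by
        rw [le_div_iff₀ eu3]
        linarith
      have hne : volume (Lv (l : ℝ) j K 1) ≠ ⊤ := ((lv_nice (l : ℝ) hlr j K 1).bdd.measure_lt_top).ne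
      rw [← ENNReal.ofReal_toReal hne]
      exact ENNReal.ofReal_le_ofReal h10
    have h2 := le_of_tendsto (lv_lim (l : ℝ) j) h1
    exact (h2.trans_lt ENNReal.ofReal_lt_top).ne
  refine ⟨hfin, ?_⟩
  have upper : ∀ K : ℝ, 0 < K → ∀ L : ℝ, Tendsto (fun W : ℕ =>
      ∑ r ∈ range (W !) ×ˢ range (W !),
        (volume (Gn l (fun x => (d : ℤ) ∣ x - c) (RegJ l j K) W r.1 r.2)).toReal /
          ((W ! : ℕ) : ℝ) ^ 2) atTop (𝓝 L) → L ≤ (volume (Lev (l : ℝ) j 1)).toReal * S := by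
    intro K hK L hL
    have h1 := eu1.const_mul (volume (Lev (l : ℝ) j 1)).toReal
    refine le_of_tendsto_of_tendsto hL h1 ?_
    filter_upwards [eventually_ge_atTop d] with W hW
    have gen : ∀ V A q : ℝ, V * (A / q) = (V * A) / q := by
      intros
      ring
    unfold hh
    rw [← Finset.sum_div, gen]
    refine div_le_div_of_nonneg_right ?_ (by positivity)
    rw [mul_sum]
    refine sum_le_sum (fun r _ => ?_)
    rw [hph]
    unfold Gn
    simp only [hAc W hW]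
    split_ifs with hc
    · have hm := hm1 (Int.gcd (r.1 : ℤ) (W ! : ℤ)) (Int.gcd (r.2 : ℤ) (W ! : ℤ))
        (Int.gcd (fl l ((r.1 : ℤ), (r.2 : ℤ))) (W ! : ℤ))
      unfold RegJ
      refine (lv_upper (l : ℝ) j K hm hfin).trans (le_of_eq ?_)
      rw [mul_comm]
    · simp
  choose! κ hκ using hex
  refine ⟨κ, fun K hK => (hκ K hK).1, ?_⟩
  have hlow : Tendsto (fun K : ℝ => (volume (Lv (l : ℝ) j (√K) 1)).toReal *
      (S - (√K) ^ (-(1 / 8) : ℝ) * S')) atTop (𝓝 ((volume (Lev (l : ℝ) j 1)).toReal * S)) := by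
    have h1 : Tendsto (fun K : ℝ => (volume (Lv (l : ℝ) j (√K) 1)).toReal) atTop
        (𝓝 (volume (Lev (l : ℝ) j 1)).toReal) :=
      (ENNReal.tendsto_toReal hfin).comp ((lv_lim (l : ℝ) j).comp Real.tendsto_sqrt_atTop)
    have h2 : Tendsto (fun K : ℝ => (√K) ^ (-(1 / 8) : ℝ)) atTop (𝓝 0) :=
      (tendsto_rpow_neg_atTop (by norm_num)).comp Real.tendsto_sqrt_atTop
    have h3 := h1.mul ((h2.mul_const S').const_sub S)
    rw [zero_mul, sub_zero] at h3
    exact h3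
  refine tendsto_of_tendsto_of_tendsto_of_le_of_le' hlow tendsto_const_nhds ?_ ?_
  · filter_upwards [eventually_ge_atTop 1] with K hK
    have hK0 : 0 < K := by linarith
    have h1 := lower K (√K) hK0 (Real.one_le_sqrt.2 hK) (κ K) (hκ K hK0).2
    rw [Real.div_sqrt] at h1
    exact h1
  · filter_upwards [eventually_gt_atTop 0] with K hK
    exact upper K hK (κ K) (hκ K hK).2

end Pool.Agent.T2h82.As
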