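import Pool.Agent.T2h82.As.Reg
import Pool.Agent.T2h82.Count

/-!
# Curves and pairs: the exact correspondence
-/

set_option autoImplicit false

namespace Pool.Agent.T2h82.As

open Finset Filter Topology
open Pool.Agent.H328R2.ABC (rad rad_pos)
open Pool.Agent.T2h82

/-- the curve of the first kind -/
theorem curve1 (a n : ℤ) (ha : a % 4 = 1) (hn : n ≠ 0) (hf : ff (a, n) ≠ 0) (hc : IsCoprime a n) :
    ∃ W : WeierstrassCurve ℤ, W.Δ ≠ 0 ∧ IsCoprime W.c₄ W.Δ ∧ Two W ∧ (W.c₄, W.c₆) = g1 (a, n) ∧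
      W.Δ = n ^ 2 * ff (a, n) := by
  obtain ⟨m, hm⟩ : ∃ m : ℤ, a = 4 * m + 1 := ⟨a / 4, by omega⟩
  have h4 : (⟨1, m, 0, n, 0⟩ : WeierstrassCurve ℤ).c₄ = a ^ 2 - 48 * n := by
    simp only [WeierstrassCurve.c₄, WeierstrassCurve.b₂, WeierstrassCurve.b₄]
    rw [hm]
    ring
  have h6 : (⟨1, m, 0, n, 0⟩ : WeierstrassCurve ℤ).c₆ = a * (72 * n - a ^ 2) := by
    simp only [WeierstrassCurve.c₆, WeierstrassCurve.b₂, WeierstrassCurve.b₄, WeierstrassCurve.b₆]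
    rw [hm]
    ring
  have hD : (⟨1, m, 0, n, 0⟩ : WeierstrassCurve ℤ).Δ = n ^ 2 * ff (a, n) := by
    simp only [WeierstrassCurve.Δ, WeierstrassCurve.b₂, WeierstrassCurve.b₄, WeierstrassCurve.b₆,
      WeierstrassCurve.b₈, ff]
    rw [hm]
    ring
  have hodd : IsCoprime a 2 := ⟨1, -(2 * m), by rw [hm]; ring⟩
  have hcop : IsCoprime (a ^ 2 - 48 * n) (n ^ 2 * ff (a, n)) := by
    have k1 : IsCoprime (a ^ 2 - 48 * n) n := by
      obtain ⟨u, v, huv⟩ := (hc.pow_left (m := 2))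
      exact ⟨u, v + 48 * u, by linear_combination huv⟩
    have k2 : IsCoprime (a ^ 2 - 48 * n) (ff (a, n)) := by
      have k3 : IsCoprime (a ^ 2 - 48 * n) (16 * n) := by
        refine IsCoprime.mul_right ?_ k1
        have k4 : IsCoprime (a ^ 2 - 48 * n) 2 := by
          obtain ⟨u, v, huv⟩ := (hodd.pow_left (m := 2))
          exact ⟨u, v + 24 * n * u, by linear_combination huv⟩
        have k5 : (16 : ℤ) = 2 ^ 4 := by norm_num
        rw [k5]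
        exact k4.pow_right
      obtain ⟨u, v, huv⟩ := k3
      refine ⟨u + v, -v, ?_⟩
      unfold ff
      linear_combination huv
    exact (k1.pow_right).mul_right k2
  refine ⟨⟨1, m, 0, n, 0⟩, ?_, ?_, ⟨0, ?_⟩, ?_, hD⟩
  · rw [hD]
    exact mul_ne_zero (pow_ne_zero _ hn) hf
  · rw [h4, hD]
    exact hcop
  · simp [WeierstrassCurve.b₆]
  · rw [h4, h6]
    rfl

/-- the curve of the second kind -/
theorem curve2 (a n : ℤ) (ha : a % 4 = 3) (hn : n ≠ 0) (hf : ff (a, n) ≠ 0) (hc : IsCoprime a n) :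
    ∃ W : WeierstrassCurve ℤ, W.Δ ≠ 0 ∧ IsCoprime W.c₄ W.Δ ∧ Two W ∧ (W.c₄, W.c₆) = g2 (a, n) ∧
      W.Δ = n * ff (a, n) ^ 2 := by
  obtain ⟨m, hm⟩ : ∃ m : ℤ, a = -(4 * m + 1) := ⟨-(a + 1) / 4, by omega⟩
  have h4 : (⟨1, m, 0, -4 * n, a * n⟩ : WeierstrassCurve ℤ).c₄ = a ^ 2 + 192 * n := by
    simp only [WeierstrassCurve.c₄, WeierstrassCurve.b₂, WeierstrassCurve.b₄]
    rw [hm]
    ring
  have h6 : (⟨1, m, 0, -4 * n, a * n⟩ : WeierstrassCurve ℤ).c₆ = a * (a ^ 2 - 576 * n) := by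
    simp only [WeierstrassCurve.c₆, WeierstrassCurve.b₂, WeierstrassCurve.b₄, WeierstrassCurve.b₆]
    rw [hm]
    ring
  have hD : (⟨1, m, 0, -4 * n, a * n⟩ : WeierstrassCurve ℤ).Δ = n * ff (a, n) ^ 2 := by
    simp only [WeierstrassCurve.Δ, WeierstrassCurve.b₂, WeierstrassCurve.b₄, WeierstrassCurve.b₆,
      WeierstrassCurve.b₈, ff]
    rw [hm]
    ring
  have hodd : IsCoprime a 2 := ⟨-1, -(2 * m), by rw [hm]; ring⟩
  have hcop : IsCoprime (a ^ 2 + 192 * n) (n * ff (a, n) ^ 2) := by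
    have k1 : IsCoprime (a ^ 2 + 192 * n) n := by
      obtain ⟨u, v, huv⟩ := (hc.pow_left (m := 2))
      exact ⟨u, v - 192 * u, by linear_combination huv⟩
    have k2 : IsCoprime (a ^ 2 + 192 * n) (ff (a, n)) := by
      have k3 : IsCoprime (a ^ 2 + 192 * n) (256 * n) := by
        refine IsCoprime.mul_right ?_ k1
        have k4 : IsCoprime (a ^ 2 + 192 * n) 2 := by
          obtain ⟨u, v, huv⟩ := (hodd.pow_left (m := 2))
          exact ⟨u, v - 96 * n * u, by linear_combination huv⟩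
        have k5 : (256 : ℤ) = 2 ^ 8 := by norm_num
        rw [k5]
        exact k4.pow_right
      obtain ⟨u, v, huv⟩ := k3
      refine ⟨u + v, -v, ?_⟩
      unfold ff
      linear_combination huv
    exact k1.mul_right k2.pow_right
  refine ⟨⟨1, m, 0, -4 * n, a * n⟩, ?_, ?_, ⟨(a : ℚ) / 4, ?_⟩, ?_, hD⟩
  · rw [hD]
    exact mul_ne_zero hn (pow_ne_zero _ hf)
  · rw [h4, hD]
    exact hcop
  · simp only [WeierstrassCurve.b₂, WeierstrassCurve.b₄, WeierstrassCurve.b₆]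
    rw [hm]
    push_cast
    ring
  · rw [h4, h6]
    rfl

/-- the invariants determine the class of `a` modulo 4 -/
theorem c6_mod (W : WeierstrassCurve ℤ) (h : ¬ (2 : ℤ) ∣ W.c₄) : W.c₆ % 4 = 3 := by
  have h1 : Odd W.a₁ := by
    rw [← Int.not_even_iff_odd]
    rintro ⟨k, hk⟩
    apply h
    refine ⟨8 * k ^ 4 + 32 * k ^ 2 * W.a₂ * 1 - 16 * k ^ 2 * W.a₂ + 8 * W.a₂ ^ 2 - 12 * W.b₄, ?_⟩
    unfold WeierstrassCurve.c₄ WeierstrassCurve.b₂
    rw [hk]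
    ring
  obtain ⟨k, hk⟩ := h1
  have h2 : W.b₂ = 4 * (k ^ 2 + k + W.a₂) + 1 := by
    unfold WeierstrassCurve.b₂
    rw [hk]
    ring
  set e := k ^ 2 + k + W.a₂
  have h3 : W.c₆ = -1 + 4 * (-(16 * e ^ 3 + 12 * e ^ 2 + 3 * e) + 9 * W.b₂ * W.b₄ - 54 * W.b₆) := by
    unfold WeierstrassCurve.c₆
    rw [h2]
    ring
  omega

/-- all integral curves considered come from pairs in the right classes -/
theorem exists_pair' (W : WeierstrassCurve ℤ) (hΔ : W.Δ ≠ 0) (hc : IsCoprime W.c₄ W.Δ)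
    (h : Two W) : ∃ q : ℤ × ℤ, q.2 ≠ 0 ∧ ff q ≠ 0 ∧ IsCoprime q.1 q.2 ∧
      ((q.1 % 4 = 1 ∧ (W.c₄, W.c₆) = g1 q ∧ W.Δ = q.2 ^ 2 * ff q) ∨
      (q.1 % 4 = 3 ∧ (W.c₄, W.c₆) = g2 q ∧ W.Δ = q.2 * ff q ^ 2)) := by
  obtain ⟨t, A, B, ht, -⟩ := inv_AB W h
  have hodd := c4_odd W hc ht
  have h6 := c6_mod W hodd
  obtain ⟨q, h1, h2, h3, h4, h5⟩ := exists_pair W hΔ hc h
  refine ⟨q, h2, h3, h4, ?_⟩
  obtain ⟨k, hk⟩ := h1
  have hsq : ∃ e : ℤ, q.1 ^ 2 = 8 * e + 1 := by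
    obtain ⟨j, hj⟩ := Int.even_mul_succ_self k
    refine ⟨j, ?_⟩
    rw [hk]
    linear_combination 4 * hj
  obtain ⟨e, he⟩ := hsq
  rcases h5 with ⟨e4, e6, eD⟩ | ⟨e4, e6, eD⟩
  · left
    refine ⟨?_, by rw [e4, e6]; rfl, eD⟩
    have h7 : W.c₆ = 4 * (q.1 * (18 * q.2 - 2 * e)) - q.1 := by
      rw [e6, he]
      ring
    omega
  · right
    refine ⟨?_, by rw [e4, e6]; rfl, eD⟩
    have h7 : W.c₆ = 4 * (q.1 * (2 * e - 144 * q.2)) + q.1 := by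
      rw [e6, he]
      ring
    omega

/-- two pairs with the same curve: the first kind -/
theorem root1 (q : ℤ × ℤ) : q.1 ^ 3 - 3 * (g1 q).1 * q.1 - 2 * (g1 q).2 = 0 := by
  unfold g1
  ring

theorem root2 (q : ℤ × ℤ) : (2 * q.1) ^ 3 - 3 * (g2 q).1 * (2 * q.1) - 2 * (g2 q).2 = 0 := by
  unfold g2
  ring

theorem two_roots {c4 c6 A A' : ℤ} (h : A ^ 3 - 3 * c4 * A - 2 * c6 = 0)
    (h' : A' ^ 3 - 3 * c4 * A' - 2 * c6 = 0) (hne : A ≠ A') :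
    (A + 2 * A') ^ 2 = 12 * c4 - 3 * A ^ 2 := by
  have h1 : (A - A') * (A ^ 2 + A * A' + A' ^ 2 - 3 * c4) = 0 := by linear_combination h - h'
  rcases mul_eq_zero.1 h1 with h2 | h2
  · exact absurd (by omega) hne
  · linear_combination 4 * h2

theorem sq1 (q : ℤ × ℤ) (A' : ℤ) (h : A' ^ 3 - 3 * (g1 q).1 * A' - 2 * (g1 q).2 = 0)
    (hne : q.1 ≠ A') : IsSquare (ff q) := by
  have h1 := two_roots (root1 q) h hne
  have h2 : (q.1 + 2 * A') ^ 2 = 3 ^ 2 * ff q := by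
    rw [h1]
    unfold g1 ff
    ring
  have h3 : (3 : ℤ) ∣ q.1 + 2 * A' := by
    have : (3 : ℤ) ^ 2 ∣ (q.1 + 2 * A') ^ 2 := ⟨ff q, h2⟩
    exact (Int.pow_dvd_pow_iff (by norm_num)).1 this
  obtain ⟨b, hb⟩ := h3
  refine ⟨b, ?_⟩
  rw [hb] at h2
  nlinarith

theorem sq2 (q : ℤ × ℤ) (A' : ℤ) (h : A' ^ 3 - 3 * (g2 q).1 * A' - 2 * (g2 q).2 = 0)
    (hne : 2 * q.1 ≠ A') : IsSquare q.2 := by
  have h1 := two_roots (root2 q) h hne
  have h2 : (2 * q.1 + 2 * A') ^ 2 = 48 ^ 2 * q.2 := by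
    rw [h1]
    unfold g2
    ring
  have h3 : (48 : ℤ) ∣ 2 * q.1 + 2 * A' := by
    have : (48 : ℤ) ^ 2 ∣ (2 * q.1 + 2 * A') ^ 2 := ⟨q.2, h2⟩
    exact (Int.pow_dvd_pow_iff (by norm_num)).1 this
  obtain ⟨b, hb⟩ := h3
  refine ⟨b, ?_⟩
  rw [hb] at h2
  nlinarith

theorem g1_inj {q q' : ℤ × ℤ} (h : g1 q = g1 q') (hs : ¬ IsSquare (ff q)) : q = q' := by
  have h1 := root1 q'
  rw [← h] at h1
  by_cases hne : q.1 = q'.1
  · have h2 : (g1 q).1 = (g1 q').1 := by rw [h]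
    unfold g1 at h2
    simp only at h2
    rw [hne] at h2
    exact Prod.ext hne (by omega)
  · exact absurd (sq1 q q'.1 h1 hne) hs

theorem g2_inj {q q' : ℤ × ℤ} (h : g2 q = g2 q') (hs : ¬ IsSquare q.2) : q = q' := by
  have h1 := root2 q'
  rw [← h] at h1
  by_cases hne : 2 * q.1 = 2 * q'.1
  · have h2 : (g2 q).1 = (g2 q').1 := by rw [h]
    have h3 : q.1 = q'.1 := by omega
    unfold g2 at h2
    simp only at h2
    rw [h3] at h2
    exact Prod.ext h3 (by omega)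
  · exact absurd (sq2 q (2 * q'.1) h1 hne) hs

theorem g12_ne {q q' : ℤ × ℤ} (h : g1 q = g2 q') (hq : q.1 % 4 = 1) : IsSquare (ff q) := by
  have h1 := root2 q'
  rw [← h] at h1
  exact sq1 q _ h1 (by omega)

/-- the conductor -/
theorem cond_eq {W : WeierstrassCurve ℤ} {q : ℤ × ℤ} (hn : q.2 ≠ 0) (hf : ff q ≠ 0)
    (hcop : Nat.Coprime q.2.natAbs (ff q).natAbs)
    (h : W.Δ = q.2 ^ 2 * ff q ∨ W.Δ = q.2 * ff q ^ 2) :
    (cond W : ℝ) = (rad q.2.natAbs : ℝ) * rad (ff q).natAbs := by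
  unfold cond
  rcases h with h | h
  · rw [h, Int.natAbs_mul, Int.natAbs_pow]
    have := rad_mul_pow (m := q.2.natAbs) (n := (ff q).natAbs) (by omega) (by omega) 2 1
      (by norm_num) (by norm_num) hcop
    rw [pow_one] at this
    rw [this]
    push_cast
    rfl
  · rw [h, Int.natAbs_mul, Int.natAbs_pow]
    have := rad_mul_pow (m := q.2.natAbs) (n := (ff q).natAbs) (by omega) (by omega) 1 2
      (by norm_num) (by norm_num) hcop
    rw [pow_one] at this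
    rw [this]
    push_cast
    rfl

theorem law_iff {r m N F s t : ℝ} (hm : 0 < m) (hN : 0 < N) (hF : 0 < F)
    (h : r * m = N * F) : s * (N ^ 2 * F) ^ 2 ≤ t * r ^ 3 ↔ (s * m ^ 3) * N ≤ t * F := by
  have e1 : (s * (N ^ 2 * F) ^ 2) * m ^ 3 = ((s * m ^ 3) * N) * (N ^ 3 * F ^ 2) := by ring
  have e2 : (t * r ^ 3) * m ^ 3 = (t * F) * (N ^ 3 * F ^ 2) := by
    calc (t * r ^ 3) * m ^ 3 = t * (r * m) ^ 3 := by ring
      _ = _ := by rw [h]; ring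
  have p1 : 0 < m ^ 3 := by positivity
  have p2 : 0 < N ^ 3 * F ^ 2 := by positivity
  rw [← mul_le_mul_iff_left₀ p1, e1, e2, mul_le_mul_iff_left₀ p2]

theorem cop_nf {q : ℤ × ℤ} (ho : ¬ (2 : ℤ) ∣ q.1) (hc : IsCoprime q.1 q.2) :
    Nat.Coprime q.2.natAbs (ff q).natAbs := by
  have _ := ho
  have h1 : IsCoprime q.2 (ff q) := by
    obtain ⟨u, v, huv⟩ := (hc.pow_left (m := 2))
    refine ⟨v + 64 * u, u, ?_⟩
    unfold ff
    linear_combination huv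
  exact Int.isCoprime_iff_gcd_eq_one.1 h1

end Pool.Agent.T2h82.As
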