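import Mathlib

/-!
# Lattice points of a residue class in a region, with different scales in the two directions
-/

set_option autoImplicit false

namespace Pool.Agent.T2h82.As

open MeasureTheory Set Filter Topology
open scoped ENNReal

/-- a bounded measurable region with a negligible frontier -/
structure Nice (R : Set (ℝ × ℝ)) : Prop where
  meas : MeasurableSet R
  bdd : Bornology.IsBounded R
  fr : volume (frontier R) = 0

/-- rounding to the points of a residue class -/
noncomputable def rnd (q r a : ℝ) (x : ℝ) : ℤ := ⌊(a * x - r) / q⌋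

theorem rnd_meas (q r a : ℝ) : Measurable (rnd q r a) := by
  unfold rnd
  exact Int.measurable_floor.comp (((measurable_id.const_mul a).sub_const r).div_const q)

theorem rnd_iff {q a : ℝ} (hq : 0 < q) (ha : 0 < a) (r x : ℝ) (i : ℤ) :
    rnd q r a x = i ↔ x ∈ Ico ((r + q * i) / a) ((r + q * (i + 1)) / a) := by
  unfold rnd
  rw [Int.floor_eq_iff, le_div_iff₀ hq, div_lt_iff₀ hq, mem_Ico, div_le_iff₀ ha, lt_div_iff₀ ha]
  constructor
  · rintro ⟨h1, h2⟩
    constructor <;> linarith
  · rintro ⟨h1, h2⟩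
    constructor <;> linarith

theorem rnd_near {q a : ℝ} (hq : 0 < q) (ha : 0 < a) (r x : ℝ) :
    |(r + q * rnd q r a x) / a - x| ≤ q / a := by
  have h := (rnd_iff hq ha r x (rnd q r a x)).1 rfl
  rw [mem_Ico] at h
  obtain ⟨h1, h2⟩ := h
  have h3 : (r + q * ((rnd q r a x : ℝ) + 1)) / a = (r + q * rnd q r a x) / a + q / a := by
    rw [← add_div]
    congr 1
    ring
  rw [h3] at h2
  have : 0 < q / a := by positivity
  rw [abs_le]
  constructor <;> linarith

theorem rnd_tendsto {q : ℝ} (hq : 0 < q) (r x : ℝ) (a : ℝ → ℝ) (ha : Tendsto a atTop atTop) :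
    Tendsto (fun T => (r + q * rnd q r (a T) x) / a T) atTop (𝓝 x) := by
  have h0 : Tendsto (fun T => q / a T) atTop (𝓝 0) := ha.const_div_atTop q
  rw [tendsto_iff_dist_tendsto_zero]
  refine squeeze_zero' (Eventually.of_forall fun _ => dist_nonneg) ?_ h0
  filter_upwards [ha.eventually_gt_atTop 0] with T hT
  rw [Real.dist_eq]
  exact rnd_near hq hT r x

/-- the set of the indices -/
def Ix (R : Set (ℝ × ℝ)) (q r1 r2 a b : ℝ) : Set (ℤ × ℤ) :=
  {p | ((r1 + q * p.1) / a, (r2 + q * p.2) / b) ∈ R}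

theorem ix_finite {R : Set (ℝ × ℝ)} (hb : Bornology.IsBounded R) {q a b : ℝ} (hq : 0 < q)
    (ha : 0 < a) (hb0 : 0 < b) (r1 r2 : ℝ) : (Ix R q r1 r2 a b).Finite := by
  obtain ⟨K, hK⟩ := hb.subset_closedBall 0
  set m1 : ℤ := ⌈(K * a + |r1|) / q⌉ with hm1
  set m2 : ℤ := ⌈(K * b + |r2|) / q⌉ with hm2
  refine ((Icc (-m1) m1 ×ˢ Icc (-m2) m2 : Set (ℤ × ℤ)).toFinite).subset ?_
  intro p hp
  have h1 := hK hp
  rw [mem_closedBall_zero_iff, Prod.norm_def, max_le_iff, Real.norm_eq_abs, Real.norm_eq_abs,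
    abs_div, abs_of_pos ha, abs_div, abs_of_pos hb0, div_le_iff₀ ha, div_le_iff₀ hb0] at h1
  have key : ∀ (r K' : ℝ) (i : ℤ), |r + q * i| ≤ K' → i ∈ Icc (-⌈(K' + |r|) / q⌉) ⌈(K' + |r|) / q⌉ := by
    intro r K' i hi
    have h2 : |(i : ℝ)| ≤ (K' + |r|) / q := by
      rw [le_div_iff₀ hq]
      have : |(i : ℝ)| * q = |(r + q * i) - r| := by
        rw [add_sub_cancel_left, abs_mul, abs_of_pos hq, mul_comm]
      rw [this]
      exact (abs_sub _ _).trans (by linarith)
    have h3 := h2.trans (Int.le_ceil _)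
    rw [abs_le] at h3
    rw [mem_Icc]
    constructor
    · exact_mod_cast h3.1
    · exact_mod_cast h3.2
  exact ⟨key r1 _ _ h1.1, key r2 _ _ h1.2⟩

/-- the measure of the union of the cells -/
theorem vol_cells {R : Set (ℝ × ℝ)} (hb : Bornology.IsBounded R) {q a b : ℝ} (hq : 0 < q)
    (ha : 0 < a) (hb0 : 0 < b) (r1 r2 : ℝ) :
    volume {p : ℝ × ℝ | ((r1 + q * rnd q r1 a p.1) / a, (r2 + q * rnd q r2 b p.2) / b) ∈ R} =
      ENNReal.ofReal (((Ix R q r1 r2 a b).ncard : ℝ) * (q ^ 2 / (a * b))) := by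
  have hfin := ix_finite hb hq ha hb0 r1 r2
  set S := hfin.toFinset with hS
  set c : ℤ × ℤ → Set (ℝ × ℝ) := fun i =>
    Ico ((r1 + q * i.1) / a) ((r1 + q * (i.1 + 1)) / a) ×ˢ
      Ico ((r2 + q * i.2) / b) ((r2 + q * (i.2 + 1)) / b) with hc
  have hmem : ∀ (i : ℤ × ℤ) (p : ℝ × ℝ), p ∈ c i ↔ rnd q r1 a p.1 = i.1 ∧ rnd q r2 b p.2 = i.2 := by
    intro i p
    rw [hc, rnd_iff hq ha, rnd_iff hq hb0]
    rfl
  have hU : {p : ℝ × ℝ | ((r1 + q * rnd q r1 a p.1) / a, (r2 + q * rnd q r2 b p.2) / b) ∈ R} =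
      ⋃ i ∈ S, c i := by
    ext p
    rw [mem_iUnion₂]
    constructor
    · intro hp
      refine ⟨(rnd q r1 a p.1, rnd q r2 b p.2), ?_, (hmem _ _).2 ⟨rfl, rfl⟩⟩
      rw [hS, hfin.mem_toFinset]
      exact hp
    · rintro ⟨i, hi, hp⟩
      obtain ⟨h1, h2⟩ := (hmem _ _).1 hp
      rw [hS, hfin.mem_toFinset] at hi
      show ((r1 + q * rnd q r1 a p.1) / a, (r2 + q * rnd q r2 b p.2) / b) ∈ R
      rw [h1, h2]
      exact hi
  rw [hU, measure_biUnion_finset]
  · have hv : ∀ i ∈ S, volume (c i) = ENNReal.ofReal (q ^ 2 / (a * b)) := by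
      intro i _
      rw [hc]
      simp only
      rw [Measure.volume_eq_prod, Measure.prod_prod, Real.volume_Ico, Real.volume_Ico,
        ← ENNReal.ofReal_mul]
      · congr 1
        field_simp
        ring
      · rw [← sub_div]
        have : r1 + q * ((i.1 : ℝ) + 1) - (r1 + q * i.1) = q := by ring
        rw [this]
        positivity
    rw [Finset.sum_congr rfl hv, Finset.sum_const, nsmul_eq_mul,
      ENNReal.ofReal_mul (by positivity), Set.ncard_eq_toFinset_card _ hfin,
      ENNReal.ofReal_natCast]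
  · intro i _ j _ hij
    rw [Function.onFun, Set.disjoint_left]
    intro p h1 h2
    rw [hmem] at h1 h2
    exact hij (Prod.ext (h1.1.symm.trans h2.1) (h1.2.symm.trans h2.2))
  · intro i _
    exact measurableSet_Ico.prod measurableSet_Ico

/-- **Equidistribution of the points of a residue class.** -/
theorem equi {R : Set (ℝ × ℝ)} (hR : Nice R) {q : ℝ} (hq : 0 < q) (r1 r2 : ℝ) (a b : ℝ → ℝ)
    (ha : Tendsto a atTop atTop) (hb : Tendsto b atTop atTop) :
    Tendsto (fun T => ((Ix R q r1 r2 (a T) (b T)).ncard : ℝ) / (a T * b T)) atTop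
      (𝓝 ((volume R).toReal / q ^ 2)) := by
  obtain ⟨K, hK⟩ := hR.bdd.subset_closedBall 0
  have hlim : Tendsto (fun T => volume {p : ℝ × ℝ | ((r1 + q * rnd q r1 (a T) p.1) / a T,
      (r2 + q * rnd q r2 (b T) p.2) / b T) ∈ R}) atTop (𝓝 (volume R)) := by
    refine tendsto_measure_of_ae_tendsto_indicator atTop hR.meas (fun T => ?_)
      (measurableSet_closedBall (x := (0 : ℝ × ℝ)) (ε := K + q)) ?_ ?_ ?_
    · refine hR.meas.preimage (Measurable.prodMk ?_ ?_)
      · have h1 : Measurable (fun p : ℝ × ℝ => ((rnd q r1 (a T) p.1 : ℤ) : ℝ)) :=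
          (measurable_from_top (f := fun z : ℤ => (z : ℝ))).comp ((rnd_meas _ _ _).comp measurable_fst)
        exact ((h1.const_mul q).const_add r1).div_const _
      · have h1 : Measurable (fun p : ℝ × ℝ => ((rnd q r2 (b T) p.2 : ℤ) : ℝ)) :=
          (measurable_from_top (f := fun z : ℤ => (z : ℝ))).comp ((rnd_meas _ _ _).comp measurable_snd)
        exact ((h1.const_mul q).const_add r2).div_const _
    · exact (measure_closedBall_lt_top).ne
    · filter_upwards [ha.eventually_ge_atTop 1, hb.eventually_ge_atTop 1] with T h1 h2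
      intro p hp
      have h3 := hK hp
      have n1 := rnd_near hq (by linarith : 0 < a T) r1 p.1
      have n2 := rnd_near hq (by linarith : 0 < b T) r2 p.2
      have m1 : q / a T ≤ q := div_le_self hq.le h1
      have m2 : q / b T ≤ q := div_le_self hq.le h2
      rw [mem_closedBall_zero_iff, Prod.norm_def, max_le_iff, Real.norm_eq_abs,
        Real.norm_eq_abs] at h3 ⊢
      simp only at h3
      obtain ⟨k1, k2⟩ := h3
      rw [abs_le] at n1 n2 k1 k2
      constructor
      · rw [abs_le]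
        constructor <;> linarith
      · rw [abs_le]
        constructor <;> linarith
    · have hae : ∀ᵐ p : ℝ × ℝ, p ∉ frontier R := by
        rw [ae_iff]
        simpa using hR.fr
      filter_upwards [hae] with p hp
      have ht : Tendsto (fun T => ((r1 + q * rnd q r1 (a T) p.1) / a T,
          (r2 + q * rnd q r2 (b T) p.2) / b T)) atTop (𝓝 p) :=
        (rnd_tendsto hq r1 p.1 a ha).prodMk_nhds (rnd_tendsto hq r2 p.2 b hb)
      by_cases h : p ∈ R
      · have h1 : R ∈ 𝓝 p := by
          rw [mem_frontier_iff_notMem_interior h, not_not] at hp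
          exact mem_interior_iff_mem_nhds.1 hp
        filter_upwards [ht h1] with T hT
        exact ⟨fun _ => h, fun _ => hT⟩
      · have h1 : Rᶜ ∈ 𝓝 p := by
          rw [← frontier_compl, mem_frontier_iff_notMem_interior (by exact h), not_not] at hp
          exact mem_interior_iff_mem_nhds.1 hp
        filter_upwards [ht h1] with T hT
        exact ⟨fun h' => absurd h' hT, fun h' => absurd h' h⟩
  have hne : volume R ≠ ⊤ := (hR.bdd.measure_lt_top).ne
  have h2 := (ENNReal.tendsto_toReal hne).comp hlim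
  have h3 : Tendsto (fun T => ((Ix R q r1 r2 (a T) (b T)).ncard : ℝ) * (q ^ 2 / (a T * b T))) atTop
      (𝓝 (volume R).toReal) := by
    refine h2.congr' ?_
    filter_upwards [ha.eventually_gt_atTop 0, hb.eventually_gt_atTop 0] with T h1 h2
    simp only [Function.comp]
    rw [vol_cells hR.bdd hq h1 h2, ENNReal.toReal_ofReal (by positivity)]
  have h4 := h3.div_const (q ^ 2)
  refine h4.congr' ?_
  filter_upwards [ha.eventually_gt_atTop 0, hb.eventually_gt_atTop 0] with T h1 h2
  field_simp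

end Pool.Agent.T2h82.As
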