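import Pool.Agent.T2h82.As.Tr

/-!
# The number of curves and the numbers of pairs
-/

set_option autoImplicit false

namespace Pool.Agent.T2h82.As

open Finset Filter Topology
open Pool.Agent.H328R2.ABC (rad rad_pos)
open Pool.Agent.T2h82

/-- the property of the curve: `s Δ ^ 2 ≤ t N ^ 3` -/
def Pst (s t : ℝ) (W : WeierstrassCurve ℤ) : Prop := s * (W.Δ : ℝ) ^ 2 ≤ t * (cond W : ℝ) ^ 3

theorem ht_le (W : WeierstrassCurve ℤ) (q : ℤ × ℤ) (K T : ℝ) (hK : 1 ≤ K) (hT : 0 < T)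
    (hq : Bx K T q) (h : (W.c₄, W.c₆) = g1 q ∨ (W.c₄, W.c₆) = g2 q) :
    ((ht W : ℤ) : ℝ) ≤ (193 * K ^ 2) ^ 3 * T ^ 6 := by
  obtain ⟨h1, h2⟩ := hq
  set a : ℝ := (q.1 : ℝ) with ha
  set n : ℝ := (q.2 : ℝ) with hn
  have k1 : a ^ 2 ≤ K ^ 2 * T ^ 2 := by
    have := sq_le_sq' (abs_le.1 h1).1 (abs_le.1 h1).2
    rw [mul_pow] at this
    exact this
  have k2 : |n| ≤ K ^ 2 * T ^ 2 := by
    refine h2.trans ?_
    have : K ≤ K ^ 2 := le_self_pow₀ hK (by norm_num)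
    gcongr
  set H : ℝ := K ^ 2 * T ^ 2 with hH
  have hH0 : 0 < H := by positivity
  have hna := abs_le.1 k2
  have ha0 : 0 ≤ a ^ 2 := sq_nonneg a
  have htle : |(W.c₄ : ℝ)| ≤ 193 * H → (W.c₆ : ℝ) ^ 2 ≤ (193 * H) ^ 3 →
      ((ht W : ℤ) : ℝ) ≤ (193 * K ^ 2) ^ 3 * T ^ 6 := by
    intro e1 e2
    have e3 : (193 * K ^ 2) ^ 3 * T ^ 6 = (193 * H) ^ 3 := by
      rw [hH]
      ring
    rw [e3]
    unfold ht
    push_cast
    refine max_le ?_ e2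
    exact pow_le_pow_left₀ (abs_nonneg _) e1 3
  rcases h with h | h
  · have e4' : (W.c₄ : ℝ) = a ^ 2 - 48 * n := by
      have : W.c₄ = q.1 ^ 2 - 48 * q.2 := congrArg Prod.fst h
      rw [this]; push_cast; ring
    have e6' : (W.c₆ : ℝ) = a * (72 * n - a ^ 2) := by
      have : W.c₆ = q.1 * (72 * q.2 - q.1 ^ 2) := congrArg Prod.snd h
      rw [this]; push_cast; ring
    refine htle ?_ ?_
    · rw [e4', abs_le]
      constructor <;> linarith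
    · have h1 : |72 * n - a ^ 2| ≤ 577 * H := by
        rw [abs_le]
        constructor <;> linarith
      have h2 : (72 * n - a ^ 2) ^ 2 ≤ (577 * H) ^ 2 := sq_le_sq' (abs_le.1 h1).1 (abs_le.1 h1).2
      rw [e6', mul_pow]
      calc a ^ 2 * (72 * n - a ^ 2) ^ 2 ≤ H * (577 * H) ^ 2 := by gcongr
        _ = 332929 * H ^ 3 := by ring
        _ ≤ 7189057 * H ^ 3 := by
            have : 0 ≤ H ^ 3 := by positivity
            linarith
        _ = _ := by ring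
  · have e4' : (W.c₄ : ℝ) = a ^ 2 + 192 * n := by
      have : W.c₄ = q.1 ^ 2 + 192 * q.2 := congrArg Prod.fst h
      rw [this]; push_cast; ring
    have e6' : (W.c₆ : ℝ) = a * (a ^ 2 - 576 * n) := by
      have : W.c₆ = q.1 * (q.1 ^ 2 - 576 * q.2) := congrArg Prod.snd h
      rw [this]; push_cast; ring
    refine htle ?_ ?_
    · rw [e4', abs_le]
      constructor <;> linarith
    · have h1 : |a ^ 2 - 576 * n| ≤ 577 * H := by
        rw [abs_le]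
        constructor <;> linarith
      have h2 : (a ^ 2 - 576 * n) ^ 2 ≤ (577 * H) ^ 2 := sq_le_sq' (abs_le.1 h1).1 (abs_le.1 h1).2
      rw [e6', mul_pow]
      calc a ^ 2 * (a ^ 2 - 576 * n) ^ 2 ≤ H * (577 * H) ^ 2 := by gcongr
        _ = 332929 * H ^ 3 := by ring
        _ ≤ 7189057 * H ^ 3 := by
            have : 0 ≤ H ^ 3 := by positivity
            linarith
        _ = _ := by ring

theorem bd_of (W : WeierstrassCurve ℤ) (q : ℤ × ℤ) (Y : ℝ) (hY : 0 ≤ Y)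
    (hht : ((ht W : ℤ) : ℝ) ≤ Y ^ 3) (h : (W.c₄, W.c₆) = g1 q ∨ (W.c₄, W.c₆) = g2 q) :
    (q.2.natAbs : ℝ) ≤ Y ∧ ((ff q).natAbs : ℝ) ≤ 11 * Y := by
  have e1 : |W.c₄| ^ 3 ≤ ht W := le_max_left _ _
  have e2 : W.c₆ ^ 2 ≤ ht W := le_max_right _ _
  have e1' : ((|W.c₄| ^ 3 : ℤ) : ℝ) ≤ ((ht W : ℤ) : ℝ) := by exact_mod_cast e1
  have e2' : ((W.c₆ ^ 2 : ℤ) : ℝ) ≤ ((ht W : ℤ) : ℝ) := by exact_mod_cast e2
  push_cast at e1' e2'
  have k4 : |(W.c₄ : ℝ)| ≤ Y := le_of_pow_le_pow_left₀ (n := 3) (by norm_num) hY (e1'.trans hht)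
  have k6 : (W.c₆ : ℝ) ^ 2 ≤ Y ^ 3 := e2'.trans hht
  have hff : ((ff q : ℤ) : ℝ) = (q.1 : ℝ) ^ 2 - 64 * q.2 := by
    unfold ff
    push_cast
    ring
  have hnabs : (q.2.natAbs : ℝ) = |(q.2 : ℝ)| := by
    rw [Nat.cast_natAbs]
    push_cast
    rfl
  have hfabs : ((ff q).natAbs : ℝ) = |(q.1 : ℝ) ^ 2 - 64 * q.2| := by
    rw [Nat.cast_natAbs]
    push_cast
    rw [hff]
  set a : ℝ := (q.1 : ℝ) with ha
  set n : ℝ := (q.2 : ℝ) with hn
  have ha0 : 0 ≤ a ^ 2 := sq_nonneg a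
  rcases h with h | h
  · have e4' : (W.c₄ : ℝ) = a ^ 2 - 48 * n := by
      have : W.c₄ = q.1 ^ 2 - 48 * q.2 := congrArg Prod.fst h
      rw [this]; push_cast; ring
    have e6' : (W.c₆ : ℝ) = a * (72 * n - a ^ 2) := by
      have : W.c₆ = q.1 * (72 * q.2 - q.1 ^ 2) := congrArg Prod.snd h
      rw [this]; push_cast; ring
    have hsq := sq_bound (A := a) hY k4 k6 (by rw [e4', e6']; ring)
    rw [e4'] at k4
    have := abs_le.1 k4
    rw [hnabs, hfabs]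
    constructor
    · rw [abs_le]
      constructor <;> linarith
    · rw [abs_le]
      constructor <;> linarith
  · have e4' : (W.c₄ : ℝ) = a ^ 2 + 192 * n := by
      have : W.c₄ = q.1 ^ 2 + 192 * q.2 := congrArg Prod.fst h
      rw [this]; push_cast; ring
    have e6' : (W.c₆ : ℝ) = a * (a ^ 2 - 576 * n) := by
      have : W.c₆ = q.1 * (q.1 ^ 2 - 576 * q.2) := congrArg Prod.snd h
      rw [this]; push_cast; ring
    have hsq := sq_bound (A := 2 * a) hY k4 k6 (by rw [e4', e6']; ring)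
    rw [e4'] at k4
    have := abs_le.1 k4
    rw [hnabs, hfabs]
    have hsq' : a ^ 2 ≤ Y := by
      have : (2 * a) ^ 2 = 4 * a ^ 2 := by ring
      linarith
    constructor
    · rw [abs_le]
      constructor <;> linarith
    · rw [abs_le]
      constructor <;> linarith

/-- the sizes attached to a pair -/
theorem sizes {q : ℤ × ℤ} (hn : q.2 ≠ 0) (hf : ff q ≠ 0) :
    (rad q.2.natAbs * rad (ff q).natAbs : ℝ) * (ew (pw q.2.natAbs) * ew (pw (ff q).natAbs)) =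
      |(q.2 : ℝ)| * |((ff q : ℤ) : ℝ)| := by
  have h1 := rad_ew (n := q.2.natAbs) (by omega)
  have h2 := rad_ew (n := (ff q).natAbs) (by omega)
  have h3 : (q.2.natAbs : ℝ) = |(q.2 : ℝ)| := by rw [Nat.cast_natAbs]; push_cast; rfl
  have h4 : ((ff q).natAbs : ℝ) = |((ff q : ℤ) : ℝ)| := by rw [Nat.cast_natAbs]; push_cast; rfl
  rw [← h3, ← h4]
  calc _ = ((rad q.2.natAbs : ℝ) * ew (pw q.2.natAbs)) *
        ((rad (ff q).natAbs : ℝ) * ew (pw (ff q).natAbs)) := by ring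
    _ = _ := by rw [h1, h2]

/-- the conditions on the curve and on the pair agree -/
theorem cond_iff {W : WeierstrassCurve ℤ} {q : ℤ × ℤ} (hn : q.2 ≠ 0) (hf : ff q ≠ 0)
    (ho : ¬ (2 : ℤ) ∣ q.1) (hc : IsCoprime q.1 q.2) (s t Y : ℝ) :
    (W.Δ = q.2 ^ 2 * ff q → (((cond W : ℝ) ≤ Y ↔ |(q.2 : ℝ)| * |((ff q : ℤ) : ℝ)| ≤
        (ew (pw q.2.natAbs) * ew (pw (ff q).natAbs)) * Y) ∧
      (Pst s t W ↔ (s * (ew (pw q.2.natAbs) * ew (pw (ff q).natAbs)) ^ 3) * |(q.2 : ℝ)| ≤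
        t * |((ff q : ℤ) : ℝ)|))) ∧
    (W.Δ = q.2 * ff q ^ 2 → (((cond W : ℝ) ≤ Y ↔ |(q.2 : ℝ)| * |((ff q : ℤ) : ℝ)| ≤
        (ew (pw q.2.natAbs) * ew (pw (ff q).natAbs)) * Y) ∧
      (Pst s t W ↔ (s * (ew (pw q.2.natAbs) * ew (pw (ff q).natAbs)) ^ 3) * |((ff q : ℤ) : ℝ)| ≤
        t * |(q.2 : ℝ)|))) := by
  have hsz := sizes hn hf
  have hcop := cop_nf ho hc
  set m := ew (pw q.2.natAbs) * ew (pw (ff q).natAbs) with hm
  have hm0 : 0 < m := mul_pos (ew_pos (pw_pos _).ne') (ew_pos (pw_pos _).ne')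
  have hN : 0 < |(q.2 : ℝ)| := abs_pos.2 (by exact_mod_cast hn)
  have hF : 0 < |((ff q : ℤ) : ℝ)| := abs_pos.2 (by exact_mod_cast hf)
  set N := |(q.2 : ℝ)| with hNd
  set F := |((ff q : ℤ) : ℝ)| with hFd
  set r : ℝ := (rad q.2.natAbs : ℝ) * rad (ff q).natAbs with hr
  have hle : r ≤ Y ↔ N * F ≤ m * Y := by
    rw [← hsz, mul_comm m Y, mul_le_mul_iff_left₀ hm0]
  constructor
  · intro hD
    have hcd := cond_eq hn hf hcop (Or.inl hD)
    refine ⟨by rw [hcd]; exact hle, ?_⟩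
    unfold Pst
    rw [hcd, ← law_iff hm0 hN hF hsz]
    have e1 : (W.Δ : ℝ) ^ 2 = (N ^ 2 * F) ^ 2 := by
      rw [hD]
      push_cast
      rw [mul_pow (N ^ 2) F, hNd, hFd, sq_abs, sq_abs]
      ring
    rw [e1]
  · intro hD
    have hcd := cond_eq hn hf hcop (Or.inr hD)
    refine ⟨by rw [hcd]; exact hle, ?_⟩
    unfold Pst
    rw [hcd, ← law_iff hm0 hF hN (by rw [hsz]; ring)]
    have e1 : (W.Δ : ℝ) ^ 2 = (F ^ 2 * N) ^ 2 := by
      rw [hD]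
      push_cast
      rw [mul_pow (F ^ 2) N, hNd, hFd, sq_abs, sq_abs]
      ring
    rw [e1]

/-- the pairs give curves -/
theorem sub_cl (κ K s t : ℝ) (hκ : 3 / 2 < κ) (hK : 1 ≤ K) : ∀ᶠ T in atTop,
    g1 '' A1 K s t T ∪ g2 '' A2 K s t T ⊆ Cl κ (T ^ 4) (Pst s t) := by
  have h1 : ∀ᶠ T : ℝ in atTop, (193 * K ^ 2) ^ 3 ≤ T ^ (4 * κ - 6) :=
    (tendsto_rpow_atTop (by linarith)).eventually_ge_atTop _
  filter_upwards [h1, eventually_ge_atTop 1] with T hT hT1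
  have hT0 : 0 < T := by linarith
  have hpow : (193 * K ^ 2) ^ 3 * T ^ 6 ≤ (T ^ 4) ^ κ := by
    have e1 : (T ^ 4) ^ κ = T ^ (4 * κ - 6) * T ^ 6 := by
      rw [← Real.rpow_natCast T 4, ← Real.rpow_natCast T 6, ← Real.rpow_mul hT0.le,
        ← Real.rpow_add hT0]
      congr 1
      push_cast
      ring
    rw [e1]
    gcongr
  rintro x (⟨q, hq, rfl⟩ | ⟨q, hq, rfl⟩)
  · rw [mem_A1 hT0] at hq
    obtain ⟨⟨k1, k2, k3, k4⟩, k5, k6, k7⟩ := hq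
    obtain ⟨W, w1, w2, w3, w4, w5⟩ := curve1 q.1 q.2 k4 k1 k2 k3
    have ho : ¬ (2 : ℤ) ∣ q.1 := by omega
    obtain ⟨c1, c2⟩ := (cond_iff k1 k2 ho k3 s t (T ^ 4)).1 w5
    exact ⟨W, w1, w2, w3, c1.2 k6, (ht_le W q K T hK hT0 k5 (Or.inl w4)).trans hpow, c2.2 k7,
      w4.symm⟩
  · rw [mem_A2 hT0] at hq
    obtain ⟨⟨k1, k2, k3, k4⟩, k5, k6, k7⟩ := hq
    obtain ⟨W, w1, w2, w3, w4, w5⟩ := curve2 q.1 q.2 k4 k1 k2 k3
    have ho : ¬ (2 : ℤ) ∣ q.1 := by omega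
    obtain ⟨c1, c2⟩ := (cond_iff k1 k2 ho k3 s t (T ^ 4)).2 w5
    exact ⟨W, w1, w2, w3, c1.2 k6, (ht_le W q K T hK hT0 k5 (Or.inr w4)).trans hpow, c2.2 k7,
      w4.symm⟩

/-- all the curves come from pairs in the box or from the tail -/
theorem cl_sub (κ K s t T : ℝ) (hK : 1 ≤ K) (hT : 1 ≤ T) : Cl κ (T ^ 4) (Pst s t) ⊆
    (g1 '' A1 K s t T ∪ g2 '' A2 K s t T) ∪
    (g1 '' {q | Bd (κ / 3) (T ^ 4) q ∧ K * (T ^ 4) ^ (1 / 2 : ℝ) < HH q} ∪
      g2 '' {q | Bd (κ / 3) (T ^ 4) q ∧ K * (T ^ 4) ^ (1 / 2 : ℝ) < HH q}) := by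
  have hT0 : 0 < T := by linarith
  rintro x ⟨W, hΔ, hc, h2, hN, hh, hP, rfl⟩
  obtain ⟨q, k1, k2, k3, hor⟩ := exists_pair' W hΔ hc h2
  have ho : ¬ (2 : ℤ) ∣ q.1 := by rcases hor with h | h <;> omega
  have hodd : Odd q.1 := by rw [← Int.not_even_iff_odd, even_iff_two_dvd]; exact ho
  have hcop := cop_nf ho k3
  have hcd := cond_eq (W := W) k1 k2 hcop (by
    rcases hor with h | h
    · exact Or.inl h.2.2
    · exact Or.inr h.2.2)
  have hroot : (T ^ 4) ^ (1 / 2 : ℝ) = T ^ 2 := by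
    rw [← Real.rpow_natCast T 4, ← Real.rpow_natCast T 2, ← Real.rpow_mul hT0.le]
    norm_num
  have hbig : ¬ Bx K T q → K * (T ^ 4) ^ (1 / 2 : ℝ) < HH q := by
    intro hb
    rw [hroot]
    have e1 : ((q.1 ^ 2 : ℤ) : ℝ) ≤ ((HH q : ℤ) : ℝ) := by exact_mod_cast le_max_left _ _
    have e2 : ((|q.2| : ℤ) : ℝ) ≤ ((HH q : ℤ) : ℝ) := by exact_mod_cast le_max_right _ _
    push_cast at e1 e2
    unfold Bx at hb
    rw [not_and_or, not_le, not_le] at hb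
    rcases hb with hb | hb
    · have e3 : (K * T) ^ 2 < (q.1 : ℝ) ^ 2 := by
        rw [← sq_abs (q.1 : ℝ)]
        exact pow_lt_pow_left₀ hb (by positivity) (by norm_num)
      have e4 : K * T ^ 2 ≤ (K * T) ^ 2 := by
        have : 0 ≤ T ^ 2 := by positivity
        nlinarith
      linarith
    · linarith
  have hpow : (T ^ 4) ^ κ = ((T ^ 4) ^ (κ / 3)) ^ 3 := by
    rw [← Real.rpow_natCast ((T ^ 4) ^ (κ / 3)), ← Real.rpow_mul (by positivity)]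
    congr 1
    push_cast
    ring
  have hht : ((ht W : ℤ) : ℝ) ≤ ((T ^ 4) ^ (κ / 3)) ^ 3 := by rw [← hpow]; exact hh
  have hadm : Adm (T ^ 4) q := ⟨hodd, k1, k2, k3, by rw [← hcd]; exact hN⟩
  rcases hor with ⟨r1, r2, r3⟩ | ⟨r1, r2, r3⟩
  · by_cases hb : Bx K T q
    · left; left
      refine ⟨q, ?_, r2.symm⟩
      obtain ⟨c1, c2⟩ := (cond_iff (W := W) k1 k2 ho k3 s t (T ^ 4)).1 r3
      exact (mem_A1 hT0 q).2 ⟨⟨k1, k2, k3, r1⟩, hb, c1.1 hN, c2.1 hP⟩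
    · right; left
      obtain ⟨y1, y2⟩ := bd_of W q _ (by positivity) hht (Or.inl r2)
      exact ⟨q, ⟨⟨hadm, y1, y2⟩, hbig hb⟩, r2.symm⟩
  · by_cases hb : Bx K T q
    · left; right
      refine ⟨q, ?_, r2.symm⟩
      obtain ⟨c1, c2⟩ := (cond_iff (W := W) k1 k2 ho k3 s t (T ^ 4)).2 r3
      exact (mem_A2 hT0 q).2 ⟨⟨k1, k2, k3, r1⟩, hb, c1.1 hN, c2.1 hP⟩
    · right; right
      obtain ⟨y1, y2⟩ := bd_of W q _ (by positivity) hht (Or.inr r2)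
      exact ⟨q, ⟨⟨hadm, y1, y2⟩, hbig hb⟩, r2.symm⟩

theorem A1_finite (K s t T : ℝ) (hT : 0 < T) : (A1 K s t T).Finite :=
  (box_finite K T hT).subset (fun q hq => ((mem_A1 hT q).1 hq).2.1)

theorem A2_finite (K s t T : ℝ) (hT : 0 < T) : (A2 K s t T).Finite :=
  (box_finite K T hT).subset (fun q hq => ((mem_A2 hT q).1 hq).2.1)

/-- the lower bound for the number of the images -/
theorem image_lower (K s t T : ℝ) (hK : 1 ≤ K) (hT : 1 ≤ T) :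
    ((A1 K s t T).ncard : ℝ) + (A2 K s t T).ncard ≤
      ((g1 '' A1 K s t T ∪ g2 '' A2 K s t T).ncard : ℝ) +
        2 * ((3 * K * T) * (19 * K * T) + (3 * K * T) * (3 * K * T)) := by
  have hT0 : 0 < T := by linarith
  have hf1 := A1_finite K s t T hT0
  have hf2 := A2_finite K s t T hT0
  set Sq : Set (ℤ × ℤ) := {q : ℤ × ℤ | Bx K T q ∧ (IsSquare (ff q) ∨ IsSquare q.2)} with hSq
  have hfS : Sq.Finite := (box_finite K T hT0).subset (fun q hq => hq.1)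
  have hcard := squares_few K T hK hT
  have n1 : ∀ q ∈ A1 K s t T \ Sq, ¬ IsSquare (ff q) ∧ q.1 % 4 = 1 := by
    rintro q ⟨h1, h2⟩
    have h3 := (mem_A1 hT0 q).1 h1
    exact ⟨fun h4 => h2 ⟨h3.2.1, Or.inl h4⟩, h3.1.2.2.2⟩
  have n2 : ∀ q ∈ A2 K s t T \ Sq, ¬ IsSquare q.2 := by
    rintro q ⟨h1, h2⟩ h4
    have h3 := (mem_A2 hT0 q).1 h1
    exact h2 ⟨h3.2.1, Or.inr h4⟩
  have i1 : Set.InjOn g1 (A1 K s t T \ Sq) := fun q hq q' _ h => g1_inj h (n1 q hq).1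
  have i2 : Set.InjOn g2 (A2 K s t T \ Sq) := fun q hq q' _ h => g2_inj h (n2 q hq)
  have hd : Disjoint (g1 '' (A1 K s t T \ Sq)) (g2 '' (A2 K s t T \ Sq)) := by
    rw [Set.disjoint_left]
    rintro x ⟨q, hq, rfl⟩ ⟨q', hq', h⟩
    exact (n1 q hq).1 (g12_ne h.symm (n1 q hq).2)
  have u1 : (g1 '' (A1 K s t T \ Sq) ∪ g2 '' (A2 K s t T \ Sq)).ncard =
      (A1 K s t T \ Sq).ncard + (A2 K s t T \ Sq).ncard := by
    rw [Set.ncard_union_eq hd ((hf1.sdiff).image _) ((hf2.sdiff).image _),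
      i1.ncard_image, i2.ncard_image]
  have u2 : (g1 '' (A1 K s t T \ Sq) ∪ g2 '' (A2 K s t T \ Sq)).ncard ≤
      (g1 '' A1 K s t T ∪ g2 '' A2 K s t T).ncard := by
    refine Set.ncard_le_ncard ?_ ((hf1.image _).union (hf2.image _))
    exact Set.union_subset_union (Set.image_mono Set.sdiff_subset) (Set.image_mono Set.sdiff_subset)
  have v1 : (A1 K s t T).ncard ≤ (A1 K s t T \ Sq).ncard + Sq.ncard :=
    Set.ncard_le_ncard_sdiff_add_ncard _ _ hfS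
  have v2 : (A2 K s t T).ncard ≤ (A2 K s t T \ Sq).ncard + Sq.ncard :=
    Set.ncard_le_ncard_sdiff_add_ncard _ _ hfS
  have w : ((A1 K s t T).ncard : ℝ) + (A2 K s t T).ncard ≤
      ((g1 '' A1 K s t T ∪ g2 '' A2 K s t T).ncard : ℝ) + 2 * (Sq.ncard : ℝ) := by
    exact_mod_cast (by omega : (A1 K s t T).ncard + (A2 K s t T).ncard ≤
      (g1 '' A1 K s t T ∪ g2 '' A2 K s t T).ncard + 2 * Sq.ncard)
  linarith

/-- **The transfer.** -/
theorem transfer (κ : ℝ) (h1 : 3 / 2 < κ) (h2 : κ < 3) (ε : ℝ) (hε : 0 < ε) :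
    ∀ᶠ K in atTop, ∀ s t : ℝ, ∀ᶠ T in atTop, |((Cl κ (T ^ 4) (Pst s t)).ncard : ℝ) -
      (((A1 K s t T).ncard : ℝ) + (A2 K s t T).ncard)| ≤ ε * T ^ 3 := by
  obtain ⟨η, C, hη, hC, htail⟩ := pairs_tail (κ / 3) (1 / 4) (by linarith) (by norm_num)
    (by norm_num)
  have hK1 : ∀ᶠ K : ℝ in atTop, K ^ (-(1 / 4) : ℝ) ≤ ε / (8 * C) :=
    (tendsto_rpow_neg_atTop (by norm_num)).eventually_le_const (by positivity)
  filter_upwards [hK1, eventually_ge_atTop 1] with K hK hK1 s t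
  have hT1 : ∀ᶠ T : ℝ in atTop, T ^ (-(4 * η) : ℝ) ≤ ε / (8 * C) :=
    (tendsto_rpow_neg_atTop (by positivity)).eventually_le_const (by positivity)
  filter_upwards [hT1, sub_cl κ K s t h1 hK1, eventually_ge_atTop 1,
    eventually_ge_atTop (132 * K ^ 2 / ε)] with T hTa hsub hT1 hTb
  have hT0 : 0 < T := by linarith
  have hX1 : 1 ≤ T ^ 4 := one_le_pow₀ hT1
  set S : Set (ℤ × ℤ) := {q | Bd (κ / 3) (T ^ 4) q ∧ K * (T ^ 4) ^ (1 / 2 : ℝ) < HH q} with hS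
  have hSf : S.Finite := bd_finite _ _ _
  have hf1 := A1_finite K s t T hT0
  have hf2 := A2_finite K s t T hT0
  have hsup : Cl κ (T ^ 4) (Pst s t) ⊆ (g1 '' A1 K s t T ∪ g2 '' A2 K s t T) ∪
      (g1 '' S ∪ g2 '' S) := cl_sub κ K s t T hK1 hT1
  have hAf : (g1 '' A1 K s t T ∪ g2 '' A2 K s t T).Finite := (hf1.image _).union (hf2.image _)
  have hBf : (g1 '' S ∪ g2 '' S).Finite := (hSf.image _).union (hSf.image _)
  have hCf : (Cl κ (T ^ 4) (Pst s t)).Finite := (hAf.union hBf).subset hsup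
  -- the tail
  have hScard : (S.ncard : ℝ) ≤ ε / 4 * T ^ 3 := by
    rw [Set.ncard_eq_toFinset_card _ hSf]
    refine (htail (T ^ 4) K hX1 hK1 hSf.toFinset (fun q hq => by
      rw [Set.Finite.mem_toFinset] at hq
      exact hq)).trans ?_
    have e1 : (T ^ 4) ^ (3 / 4 : ℝ) = T ^ 3 := by
      rw [← Real.rpow_natCast T 4, ← Real.rpow_natCast T 3, ← Real.rpow_mul hT0.le]
      norm_num
    have e2 : (T ^ 4) ^ (3 / 4 - η) = T ^ (-(4 * η)) * T ^ 3 := by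
      rw [← Real.rpow_natCast T 4, ← Real.rpow_natCast T 3, ← Real.rpow_mul hT0.le,
        ← Real.rpow_add hT0]
      congr 1
      push_cast
      ring
    rw [e1, e2]
    have e3 : C * (ε / (8 * C)) = ε / 8 := by field_simp
    have p3 : 0 ≤ T ^ 3 := by positivity
    calc C * (K ^ (-(1 / 4) : ℝ) * T ^ 3 + T ^ (-(4 * η)) * T ^ 3)
        ≤ C * (ε / (8 * C) * T ^ 3 + ε / (8 * C) * T ^ 3) := by gcongr
      _ = (C * (ε / (8 * C))) * T ^ 3 * 2 := by ring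
      _ = ε / 4 * T ^ 3 := by rw [e3]; ring
  -- from above
  have up : ((Cl κ (T ^ 4) (Pst s t)).ncard : ℝ) ≤
      ((A1 K s t T).ncard : ℝ) + (A2 K s t T).ncard + 2 * S.ncard := by
    have c1 := Set.ncard_le_ncard hsup (hAf.union hBf)
    have c2 := Set.ncard_union_le (g1 '' A1 K s t T ∪ g2 '' A2 K s t T) (g1 '' S ∪ g2 '' S)
    have c3 := Set.ncard_union_le (g1 '' A1 K s t T) (g2 '' A2 K s t T)
    have c4 := Set.ncard_union_le (g1 '' S) (g2 '' S)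
    have c5 := Set.ncard_image_le (f := g1) hf1
    have c6 := Set.ncard_image_le (f := g2) hf2
    have c7 := Set.ncard_image_le (f := g1) hSf
    have c8 := Set.ncard_image_le (f := g2) hSf
    exact_mod_cast (by omega : (Cl κ (T ^ 4) (Pst s t)).ncard ≤
      (A1 K s t T).ncard + (A2 K s t T).ncard + 2 * S.ncard)
  have lo := image_lower K s t T hK1 hT1
  have lo2 : ((g1 '' A1 K s t T ∪ g2 '' A2 K s t T).ncard : ℝ) ≤
      ((Cl κ (T ^ 4) (Pst s t)).ncard : ℝ) := by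
    exact_mod_cast Set.ncard_le_ncard hsub hCf
  have e5 : 2 * ((3 * K * T) * (19 * K * T) + (3 * K * T) * (3 * K * T)) ≤ ε * T ^ 3 := by
    rw [div_le_iff₀ hε] at hTb
    have : 0 ≤ T ^ 2 := by positivity
    nlinarith
  have p3 : 0 ≤ ε * T ^ 3 := by positivity
  rw [abs_le]
  constructor <;> linarith

end Pool.Agent.T2h82.As
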