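import Pool.Agent.T2h82.As.Const
import Pool.Agent.T2h82.As.Tr2

/-!
# The asymptotic count of the curves and the limit law
-/

set_option autoImplicit false

namespace Pool.Agent.T2h82.As

open Finset Filter Topology MeasureTheory
open Pool.Agent.H328R2.ABC (rad rad_pos)
open Pool.Agent.T2h82

theorem p1_iff (x : ℤ) : (x % 4 = 1) = ((((4 : ℕ) : ℤ)) ∣ x - 1) := by
  apply propext
  push_cast
  omega

theorem p3_iff (x : ℤ) : (x % 4 = 3) = ((((4 : ℕ) : ℤ)) ∣ x - 3) := by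
  apply propext
  push_cast
  omega

theorem r1_zero (K t : ℝ) (ht : 0 ≤ t) : R1 K 0 t = RegJ 64 0 K := by
  funext v w z
  unfold R1 RegJ
  rw [pow_zero, one_mul, Set.inter_eq_left.2]
  · norm_num
  · intro p _
    show (0 * (ew w * ew z) ^ 3) * |p.2| ≤ t * |p.1 ^ 2 - 64 * p.2|
    rw [zero_mul, zero_mul]
    positivity

theorem r2_zero (K t : ℝ) (ht : 0 ≤ t) : R2 K 0 t = RegJ 64 0 K := by
  funext v w z
  unfold R2 RegJ
  rw [pow_zero, one_mul, Set.inter_eq_left.2]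
  · norm_num
  · intro p _
    show (0 * (ew w * ew z) ^ 3) * |p.1 ^ 2 - 64 * p.2| ≤ t * |p.2|
    rw [zero_mul, zero_mul]
    positivity

theorem mod_per (c : ℤ) (x i : ℤ) : ((x + ((4 : ℕ) : ℤ) * i) % 4 = c) ↔ (x % 4 = c) := by
  push_cast
  omega

/-- the limits of the numbers of the pairs -/
theorem lim_A (K s t : ℝ) (hK : 0 < K) (ht : t ≠ 0) : ∃ L : ℝ,
    Tendsto (fun T => (((A1 K s t T).ncard : ℝ) + (A2 K s t T).ncard) / T ^ 3) atTop (𝓝 L) := by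
  obtain ⟨L1, h1⟩ := lim_pairs 64 (by norm_num) (fun x => x % 4 = 1) 4 (by norm_num)
    (fun x i => mod_per 1 x i) (R1 K s t) (r1_nice K s t ht) K hK (r1_sub K s t)
  obtain ⟨L2, h2⟩ := lim_pairs 64 (by norm_num) (fun x => x % 4 = 3) 4 (by norm_num)
    (fun x i => mod_per 3 x i) (R2 K s t) (r2_nice K s t ht) K hK (r2_sub K s t)
  refine ⟨L1 + L2, (h1.add h2).congr (fun T => ?_)⟩
  rw [← add_div]
  congr 1
  ring

/-- **The limit for one condition.** -/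
theorem law_lim (s t : ℝ) (ht : t ≠ 0) : ∃ L : ℝ,
    (∀ κ : ℝ, 3 / 2 < κ → κ < 3 → Tendsto (fun T : ℝ =>
      ((Cl κ (T ^ 4) (Pst s t)).ncard : ℝ) / T ^ 3) atTop (𝓝 L)) ∧
    ∀ a : ℝ → ℝ, (∀ᶠ K in atTop, Tendsto (fun T => (((A1 K s t T).ncard : ℝ) +
      (A2 K s t T).ncard) / T ^ 3) atTop (𝓝 (a K))) → Tendsto a atTop (𝓝 L) := by
  have hex : ∀ K : ℝ, 0 < K → ∃ L : ℝ, Tendsto (fun T => (((A1 K s t T).ncard : ℝ) +
      (A2 K s t T).ncard) / T ^ 3) atTop (𝓝 L) := fun K hK => lim_A K s t hK ht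
  have key : ∀ κ : ℝ, 3 / 2 < κ → κ < 3 → ∃ L : ℝ, Tendsto (fun T : ℝ =>
      ((Cl κ (T ^ 4) (Pst s t)).ncard : ℝ) / T ^ 3) atTop (𝓝 L) ∧
      ∀ a : ℝ → ℝ, (∀ᶠ K in atTop, Tendsto (fun T => (((A1 K s t T).ncard : ℝ) +
      (A2 K s t T).ncard) / T ^ 3) atTop (𝓝 (a K))) → Tendsto a atTop (𝓝 L) := by
    intro κ h1 h2
    have hev : ∀ ε : ℝ, 0 < ε → ∀ᶠ K in atTop, ∀ᶠ T in atTop,
        |((Cl κ (T ^ 4) (Pst s t)).ncard : ℝ) / T ^ 3 -
          (((A1 K s t T).ncard : ℝ) + (A2 K s t T).ncard) / T ^ 3| ≤ ε := by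
      intro ε hε
      filter_upwards [transfer κ h1 h2 ε hε] with K hK
      filter_upwards [hK s t, eventually_gt_atTop 0] with T hT hT0
      have hp : 0 < T ^ 3 := by positivity
      rw [← sub_div, abs_div, abs_of_pos hp, div_le_iff₀ hp]
      exact hT
    obtain ⟨L, hL⟩ := exists_lim (fun T : ℝ => ((Cl κ (T ^ 4) (Pst s t)).ncard : ℝ) / T ^ 3)
      (fun ε hε => by
        obtain ⟨K, hK, hK0⟩ := ((hev (ε / 2) (by positivity)).and (eventually_gt_atTop 0)).exists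
        obtain ⟨L, hL⟩ := hex K hK0
        refine ⟨L, ?_⟩
        have h3 : ∀ᶠ T in atTop, |(((A1 K s t T).ncard : ℝ) + (A2 K s t T).ncard) / T ^ 3 - L| <
            ε / 2 := by
          have := (Metric.tendsto_nhds.1 hL) (ε / 2) (by positivity)
          simpa only [Real.dist_eq] using this
        filter_upwards [hK, h3] with T h4 h5
        have h5' := h5.le
        rw [abs_le] at h4 h5' ⊢
        constructor <;> linarith [h4.1, h4.2, h5'.1, h5'.2])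
    refine ⟨L, hL, fun a ha => ?_⟩
    rw [Metric.tendsto_nhds]
    intro ε hε
    filter_upwards [hev (ε / 2) (by positivity), ha] with K hK haK
    rw [Real.dist_eq]
    have h6 := (hL.sub haK).abs
    have h7 := le_of_tendsto h6 hK
    rw [abs_sub_comm]
    linarith
  obtain ⟨L, h1, h2⟩ := key 2 (by norm_num) (by norm_num)
  refine ⟨L, fun κ h3 h4 => ?_, h2⟩
  obtain ⟨L', h5, h6⟩ := key κ h3 h4
  choose! a ha using hex
  have ha' : ∀ᶠ K in atTop, Tendsto (fun T => (((A1 K s t T).ncard : ℝ) +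
      (A2 K s t T).ncard) / T ^ 3) atTop (𝓝 (a K)) := by
    filter_upwards [eventually_gt_atTop 0] with K hK
    exact ha K hK
  have e := tendsto_nhds_unique (h2 a ha') (h6 a ha')
  rw [e]
  exact h5

theorem A1_zero (K T : ℝ) : A1 K 0 1 T =
    Pt (Fn 64 (fun x => ((4 : ℕ) : ℤ) ∣ x - 1) (RegJ 64 0 K)) T (T ^ 2) := by
  unfold A1
  rw [r1_zero K 1 (by norm_num)]
  simp_rw [p1_iff]

theorem A2_zero (K T : ℝ) : A2 K 0 1 T =
    Pt (Fn 64 (fun x => ((4 : ℕ) : ℤ) ∣ x - 3) (RegJ 64 0 K)) T (T ^ 2) := by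
  unfold A2
  rw [r2_zero K 1 (by norm_num)]
  simp_rw [p3_iff]

theorem cl_mono (κ X : ℝ) (P Q : WeierstrassCurve ℤ → Prop) (h : ∀ W, P W → Q W) :
    Cl κ X P ⊆ Cl κ X Q := by
  rintro q ⟨W, a, b, c, d, e, f, g⟩
  exact ⟨W, a, b, c, d, e, h W f, g⟩

theorem cl_finite (κ X : ℝ) (hκ : κ < 3) (hX : 1 ≤ X) (P : WeierstrassCurve ℤ → Prop) :
    (Cl κ X P).Finite := by
  obtain ⟨C, -, h⟩ := upper κ hκ
  exact (h X hX).1.subset (cl_mono κ X P _ (fun _ _ => trivial))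

/-- **The asymptotic count.** -/
theorem count (κ : ℝ) (h1 : 3 / 2 < κ) (h2 : κ < 3) :
    volume (Lev 64 0 1) ≠ ⊤ ∧ Multipliable (fun p : Nat.Primes => lc 4 0 (3 / 4) p) ∧
    0 < ∏' p : Nat.Primes, lc 4 0 (3 / 4) p ∧
    Tendsto (fun T : ℝ => ((Cl κ (T ^ 4) (Pst 0 1)).ncard : ℝ) / T ^ 3) atTop
      (𝓝 (2 * ((volume (Lev 64 0 1)).toReal * ∏' p : Nat.Primes, lc 4 0 (3 / 4) p))) := by
  obtain ⟨C, hC, hup⟩ := upper 2 (by norm_num)
  -- the bound for the limits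
  have hb : ∀ K : ℝ, 1 ≤ K → ∀ᶠ T in atTop,
      (((A1 K 0 1 T).ncard : ℝ) + (A2 K 0 1 T).ncard) / T ^ 3 ≤ C + 1 := by
    intro K hK
    filter_upwards [sub_cl 2 K 0 1 (by norm_num) hK, eventually_ge_atTop 1,
      eventually_ge_atTop (132 * K ^ 2)] with T h3 h4 h5
    have hT0 : 0 < T := by linarith
    have hX : 1 ≤ T ^ 4 := one_le_pow₀ h4
    have h6 := image_lower K 0 1 T hK h4
    have h7 : ((g1 '' A1 K 0 1 T ∪ g2 '' A2 K 0 1 T).ncard : ℝ) ≤ C * T ^ 3 := by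
      have e1 : (T ^ 4) ^ (3 / 4 : ℝ) = T ^ 3 := by
        rw [← Real.rpow_natCast T 4, ← Real.rpow_natCast T 3, ← Real.rpow_mul hT0.le]
        norm_num
      have h8 := (hup (T ^ 4) hX).2
      rw [e1] at h8
      refine le_trans ?_ h8
      exact_mod_cast Set.ncard_le_ncard (h3.trans (cl_mono _ _ _ _ (fun _ _ => trivial)))
        (hup (T ^ 4) hX).1
    rw [div_le_iff₀ (by positivity)]
    have e5 : 2 * ((3 * K * T) * (19 * K * T) + (3 * K * T) * (3 * K * T)) ≤ T ^ 3 := by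
      have : 0 ≤ T ^ 2 := by positivity
      nlinarith
    linarith
  have hb1 : ∀ K : ℝ, 1 ≤ K → ∀ L : ℝ, Tendsto (fun T : ℝ =>
      ((Pt (Fn 64 (fun x => ((4 : ℕ) : ℤ) ∣ x - 1) (RegJ 64 0 K)) T (T ^ 2)).ncard : ℝ) /
        (T * T ^ 2)) atTop (𝓝 L) → L ≤ C + 1 := by
    intro K hK L hL
    refine le_of_tendsto hL ?_
    filter_upwards [hb K hK, eventually_gt_atTop 0] with T hT hT0
    refine le_trans ?_ hT
    rw [← A1_zero, show T * T ^ 2 = T ^ 3 by ring]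
    have : (0 : ℝ) ≤ (A2 K 0 1 T).ncard := by positivity
    gcongr
    linarith
  have hb2 : ∀ K : ℝ, 1 ≤ K → ∀ L : ℝ, Tendsto (fun T : ℝ =>
      ((Pt (Fn 64 (fun x => ((4 : ℕ) : ℤ) ∣ x - 3) (RegJ 64 0 K)) T (T ^ 2)).ncard : ℝ) /
        (T * T ^ 2)) atTop (𝓝 L) → L ≤ C + 1 := by
    intro K hK L hL
    refine le_of_tendsto hL ?_
    filter_upwards [hb K hK, eventually_gt_atTop 0] with T hT hT0
    refine le_trans ?_ hT
    rw [← A2_zero, show T * T ^ 2 = T ^ 3 by ring]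
    have : (0 : ℝ) ≤ (A1 K 0 1 T).ncard := by positivity
    gcongr
    linarith
  have hy1 : Hy 64 1 4 := Or.inr ⟨rfl, rfl, by norm_num⟩
  have hy3 : Hy 64 3 4 := Or.inr ⟨rfl, rfl, by norm_num⟩
  obtain ⟨hfin, κ1, hκ1, hl1⟩ := const_lim hy1 0 (by norm_num) (C + 1) hb1
  obtain ⟨-, κ2, hκ2, hl2⟩ := const_lim hy3 0 (by norm_num) (C + 1) hb2
  obtain ⟨-, eu2, eu3⟩ := euler hy1 (s1 := 0) (s2 := 3 / 4) le_rfl (by norm_num) (by norm_num)
    (by norm_num)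
  push_cast at hfin hl1 hl2
  rw [zero_mul, add_zero] at hl1 hl2
  refine ⟨hfin, eu2, eu3, ?_⟩
  obtain ⟨L, hL1, hL2⟩ := law_lim 0 1 one_ne_zero
  have h3 := hL2 (fun K => κ1 K + κ2 K) (by
    filter_upwards [eventually_gt_atTop 0] with K hK
    have h4 := (hκ1 K hK).add (hκ2 K hK)
    refine h4.congr (fun T => ?_)
    rw [← A1_zero, ← A2_zero, ← add_div]
    congr 1
    ring)
  have h5 := tendsto_nhds_unique h3 (hl1.add hl2)
  rw [two_mul, ← h5]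
  exact hL1 κ h1 h2

/-- the pairs which are bad or have a small entry -/
theorem few (K : ℝ) (hK : 1 ≤ K) : ∃ C : ℝ, 0 < C ∧ ∀ (D : ℝ) (W : ℕ) (T Y : ℝ), 1 ≤ D →
    D ^ 3 ≤ W → 1 ≤ T → 0 ≤ Y → ∀ S : Finset (ℤ × ℤ), (∀ q ∈ S, Bx K T q ∧
      (Bad 64 W q ∨ (q.2.natAbs : ℝ) ≤ Y ∨ ((ff q).natAbs : ℝ) ≤ Y)) →
      (S.card : ℝ) ≤ C * (T ^ 3 / D + T ^ 2) + 3 * (K * T) * (4 * Y + 2) := by
  classical
  obtain ⟨C, hC, hbad⟩ := bad_all 64 (by norm_num) K (by linarith)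
  refine ⟨C, hC, fun D W T Y hD hDW hT hY S hS => ?_⟩
  have hT0 : 0 < T := by linarith
  have hK0 : 0 < K := by linarith
  have h1 := hbad D W T hD hDW hT (S.filter (fun q => Bad 64 W q)) (fun q hq => by
    rw [mem_filter] at hq
    exact ⟨(hS q hq.1).1.1, (hS q hq.1).1.2, hq.2⟩)
  have h2 := small (S.filter (fun q => ¬ Bad 64 W q)) ((K * T) ^ 2) Y (by
    have : 1 ≤ K * T := by nlinarith
    exact one_le_pow₀ this) hY (fun q hq => by
    rw [mem_filter] at hq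
    obtain ⟨⟨b1, b2⟩, b3⟩ := hS q hq.1
    refine ⟨?_, b3.resolve_left hq.2⟩
    unfold HH
    push_cast
    refine max_le ?_ ?_
    · exact sq_le_sq' (abs_le.1 b1).1 (abs_le.1 b1).2
    · refine b2.trans ?_
      have : 0 ≤ T ^ 2 := by positivity
      nlinarith)
  rw [Real.sqrt_sq (by positivity)] at h2
  rw [card_split S (fun q => Bad 64 W q)]
  exact add_le_add h1 h2

theorem ew_le (n : ℕ) : ew n ≤ n := by
  have h2 : (1 : ℝ) ≤ rad n := by exact_mod_cast rad_pos _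
  unfold ew
  exact div_le_self (by positivity) h2

theorem ff_le {K T : ℝ} (hK : 1 ≤ K) {q : ℤ × ℤ} (hq : Bx K T q) :
    |((ff q : ℤ) : ℝ)| ≤ 65 * K ^ 2 * T ^ 2 := by
  obtain ⟨h1, h2⟩ := hq
  have k1 : (q.1 : ℝ) ^ 2 ≤ K ^ 2 * T ^ 2 := by
    have := sq_le_sq' (abs_le.1 h1).1 (abs_le.1 h1).2
    rw [mul_pow] at this
    exact this
  have k2 : K * T ^ 2 ≤ K ^ 2 * T ^ 2 := by
    have : K ≤ K ^ 2 := le_self_pow₀ hK (by norm_num)
    gcongr
  have k3 := abs_le.1 h2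
  have k4 := sq_nonneg (q.1 : ℝ)
  unfold ff
  push_cast
  rw [abs_le]
  constructor <;> linarith

/-- few pairs have a large quotient -/
theorem far (K : ℝ) (hK : 1 ≤ K) (ε : ℝ) (hε : 0 < ε) : ∃ t₀ : ℝ, ∀ t : ℝ, t₀ ≤ t → ∀ᶠ T in atTop,
    ((A1 K 0 1 T).ncard : ℝ) + (A2 K 0 1 T).ncard ≤
      ((A1 K 1 t T).ncard : ℝ) + (A2 K 1 t T).ncard + ε * T ^ 3 := by
  classical
  obtain ⟨C, hC, hfew⟩ := few K hK
  have hK0 : 0 < K := by linarith
  set D : ℝ := max 1 (8 * C / ε) with hD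
  have hD1 : 1 ≤ D := le_max_left _ _
  have hD2 : 8 * C / ε ≤ D := le_max_right _ _
  obtain ⟨W, hW⟩ := exists_nat_ge (max (D ^ 3) (max 1 (16 * 12 * 65 * K ^ 3 / ε)))
  have hW1 : D ^ 3 ≤ W := (le_max_left _ _).trans hW
  have hW2 : (1 : ℝ) ≤ W := ((le_max_left _ _).trans (le_max_right _ _)).trans hW
  have hW3 : 16 * 12 * 65 * K ^ 3 / ε ≤ W := ((le_max_right _ _).trans (le_max_right _ _)).trans hW
  have hW0 : (0 : ℝ) < W := by linarith
  refine ⟨(W : ℝ) ^ 12, fun t ht => ?_⟩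
  have ht0 : 0 < t := lt_of_lt_of_le (by positivity) ht
  filter_upwards [eventually_ge_atTop 1, eventually_ge_atTop ((8 * C + 96 * K) / ε)] with T hT1 hT2
  have hT0 : 0 < T := by linarith
  set Y : ℝ := 65 * K ^ 2 * T ^ 2 / W with hY
  have hY0 : 0 ≤ Y := by positivity
  have hbound : ∀ S : Finset (ℤ × ℤ), (∀ q ∈ S, Bx K T q ∧
      (Bad 64 W q ∨ (q.2.natAbs : ℝ) ≤ Y ∨ ((ff q).natAbs : ℝ) ≤ Y)) →
      (S.card : ℝ) ≤ ε / 2 * T ^ 3 := by
    intro S hS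
    refine (hfew D W T Y hD1 hW1 hT1 hY0 S hS).trans ?_
    have e1 : C * (T ^ 3 / D) ≤ ε / 8 * T ^ 3 := by
      have : C / D ≤ ε / 8 := by
        rw [div_le_iff₀ (by linarith)]
        rw [div_le_iff₀ hε] at hD2
        linarith
      calc C * (T ^ 3 / D) = (C / D) * T ^ 3 := by ring
        _ ≤ _ := by gcongr
    have e2 : C * T ^ 2 + 6 * K * T ≤ ε / 8 * T ^ 3 := by
      rw [div_le_iff₀ hε] at hT2
      have h0 : 0 ≤ T ^ 2 := by positivity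
      have h1 : K * T ≤ K * T ^ 2 := by
        have : T ≤ T ^ 2 := le_self_pow₀ hT1 (by norm_num)
        gcongr
      nlinarith
    have e3 : 12 * (K * T) * Y ≤ ε / 16 * T ^ 3 := by
      rw [hY]
      rw [div_le_iff₀ hε] at hW3
      have : 12 * (K * T) * (65 * K ^ 2 * T ^ 2 / W) = (12 * 65 * K ^ 3 / W) * T ^ 3 := by ring
      rw [this]
      have h2 : 12 * 65 * K ^ 3 / W ≤ ε / 16 := by
        rw [div_le_iff₀ hW0]
        linarith
      gcongr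
    have e4 : 0 ≤ ε * T ^ 3 := by positivity
    calc C * (T ^ 3 / D + T ^ 2) + 3 * (K * T) * (4 * Y + 2)
        = C * (T ^ 3 / D) + (C * T ^ 2 + 6 * K * T) + 12 * (K * T) * Y := by ring
      _ ≤ ε / 8 * T ^ 3 + ε / 8 * T ^ 3 + ε / 16 * T ^ 3 := add_le_add (add_le_add e1 e2) e3
      _ ≤ ε / 2 * T ^ 3 := by linarith
  have hmW : ∀ v w : ℕ, pw v ≤ W → pw w ≤ W → (ew (pw v) * ew (pw w)) ^ 3 ≤ (W : ℝ) ^ 6 := by
    intro v w h1 h2
    have k1 : ew (pw v) ≤ W := (ew_le _).trans (by exact_mod_cast h1)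
    have k2 : ew (pw w) ≤ W := (ew_le _).trans (by exact_mod_cast h2)
    have k3 := ew_nonneg (pw v)
    have k4 := ew_nonneg (pw w)
    calc (ew (pw v) * ew (pw w)) ^ 3 ≤ ((W : ℝ) * W) ^ 3 := by gcongr
      _ = _ := by ring
  have habs1 : ∀ q : ℤ × ℤ, (q.2.natAbs : ℝ) = |(q.2 : ℝ)| := fun q => by
    rw [Nat.cast_natAbs]; push_cast; rfl
  have habs2 : ∀ q : ℤ × ℤ, ((ff q).natAbs : ℝ) = |((ff q : ℤ) : ℝ)| := fun q => by
    rw [Nat.cast_natAbs]; push_cast; rfl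
  have core : ∀ m a b : ℝ, m ≤ (W : ℝ) ^ 6 → 0 ≤ a → a ≤ 65 * K ^ 2 * T ^ 2 → 0 ≤ b →
      t * b < m * a → b ≤ Y := by
    intro m a b hm ha ha2 hb h
    have h1 : (W : ℝ) ^ 12 * b ≤ (W : ℝ) ^ 6 * a := by
      have k1 : (W : ℝ) ^ 12 * b ≤ t * b := mul_le_mul_of_nonneg_right ht hb
      have k2 : m * a ≤ (W : ℝ) ^ 6 * a := mul_le_mul_of_nonneg_right hm ha
      linarith
    have h2 : (W : ℝ) ^ 6 * b ≤ a := by
      have k3 : (W : ℝ) ^ 12 * b = (W : ℝ) ^ 6 * ((W : ℝ) ^ 6 * b) := by ring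
      rw [k3] at h1
      exact le_of_mul_le_mul_left h1 (by positivity)
    rw [hY, le_div_iff₀ hW0]
    have h3 : (W : ℝ) ≤ (W : ℝ) ^ 6 := le_self_pow₀ hW2 (by norm_num)
    calc b * W ≤ b * (W : ℝ) ^ 6 := by gcongr
      _ = (W : ℝ) ^ 6 * b := by ring
      _ ≤ a := h2
      _ ≤ _ := ha2
  have hf1 := A1_finite K 0 1 T hT0
  have hf2 := A2_finite K 0 1 T hT0
  have d1 : (((A1 K 0 1 T) \ (A1 K 1 t T)).ncard : ℝ) ≤ ε / 2 * T ^ 3 := by
    rw [Set.ncard_eq_toFinset_card _ hf1.sdiff]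
    refine hbound _ (fun q hq => ?_)
    rw [Set.Finite.mem_toFinset] at hq
    obtain ⟨q1, q2⟩ := hq
    rw [mem_A1 hT0] at q1 q2
    obtain ⟨k1, k2, k3, -⟩ := q1
    refine ⟨k2, ?_⟩
    by_contra hcon
    push Not at hcon
    obtain ⟨c1, c2, c3⟩ := hcon
    apply q2
    refine ⟨k1, k2, k3, ?_⟩
    rw [one_mul]
    by_contra h
    push Not at h
    rw [habs2] at c3
    unfold Bad at c1
    push Not at c1
    have hm := hmW q.2.natAbs (ff q).natAbs c1.2.2.2.2.1 c1.2.2.2.2.2.1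
    have hn : |(q.2 : ℝ)| ≤ 65 * K ^ 2 * T ^ 2 := by
      refine k2.2.trans ?_
      have h0 : 0 ≤ T ^ 2 := by positivity
      have h4 : K ≤ 65 * K ^ 2 := by nlinarith
      gcongr
    have := core _ _ _ hm (abs_nonneg _) hn (abs_nonneg _) h
    linarith
  have d2 : (((A2 K 0 1 T) \ (A2 K 1 t T)).ncard : ℝ) ≤ ε / 2 * T ^ 3 := by
    rw [Set.ncard_eq_toFinset_card _ hf2.sdiff]
    refine hbound _ (fun q hq => ?_)
    rw [Set.Finite.mem_toFinset] at hq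
    obtain ⟨q1, q2⟩ := hq
    rw [mem_A2 hT0] at q1 q2
    obtain ⟨k1, k2, k3, -⟩ := q1
    refine ⟨k2, ?_⟩
    by_contra hcon
    push Not at hcon
    obtain ⟨c1, c2, c3⟩ := hcon
    apply q2
    refine ⟨k1, k2, k3, ?_⟩
    rw [one_mul]
    by_contra h
    push Not at h
    rw [habs1] at c2
    unfold Bad at c1
    push Not at c1
    have hm := hmW q.2.natAbs (ff q).natAbs c1.2.2.2.2.1 c1.2.2.2.2.2.1
    have := core _ _ _ hm (abs_nonneg _) (ff_le hK k2) (abs_nonneg _) h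
    linarith
  have g1' : ((A1 K 0 1 T).ncard : ℝ) ≤ (A1 K 1 t T).ncard + ((A1 K 0 1 T) \ (A1 K 1 t T)).ncard := by
    have := Set.ncard_le_ncard_sdiff_add_ncard (A1 K 0 1 T) (A1 K 1 t T) (A1_finite K 1 t T hT0)
    have h' : (A1 K 0 1 T).ncard ≤ (A1 K 1 t T).ncard + ((A1 K 0 1 T) \ (A1 K 1 t T)).ncard := by
      omega
    exact_mod_cast h'
  have g2' : ((A2 K 0 1 T).ncard : ℝ) ≤ (A2 K 1 t T).ncard + ((A2 K 0 1 T) \ (A2 K 1 t T)).ncard := by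
    have := Set.ncard_le_ncard_sdiff_add_ncard (A2 K 0 1 T) (A2 K 1 t T) (A2_finite K 1 t T hT0)
    have h' : (A2 K 0 1 T).ncard ≤ (A2 K 1 t T).ncard + ((A2 K 0 1 T) \ (A2 K 1 t T)).ncard := by
      omega
    exact_mod_cast h'
  linarith

/-- few pairs have a small quotient -/
theorem near (K : ℝ) (hK : 1 ≤ K) (ε : ℝ) (hε : 0 < ε) : ∃ t₀ : ℝ, 0 < t₀ ∧ ∀ t : ℝ, 0 < t →
    t ≤ t₀ → ∀ᶠ T in atTop,
    ((A1 K 1 t T).ncard : ℝ) + (A2 K 1 t T).ncard ≤ ε * T ^ 3 := by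
  classical
  have hK0 : 0 < K := by linarith
  refine ⟨ε / (64 * 65 * K ^ 3), by positivity, fun t ht ht1 => ?_⟩
  filter_upwards [eventually_ge_atTop 1, eventually_ge_atTop (64 * K / ε)] with T hT1 hT2
  have hT0 : 0 < T := by linarith
  set Y : ℝ := t * (65 * K ^ 2 * T ^ 2) with hY
  have hY0 : 0 ≤ Y := by positivity
  have hbound : ∀ S : Finset (ℤ × ℤ), (∀ q ∈ S, Bx K T q ∧
      ((q.2.natAbs : ℝ) ≤ Y ∨ ((ff q).natAbs : ℝ) ≤ Y)) →
      (S.card : ℝ) ≤ ε / 2 * T ^ 3 := by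
    intro S hS
    have h2 := small S ((K * T) ^ 2) Y (by
      have : 1 ≤ K * T := by nlinarith
      exact one_le_pow₀ this) hY0 (fun q hq => by
      obtain ⟨⟨b1, b2⟩, b3⟩ := hS q hq
      refine ⟨?_, b3⟩
      unfold HH
      push_cast
      refine max_le ?_ ?_
      · exact sq_le_sq' (abs_le.1 b1).1 (abs_le.1 b1).2
      · refine b2.trans ?_
        have : 0 ≤ T ^ 2 := by positivity
        nlinarith)
    rw [Real.sqrt_sq (by positivity)] at h2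
    refine h2.trans ?_
    have e3 : 12 * (K * T) * Y ≤ ε / 4 * T ^ 3 := by
      rw [hY]
      have h3 : 12 * (K * T) * (t * (65 * K ^ 2 * T ^ 2)) = (t * (12 * 65 * K ^ 3)) * T ^ 3 := by
        ring
      rw [h3]
      have h4 : t * (12 * 65 * K ^ 3) ≤ ε / 4 := by
        rw [le_div_iff₀ (by positivity)] at ht1
        have h5 : 0 ≤ t * K ^ 3 := by positivity
        linarith
      gcongr
    have e4 : 6 * (K * T) ≤ ε / 4 * T ^ 3 := by
      rw [div_le_iff₀ hε] at hT2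
      have h5 : T ^ 2 ≤ T ^ 3 := pow_le_pow_right₀ hT1 (by norm_num)
      have h6 : 0 ≤ ε * T ^ 3 := by positivity
      nlinarith
    calc 3 * (K * T) * (4 * Y + 2) = 12 * (K * T) * Y + 6 * (K * T) := by ring
      _ ≤ ε / 4 * T ^ 3 + ε / 4 * T ^ 3 := add_le_add e3 e4
      _ = _ := by ring
  have habs1 : ∀ q : ℤ × ℤ, (q.2.natAbs : ℝ) = |(q.2 : ℝ)| := fun q => by
    rw [Nat.cast_natAbs]; push_cast; rfl
  have habs2 : ∀ q : ℤ × ℤ, ((ff q).natAbs : ℝ) = |((ff q : ℤ) : ℝ)| := fun q => by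
    rw [Nat.cast_natAbs]; push_cast; rfl
  have hm1 : ∀ v w : ℕ, 1 ≤ (ew (pw v) * ew (pw w)) ^ 3 := fun v w =>
    one_le_pow₀ (one_le_mul_of_one_le_of_one_le (one_le_ew (pw_pos v).ne')
      (one_le_ew (pw_pos w).ne'))
  have hf1 := A1_finite K 1 t T hT0
  have hf2 := A2_finite K 1 t T hT0
  have d1 : ((A1 K 1 t T).ncard : ℝ) ≤ ε / 2 * T ^ 3 := by
    rw [Set.ncard_eq_toFinset_card _ hf1]
    refine hbound _ (fun q hq => ?_)
    rw [Set.Finite.mem_toFinset, mem_A1 hT0] at hq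
    obtain ⟨k1, k2, k3, k4⟩ := hq
    refine ⟨k2, Or.inl ?_⟩
    rw [habs1, hY]
    rw [one_mul] at k4
    have h1 : |(q.2 : ℝ)| ≤ (ew (pw q.2.natAbs) * ew (pw (ff q).natAbs)) ^ 3 * |(q.2 : ℝ)| :=
      le_mul_of_one_le_left (abs_nonneg _) (hm1 _ _)
    have h2 : t * |((ff q : ℤ) : ℝ)| ≤ t * (65 * K ^ 2 * T ^ 2) :=
      mul_le_mul_of_nonneg_left (ff_le hK k2) ht.le
    linarith
  have d2 : ((A2 K 1 t T).ncard : ℝ) ≤ ε / 2 * T ^ 3 := by
    rw [Set.ncard_eq_toFinset_card _ hf2]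
    refine hbound _ (fun q hq => ?_)
    rw [Set.Finite.mem_toFinset, mem_A2 hT0] at hq
    obtain ⟨k1, k2, k3, k4⟩ := hq
    refine ⟨k2, Or.inr ?_⟩
    rw [habs2, hY]
    rw [one_mul] at k4
    have h1 : |((ff q : ℤ) : ℝ)| ≤ (ew (pw q.2.natAbs) * ew (pw (ff q).natAbs)) ^ 3 *
        |((ff q : ℤ) : ℝ)| := le_mul_of_one_le_left (abs_nonneg _) (hm1 _ _)
    have hn : |(q.2 : ℝ)| ≤ 65 * K ^ 2 * T ^ 2 := by
      refine k2.2.trans ?_
      have h0 : 0 ≤ T ^ 2 := by positivity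
      have h4 : K ≤ 65 * K ^ 2 := by nlinarith
      gcongr
    have h2 : t * |(q.2 : ℝ)| ≤ t * (65 * K ^ 2 * T ^ 2) := mul_le_mul_of_nonneg_left hn ht.le
    linarith
  linarith

end Pool.Agent.T2h82.As
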