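import Pool.Agent.T2h82.As.RestS

/-!
# The asymptotic count of the triples and the limit law
-/

set_option autoImplicit false

namespace Pool.Agent.T2h82.As

open Finset Filter Topology MeasureTheory
open Pool.Agent.H328R2.ABC (rad rad_pos)
open Pool.Agent.T2h82 (pw pw_pos HH)
open Pool.Agent.T2h82.Sq (gf IsT R3 Mem PP rad_pow Tr tr_finite)

theorem lim_AS (K s t : ℝ) (hK : 0 < K) (ht : t ≠ 0) : ∃ L : ℝ,
    Tendsto (fun T => ((AS K s t T).ncard : ℝ) / 4 / T ^ 3) atTop (𝓝 L) := by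
  obtain ⟨L, h⟩ := lim_pairs 1 (by norm_num) (fun x => ((1 : ℕ) : ℤ) ∣ x - 0) 1 (by norm_num)
    (fun x i => by simp) (RS K s t) (rs_nice K s t ht) K hK (rs_sub K s t)
  refine ⟨L / 4, (h.div_const 4).congr (fun T => ?_)⟩
  have e : T * T ^ 2 = T ^ 3 := by ring
  show ((AS K s t T).ncard : ℝ) / (T * T ^ 2) / 4 = _
  rw [e]
  ring

/-- **The limit for one condition.** -/
theorem law_limS (s t : ℝ) (ht : t ≠ 0) : ∃ L : ℝ,
    (∀ k : ℝ, 2 / 5 < k → Tendsto (fun T : ℝ =>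
      ((Tr k (T ^ 5) (Pc s t)).ncard : ℝ) / T ^ 3) atTop (𝓝 L)) ∧
    ∀ a : ℝ → ℝ, (∀ᶠ K in atTop, Tendsto (fun T => ((AS K s t T).ncard : ℝ) / 4 / T ^ 3)
      atTop (𝓝 (a K))) → Tendsto a atTop (𝓝 L) := by
  have hex : ∀ K : ℝ, 0 < K → ∃ L : ℝ, Tendsto (fun T => ((AS K s t T).ncard : ℝ) / 4 / T ^ 3)
      atTop (𝓝 L) := fun K hK => lim_AS K s t hK ht
  have key : ∀ k : ℝ, 2 / 5 < k → ∃ L : ℝ, Tendsto (fun T : ℝ =>
      ((Tr k (T ^ 5) (Pc s t)).ncard : ℝ) / T ^ 3) atTop (𝓝 L) ∧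
      ∀ a : ℝ → ℝ, (∀ᶠ K in atTop, Tendsto (fun T => ((AS K s t T).ncard : ℝ) / 4 / T ^ 3)
        atTop (𝓝 (a K))) → Tendsto a atTop (𝓝 L) := by
    intro k h1
    have hev : ∀ ε : ℝ, 0 < ε → ∀ᶠ K in atTop, ∀ᶠ T in atTop,
        |((Tr k (T ^ 5) (Pc s t)).ncard : ℝ) / T ^ 3 - ((AS K s t T).ncard : ℝ) / 4 / T ^ 3| ≤ ε := by
      intro ε hε
      filter_upwards [transferS k h1 ε hε] with K hK
      filter_upwards [hK s t, eventually_gt_atTop 0] with T hT hT0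
      have hp : 0 < T ^ 3 := by positivity
      rw [← sub_div, abs_div, abs_of_pos hp, div_le_iff₀ hp]
      exact hT
    obtain ⟨L, hL⟩ := exists_lim (fun T : ℝ => ((Tr k (T ^ 5) (Pc s t)).ncard : ℝ) / T ^ 3)
      (fun ε hε => by
        obtain ⟨K, hK, hK0⟩ := ((hev (ε / 2) (by positivity)).and (eventually_gt_atTop 0)).exists
        obtain ⟨L, hL⟩ := hex K hK0
        refine ⟨L, ?_⟩
        have h3 : ∀ᶠ T in atTop, |((AS K s t T).ncard : ℝ) / 4 / T ^ 3 - L| < ε / 2 := by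
          have := (Metric.tendsto_nhds.1 hL) (ε / 2) (by positivity)
          simpa only [Real.dist_eq] using this
        filter_upwards [hK, h3] with T h4 h5
        have h5' := h5.le
        rw [abs_le] at h4 h5' ⊢
        constructor <;> linarith [h4.1, h4.2, h5'.1, h5'.2])
    refine ⟨L, hL, fun a ha => ?_⟩
    rw [Metric.tendsto_nhds]
    intro ε hε
    filter_upwards [hev (ε / 2) (by positivity), ha] with K hK haK
    rw [Real.dist_eq]
    have h6 := (hL.sub haK).abs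
    have h7 := le_of_tendsto h6 hK
    rw [abs_sub_comm]
    linarith
  obtain ⟨L, h1, h2⟩ := key 1 (by norm_num)
  refine ⟨L, fun k h3 => ?_, h2⟩
  obtain ⟨L', h5, h6⟩ := key k h3
  choose! a ha using hex
  have ha' : ∀ᶠ K in atTop, Tendsto (fun T => ((AS K s t T).ncard : ℝ) / 4 / T ^ 3)
      atTop (𝓝 (a K)) := by
    filter_upwards [eventually_gt_atTop 0] with K hK
    exact ha K hK
  have e := tendsto_nhds_unique (h2 a ha') (h6 a ha')
  rw [e]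
  exact h5

theorem AS_zero (K T : ℝ) : AS K 0 1 T =
    Pt (Fn 1 (fun x => ((1 : ℕ) : ℤ) ∣ x - 0) (RegJ 1 1 K)) T (T ^ 2) := by
  unfold AS
  rw [rs_zero K 1 (by norm_num)]

theorem tr_mono (k X : ℝ) (P Q : ℕ × ℕ × ℕ → Prop) (h : ∀ x, P x → Q x) :
    Tr k X P ⊆ Tr k X Q := by
  rintro x ⟨a, b, c, d, e⟩
  exact ⟨a, b, c, d, h x e⟩

/-- **The asymptotic count.** -/
theorem countS (k : ℝ) (hk : 2 / 5 < k) :
    volume (Lev 1 1 1) ≠ ⊤ ∧ Multipliable (fun p : Nat.Primes => lc 1 (3 / 5) (3 / 5) p) ∧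
    0 < ∏' p : Nat.Primes, lc 1 (3 / 5) (3 / 5) p ∧
    Tendsto (fun T : ℝ => ((Tr k (T ^ 5) (Pc 0 1)).ncard : ℝ) / T ^ 3) atTop
      (𝓝 (1 / 4 * ((volume (Lev 1 1 1)).toReal * ∏' p : Nat.Primes, lc 1 (3 / 5) (3 / 5) p))) := by
  obtain ⟨C, hC, hup⟩ := Pool.Agent.T2h82.Sq.upper 1
  have hb1 : ∀ K : ℝ, 1 ≤ K → ∀ L : ℝ, Tendsto (fun T : ℝ =>
      ((Pt (Fn 1 (fun x => ((1 : ℕ) : ℤ) ∣ x - 0) (RegJ 1 1 K)) T (T ^ 2)).ncard : ℝ) /
        (T * T ^ 2)) atTop (𝓝 L) → L ≤ 4 * C + 1 := by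
    intro K hK L hL
    refine le_of_tendsto hL ?_
    filter_upwards [le_four 1 K 0 1 (by norm_num) hK, eventually_ge_atTop 1,
      eventually_ge_atTop (57 * K ^ 2)] with T h3 h4 h5
    have hT0 : 0 < T := by linarith
    have hX : 1 ≤ T ^ 5 := one_le_pow₀ h4
    have e1 : (T ^ 5) ^ (3 / 5 : ℝ) = T ^ 3 := by
      rw [← Real.rpow_natCast T 5, ← Real.rpow_natCast T 3, ← Real.rpow_mul hT0.le]
      norm_num
    have h8 := hup (T ^ 5) hX
    rw [e1] at h8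
    have h9 : ((Tr 1 (T ^ 5) (Pc 0 1)).ncard : ℝ) ≤
        ((Tr 1 (T ^ 5) (fun _ => True)).ncard : ℝ) := by
      exact_mod_cast Set.ncard_le_ncard (tr_mono _ _ _ _ (fun _ _ => trivial)) (tr_finite _ _ _)
    rw [← AS_zero, show T * T ^ 2 = T ^ 3 by ring, div_le_iff₀ (by positivity)]
    have e5 : 57 * K ^ 2 * T ^ 2 ≤ T ^ 3 := by
      have : 0 ≤ T ^ 2 := by positivity
      nlinarith
    linarith
  have hy : Hy 1 0 1 := Or.inl ⟨rfl, rfl⟩
  obtain ⟨hfin, κ, hκ, hl⟩ := const_lim hy 1 le_rfl (4 * C + 1) hb1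
  obtain ⟨-, eu2, eu3⟩ := euler hy (s1 := 3 / 5) (s2 := 3 / 5) (by norm_num) (by norm_num)
    (by norm_num) (by norm_num)
  have ee : ((1 : ℕ) : ℝ) * (3 / (4 + ((1 : ℕ) : ℝ))) = 3 / 5 := by norm_num
  have ee' : (3 / (4 + ((1 : ℕ) : ℝ)) : ℝ) = 3 / 5 := by norm_num
  rw [ee, ee'] at hl
  push_cast at hfin hl
  refine ⟨hfin, eu2, eu3, ?_⟩
  obtain ⟨L, hL1, hL2⟩ := law_limS 0 1 one_ne_zero
  have h3 := hL2 (fun K => κ K / 4) (by
    filter_upwards [eventually_gt_atTop 0] with K hK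
    refine ((hκ K hK).div_const 4).congr (fun T => ?_)
    rw [← AS_zero, show T * T ^ 2 = T ^ 3 by ring]
    ring)
  have h5 := tendsto_nhds_unique h3 (hl.div_const 4)
  have h6 := hL1 k hk
  rw [h5] at h6
  convert h6 using 2
  ring

/-- few points of the box have a small product -/
theorem small_prod (K : ℝ) (hK : 1 ≤ K) (δ T : ℝ) (hδ : 0 < δ) (hT : 1 ≤ T)
    (hT2 : 1 ≤ δ * T) (S : Finset (ℤ × ℤ)) (hS : ∀ q ∈ S, Bx K T q ∧
      (|(q.1 : ℝ)| ≤ δ * T ∨ |(q.2 : ℝ)| ≤ δ * T ^ 2 ∨ |((gf q : ℤ) : ℝ)| ≤ δ * T ^ 2)) :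
    (S.card : ℝ) ≤ 27 * K * δ * T ^ 3 := by
  classical
  have hT0 : 0 < T := by linarith
  have hKT : 1 ≤ K * T := by nlinarith
  have hTT : 1 ≤ T ^ 2 := one_le_pow₀ hT
  have hKT2 : 1 ≤ K * T ^ 2 := by nlinarith
  have hdT : 1 ≤ δ * T ^ 2 := by
    have : δ * T ≤ δ * T ^ 2 := by
      have : T ≤ T ^ 2 := le_self_pow₀ hT (by norm_num)
      gcongr
    linarith
  set I1 : Finset ℤ := Icc (-⌊K * T⌋) ⌊K * T⌋ with hI1
  set I3 : Finset ℤ := Icc (-⌊K * T ^ 2⌋) ⌊K * T ^ 2⌋ with hI3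
  set J1 : Finset ℤ := Icc (-⌊δ * T⌋) ⌊δ * T⌋ with hJ1
  set J2 : Finset ℤ := Icc (-⌊δ * T ^ 2⌋) ⌊δ * T ^ 2⌋ with hJ2
  have c1 : ((I1.card : ℕ) : ℝ) ≤ 3 * (K * T) := by
    have := card_Icc_le (K * T) (by positivity)
    linarith
  have c3 : ((I3.card : ℕ) : ℝ) ≤ 3 * (K * T ^ 2) := by
    have := card_Icc_le (K * T ^ 2) (by positivity)
    linarith
  have d1 : ((J1.card : ℕ) : ℝ) ≤ 3 * (δ * T) := by
    have := card_Icc_le (δ * T) (by positivity)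
    linarith
  have d2 : ((J2.card : ℕ) : ℝ) ≤ 3 * (δ * T ^ 2) := by
    have := card_Icc_le (δ * T ^ 2) (by positivity)
    linarith
  have hsub : S ⊆ (J1 ×ˢ I3) ∪ ((I1 ×ˢ J2) ∪ (I1 ×ˢ J2).image (fun p => (p.1, p.1 ^ 2 - p.2))) := by
    intro q hq
    obtain ⟨⟨b1, b2⟩, b3⟩ := hS q hq
    rw [mem_union, mem_union, mem_product, mem_product, mem_image]
    rcases b3 with b3 | b3 | b3
    · exact Or.inl ⟨mem_Icc_floor b3, mem_Icc_floor b2⟩
    · exact Or.inr (Or.inl ⟨mem_Icc_floor b1, mem_Icc_floor b3⟩)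
    · refine Or.inr (Or.inr ⟨(q.1, gf q), mem_product.2 ⟨mem_Icc_floor b1, mem_Icc_floor b3⟩, ?_⟩)
      refine Prod.ext rfl ?_
      simp only
      unfold gf
      ring
  have e1 := (card_le_card hsub).trans ((card_union_le _ _).trans
    (add_le_add le_rfl ((card_union_le _ _).trans (add_le_add le_rfl card_image_le))))
  rw [card_product, card_product] at e1
  have e2 : (S.card : ℝ) ≤ (J1.card : ℝ) * I3.card + ((I1.card : ℝ) * J2.card +
      (I1.card : ℝ) * J2.card) := by exact_mod_cast e1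
  have f1 : (J1.card : ℝ) * I3.card ≤ (3 * (δ * T)) * (3 * (K * T ^ 2)) := by gcongr
  have f2 : (I1.card : ℝ) * J2.card ≤ (3 * (K * T)) * (3 * (δ * T ^ 2)) := by gcongr
  calc (S.card : ℝ) ≤ (3 * (δ * T)) * (3 * (K * T ^ 2)) + ((3 * (K * T)) * (3 * (δ * T ^ 2)) +
        (3 * (K * T)) * (3 * (δ * T ^ 2))) := e2.trans (add_le_add f1 (add_le_add f2 f2))
    _ = _ := by ring

/-- few pairs have a large quotient -/
theorem farS (K : ℝ) (hK : 1 ≤ K) (ε : ℝ) (hε : 0 < ε) : ∃ t₀ : ℝ, ∀ t : ℝ, t₀ ≤ t →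
    ∀ᶠ T in atTop, ((AS K 0 1 T).ncard : ℝ) ≤ ((AS K 1 t T).ncard : ℝ) + ε * T ^ 3 := by
  classical
  obtain ⟨C, hC, hbad⟩ := bad_all 1 (by norm_num) K (by linarith)
  have hK0 : 0 < K := by linarith
  set D : ℝ := max 1 (4 * C / ε) with hD
  have hD1 : 1 ≤ D := le_max_left _ _
  have hD2 : 4 * C / ε ≤ D := le_max_right _ _
  obtain ⟨W, hW⟩ := exists_nat_ge (max (D ^ 3) 1)
  have hW1 : D ^ 3 ≤ W := (le_max_left _ _).trans hW
  have hW2 : (1 : ℝ) ≤ W := (le_max_right _ _).trans hW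
  have hW0 : (0 : ℝ) < W := by linarith
  set δ : ℝ := ε / (54 * K) with hδ
  have hδ0 : 0 < δ := by positivity
  refine ⟨(W : ℝ) ^ 6 * (2 * K ^ 2) ^ 5 / δ ^ 6, fun t ht => ?_⟩
  have ht0 : 0 < t := lt_of_lt_of_le (by positivity) ht
  filter_upwards [eventually_ge_atTop 1, eventually_ge_atTop (1 / δ),
    eventually_ge_atTop (4 * C / ε)] with T hT1 hT2 hT3
  have hT0 : 0 < T := by linarith
  have hdT : 1 ≤ δ * T := by
    rw [div_le_iff₀ hδ0] at hT2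
    linarith
  have hf := AS_finite K 0 1 T hT0
  have hf' := AS_finite K 1 t T hT0
  set G := (hf.sdiff (t := AS K 1 t T)).toFinset with hG
  have hmem : ∀ q ∈ G, q ∈ AS K 0 1 T ∧ q ∉ AS K 1 t T := by
    intro q hq
    rw [hG, Set.Finite.mem_toFinset] at hq
    exact hq
  set G1 := G.filter (fun q => Bad 1 W q) with hG1
  set G2 := G.filter (fun q => ¬ Bad 1 W q) with hG2
  have b1 : (G1.card : ℝ) ≤ ε / 2 * T ^ 3 := by
    have h1 := hbad D W T hD1 hW1 hT1 G1 (fun q hq => by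
      rw [hG1, mem_filter] at hq
      have := ((mem_AS hT0 q).1 (hmem q hq.1).1).2.1
      exact ⟨this.1, this.2, hq.2⟩)
    refine h1.trans ?_
    have e1 : C * (T ^ 3 / D) ≤ ε / 4 * T ^ 3 := by
      have : C / D ≤ ε / 4 := by
        rw [div_le_iff₀ (by linarith)]
        rw [div_le_iff₀ hε] at hD2
        linarith
      calc C * (T ^ 3 / D) = (C / D) * T ^ 3 := by ring
        _ ≤ _ := by gcongr
    have e2 : C * T ^ 2 ≤ ε / 4 * T ^ 3 := by
      rw [div_le_iff₀ hε] at hT3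
      have h0 : 0 ≤ T ^ 2 := by positivity
      nlinarith
    calc C * (T ^ 3 / D + T ^ 2) = C * (T ^ 3 / D) + C * T ^ 2 := by ring
      _ ≤ ε / 4 * T ^ 3 + ε / 4 * T ^ 3 := add_le_add e1 e2
      _ = _ := by ring
  have b2 : (G2.card : ℝ) ≤ ε / 2 * T ^ 3 := by
    have h1 := small_prod K hK δ T hδ0 hT1 hdT G2 (fun q hq => by
      rw [hG2, mem_filter] at hq
      obtain ⟨q1, q2⟩ := hmem q hq.1
      obtain ⟨hP, hB, hR, -⟩ := (mem_AS hT0 q).1 q1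
      refine ⟨hB, ?_⟩
      by_contra hcon
      push Not at hcon
      obtain ⟨c1, c2, c3⟩ := hcon
      apply q2
      rw [mem_AS hT0]
      refine ⟨hP, hB, hR, ?_⟩
      rw [pc_iff hP, one_mul]
      have hbd := hq.2
      unfold Bad at hbd
      push Not at hbd
      have hfl : fl 1 q = gf q := by
        unfold fl gf
        ring
      rw [hfl] at hbd
      obtain ⟨-, -, -, w1, w2, w3, -⟩ := hbd
      have k1 : ew (pw q.1.natAbs) ≤ W := by
        have h0 : (1 : ℝ) ≤ rad (pw q.1.natAbs) := by exact_mod_cast rad_pos _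
        unfold ew
        exact (div_le_self (by positivity) h0).trans (by exact_mod_cast w1)
      have k2 : ew (pw q.2.natAbs) ≤ W := by
        have h0 : (1 : ℝ) ≤ rad (pw q.2.natAbs) := by exact_mod_cast rad_pos _
        unfold ew
        exact (div_le_self (by positivity) h0).trans (by exact_mod_cast w2)
      have k3 : ew (pw (gf q).natAbs) ≤ W := by
        have h0 : (1 : ℝ) ≤ rad (pw (gf q).natAbs) := by exact_mod_cast rad_pos _
        unfold ew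
        exact (div_le_self (by positivity) h0).trans (by exact_mod_cast w3)
      have n1 := ew_nonneg (pw q.1.natAbs)
      have n2 := ew_nonneg (pw q.2.natAbs)
      have n3 := ew_nonneg (pw (gf q).natAbs)
      have hw : wq q ^ 2 ≤ (W : ℝ) ^ 6 := by
        unfold wq ws
        calc (ew (pw q.1.natAbs) ^ 1 * (ew (pw q.2.natAbs) * ew (pw (gf q).natAbs))) ^ 2
            ≤ ((W : ℝ) ^ 1 * (W * W)) ^ 2 := by gcongr
          _ = _ := by ring
      have hm : mx ((q.1 : ℝ), (q.2 : ℝ)) ≤ 2 * K ^ 2 * T ^ 2 := by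
        unfold mx
        simp only
        obtain ⟨c1, c2⟩ := hB
        have k0 := sq_nonneg (q.1 : ℝ)
        have k1 : (q.1 : ℝ) ^ 2 ≤ K ^ 2 * T ^ 2 := by
          have := sq_le_sq' (abs_le.1 c1).1 (abs_le.1 c1).2
          rw [mul_pow] at this
          exact this
        have k2 : |(q.2 : ℝ)| ≤ K ^ 2 * T ^ 2 := by
          refine c2.trans ?_
          have : K ≤ K ^ 2 := le_self_pow₀ hK (by norm_num)
          gcongr
        have k3 := abs_le.1 k2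
        refine max_le (by linarith) (max_le (by linarith) ?_)
        rw [abs_le]
        constructor <;> linarith [k3.1, k3.2]
      have hm0 : 0 ≤ mx ((q.1 : ℝ), (q.2 : ℝ)) := by
        unfold mx
        exact (sq_nonneg _).trans (le_max_left _ _)
      have hfr : ((gf q : ℤ) : ℝ) = (q.1 : ℝ) ^ 2 - q.2 := by
        unfold gf
        push_cast
        rfl
      have hlow : δ ^ 6 * T ^ 10 ≤ ((q.1 : ℝ) * ((q.2 : ℝ) * ((q.1 : ℝ) ^ 2 - q.2))) ^ 2 := by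
        rw [← hfr, ← sq_abs, abs_mul, abs_mul]
        calc δ ^ 6 * T ^ 10 = ((δ * T) * ((δ * T ^ 2) * (δ * T ^ 2))) ^ 2 := by ring
          _ ≤ (|(q.1 : ℝ)| * (|(q.2 : ℝ)| * |((gf q : ℤ) : ℝ)|)) ^ 2 := by gcongr
      calc wq q ^ 2 * mx ((q.1 : ℝ), (q.2 : ℝ)) ^ 5 ≤ (W : ℝ) ^ 6 * (2 * K ^ 2 * T ^ 2) ^ 5 := by
            gcongr
        _ = ((W : ℝ) ^ 6 * (2 * K ^ 2) ^ 5 / δ ^ 6) * (δ ^ 6 * T ^ 10) := by
            field_simp
        _ ≤ t * ((q.1 : ℝ) * ((q.2 : ℝ) * ((q.1 : ℝ) ^ 2 - q.2))) ^ 2 := by gcongr)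
    refine h1.trans (le_of_eq ?_)
    rw [hδ]
    field_simp
    ring
  have e0 : (G.card : ℝ) = (G1.card : ℝ) + (G2.card : ℝ) := by
    rw [← Nat.cast_add, card_filter_add_card_filter_not]
  have g1' : (AS K 0 1 T).ncard ≤ (AS K 1 t T).ncard + G.card := by
    have h1 := Set.ncard_le_ncard_sdiff_add_ncard (AS K 0 1 T) (AS K 1 t T) hf'
    have h2 : (AS K 0 1 T \ AS K 1 t T).ncard = G.card := by
      rw [Set.ncard_eq_toFinset_card _ (hf.sdiff (t := AS K 1 t T))]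
    omega
  have g2' : ((AS K 0 1 T).ncard : ℝ) ≤ ((AS K 1 t T).ncard : ℝ) + G.card := by
    exact_mod_cast g1'
  linarith

end Pool.Agent.T2h82.As
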