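import Pool.Agent.T2h82.As.Arith

/-!
# The limit of the number of the pairs in regions given by the powerful parts
-/

set_option autoImplicit false

namespace Pool.Agent.T2h82.As

open Finset Filter Topology
open Pool.Agent.T2h82 (pw pw_pos pw_dvd sr sr_pos card_sr card_natAbs pw_le_sr)
open scoped Nat

/-- the pairs which the truncation does not see -/
def Bad (l : ℤ) (W : ℕ) (q : ℤ × ℤ) : Prop :=
  q.1 = 0 ∨ q.2 = 0 ∨ fl l q = 0 ∨ W < pw q.1.natAbs ∨ W < pw q.2.natAbs ∨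
    W < pw (fl l q).natAbs ∨ ∃ p : ℕ, W < p ∧ (p : ℤ) ∣ q.1 ∧ (p : ℤ) ∣ q.2

theorem pw_zero : pw 0 = 1 := by
  unfold pw
  simp

theorem bad_all (l : ℤ) (hl : l ≠ 0) (K : ℝ) (hK : 0 < K) : ∃ C : ℝ, 0 < C ∧
    ∀ (D : ℝ) (W : ℕ) (T : ℝ), 1 ≤ D → D ^ 3 ≤ W → 1 ≤ T → ∀ S : Finset (ℤ × ℤ),
      (∀ q ∈ S, |(q.1 : ℝ)| ≤ K * T ∧ |(q.2 : ℝ)| ≤ K * T ^ 2 ∧ Bad l W q) →
      (S.card : ℝ) ≤ C * (T ^ 3 / D + T ^ 2) := by
  classical
  set K' : ℝ := K ^ 2 + |(l : ℝ)| * K with hK'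
  have hK'0 : 0 ≤ K' := by positivity
  set c1 : ℝ := 3 * (2 * K + 1) with hc1
  set c2 : ℝ := 4 * K * (2 * K + 1) + (2 * K + 1) * (4 * K) + (2 * K + 1) * (4 * K') + 8 * K ^ 2
    with hc2
  refine ⟨c1 + c2, by positivity, ?_⟩
  intro D W T hD hDW hT S hS
  have hD0 : 0 < D := by linarith
  have hT0 : 0 < T := by linarith
  have hW1 : (1 : ℝ) ≤ W := le_trans (one_le_pow₀ hD) hDW
  have hW1' : 1 ≤ W := by exact_mod_cast hW1
  set A : ℕ := ⌊K * T⌋₊ with hA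
  set U : ℕ := ⌊K * T ^ 2⌋₊ with hU
  set V : ℕ := A ^ 2 + l.natAbs * U with hV
  have hAr : (A : ℝ) ≤ K * T := Nat.floor_le (by positivity)
  have hUr : (U : ℝ) ≤ K * T ^ 2 := Nat.floor_le (by positivity)
  have hVr : (V : ℝ) ≤ K' * T ^ 2 := by
    rw [hV, hK']
    push_cast
    have e1 : ((l.natAbs : ℕ) : ℝ) = |(l : ℝ)| := by rw [Nat.cast_natAbs]; push_cast; rfl
    rw [e1]
    have e2 : (A : ℝ) ^ 2 ≤ (K * T) ^ 2 := pow_le_pow_left₀ (by positivity) hAr 2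
    have e3 : |(l : ℝ)| * U ≤ |(l : ℝ)| * (K * T ^ 2) := by gcongr
    nlinarith
  have hnA : ∀ q ∈ S, q.1.natAbs ≤ A := by
    intro q hq
    rw [hA]
    refine Nat.le_floor ?_
    rw [Nat.cast_natAbs]
    push_cast
    exact (hS q hq).1
  have hnU : ∀ q ∈ S, q.2.natAbs ≤ U := by
    intro q hq
    rw [hU]
    refine Nat.le_floor ?_
    rw [Nat.cast_natAbs]
    push_cast
    exact (hS q hq).2.1
  have hnV : ∀ q ∈ S, (fl l q).natAbs ≤ V := by
    intro q hq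
    have h1 := hnA q hq
    have h2 := hnU q hq
    unfold fl
    calc (q.1 ^ 2 - l * q.2).natAbs ≤ (q.1 ^ 2).natAbs + (l * q.2).natAbs :=
          Int.natAbs_sub_le _ _
      _ = q.1.natAbs ^ 2 + l.natAbs * q.2.natAbs := by rw [Int.natAbs_pow, Int.natAbs_mul]
      _ ≤ A ^ 2 + l.natAbs * U := by gcongr
  have hsr : ∀ n : ℕ, W < pw n → D < (sr n : ℝ) := by
    intro n hn
    have h1 : ((pw n : ℕ) : ℝ) ≤ (sr n : ℝ) ^ 3 := by exact_mod_cast pw_le_sr n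
    have h3 : (W : ℝ) < pw n := by exact_mod_cast hn
    have h2 : D ^ 3 < (sr n : ℝ) ^ 3 := by linarith
    exact lt_of_pow_lt_pow_left₀ 3 (by positivity) h2
  have hne : ∀ n : ℤ, W < pw n.natAbs → n ≠ 0 := by
    rintro n hn rfl
    rw [Int.natAbs_zero, pw_zero] at hn
    omega
  set IA : Finset ℤ := Icc (-(A : ℤ)) A with hIA
  set IU : Finset ℤ := Icc (-(U : ℤ)) U with hIU
  have hmA : ∀ q ∈ S, q.1 ∈ IA := by
    intro q hq
    have := hnA q hq
    rw [hIA, mem_Icc]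
    omega
  have hmU : ∀ q ∈ S, q.2 ∈ IU := by
    intro q hq
    have := hnU q hq
    rw [hIU, mem_Icc]
    omega
  have hcA : ((IA.card : ℕ) : ℝ) ≤ (2 * K + 1) * T := by
    rw [hIA, card_box]
    nlinarith
  have hcU : ((IU.card : ℕ) : ℝ) ≤ (2 * K + 1) * T ^ 2 := by
    rw [hIU, card_box]
    have : 1 ≤ T ^ 2 := one_le_pow₀ hT
    nlinarith
  -- the seven parts
  have b1 : ((S.filter (fun q => q.1 = 0)).card : ℝ) ≤ (2 * K + 1) * T ^ 2 := by
    have := card_prod_le (S.filter (fun q => q.1 = 0)) {0} IU (fun q hq => by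
      rw [mem_filter] at hq
      exact ⟨by rw [mem_singleton]; exact hq.2, hmU q hq.1⟩) 1 _ (by simp) hcU
    linarith
  have b2 : ((S.filter (fun q => q.2 = 0)).card : ℝ) ≤ (2 * K + 1) * T := by
    have := card_prod_le (S.filter (fun q => q.2 = 0)) IA {0} (fun q hq => by
      rw [mem_filter] at hq
      exact ⟨hmA q hq.1, by rw [mem_singleton]; exact hq.2⟩) _ 1 hcA (by simp)
    linarith
  have b3 : ((S.filter (fun q => fl l q = 0)).card : ℝ) ≤ (2 * K + 1) * T := by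
    have h1 : (S.filter (fun q => fl l q = 0)).card ≤ IA.card := by
      refine card_le_card_of_injOn Prod.fst ?_ ?_
      · intro q hq
        rw [mem_coe, mem_filter] at hq
        exact hmA q hq.1
      · intro q hq q' hq' hqq
        rw [mem_coe, mem_filter] at hq hq'
        have e1 := hq.2
        have e2 := hq'.2
        unfold fl at e1 e2
        rw [hqq] at e1
        have e3 : l * q.2 = l * q'.2 := by linarith
        exact Prod.ext hqq (mul_left_cancel₀ hl e3)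
    have h2 : ((S.filter (fun q => fl l q = 0)).card : ℝ) ≤ (IA.card : ℝ) := by exact_mod_cast h1
    exact h2.trans hcA
  have hbi : ∀ (M : ℕ), ((((Icc (-(M : ℤ)) M).filter
      (fun u => u ≠ 0 ∧ D < (sr u.natAbs : ℝ))).card : ℕ) : ℝ) ≤ 4 * M / D := by
    intro M
    refine bad_int M D hD0 _ (fun u hu => ?_)
    rw [mem_filter, mem_Icc] at hu
    exact ⟨hu.2.1, by omega, hu.2.2⟩
  have b4 : ((S.filter (fun q => W < pw q.1.natAbs)).card : ℝ) ≤
      (4 * (K * T) / D) * ((2 * K + 1) * T ^ 2) := by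
    refine card_prod_le _ _ IU (fun q hq => ?_) _ _ ((hbi A).trans (by gcongr)) hcU
    rw [mem_filter] at hq
    refine ⟨?_, hmU q hq.1⟩
    rw [mem_filter]
    exact ⟨hmA q hq.1, hne _ hq.2, hsr _ hq.2⟩
  have b5 : ((S.filter (fun q => W < pw q.2.natAbs)).card : ℝ) ≤
      ((2 * K + 1) * T) * (4 * (K * T ^ 2) / D) := by
    refine card_prod_le _ IA _ (fun q hq => ?_) _ _ hcA ((hbi U).trans (by gcongr))
    rw [mem_filter] at hq
    refine ⟨hmA q hq.1, ?_⟩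
    rw [mem_filter]
    exact ⟨hmU q hq.1, hne _ hq.2, hsr _ hq.2⟩
  have b6 : ((S.filter (fun q => W < pw (fl l q).natAbs)).card : ℝ) ≤
      ((2 * K + 1) * T) * (4 * (K' * T ^ 2) / D) := by
    have h1 : (S.filter (fun q => W < pw (fl l q).natAbs)).card =
        ((S.filter (fun q => W < pw (fl l q).natAbs)).image (fun q => (q.1, fl l q))).card := by
      rw [card_image_of_injective]
      intro q q' hqq
      unfold fl at hqq
      simp only [Prod.mk.injEq] at hqq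
      obtain ⟨e1, e2⟩ := hqq
      rw [e1] at e2
      have e3 : l * q.2 = l * q'.2 := by linarith
      exact Prod.ext e1 (mul_left_cancel₀ hl e3)
    rw [h1]
    refine card_prod_le _ IA _ (fun q hq => ?_) _ _ hcA ((hbi V).trans (by gcongr))
    rw [mem_image] at hq
    obtain ⟨q', hq', rfl⟩ := hq
    rw [mem_filter] at hq'
    refine ⟨hmA q' hq'.1, ?_⟩
    rw [mem_filter, mem_Icc]
    have := hnV q' hq'.1
    exact ⟨⟨by omega, by omega⟩, hne _ hq'.2, hsr _ hq'.2⟩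
  have b7 : ((S.filter (fun q => q.1 ≠ 0 ∧ q.2 ≠ 0 ∧ ∃ p : ℕ, W < p ∧ (p : ℤ) ∣ q.1 ∧
      (p : ℤ) ∣ q.2)).card : ℝ) ≤ 8 * (K * T) * (K * T ^ 2) / D := by
    refine (bad_cop A U W _ (fun q hq => ?_)).trans ?_
    · rw [mem_filter] at hq
      exact ⟨hq.2.1, hq.2.2.1, hnA q hq.1, hnU q hq.1, hq.2.2.2⟩
    · have h1 : D ≤ (W : ℝ) + 1 := by
        have : D ≤ D ^ 3 := le_self_pow₀ hD (by norm_num)
        linarith
      gcongr
  have hsub : S ⊆ S.filter (fun q => q.1 = 0) ∪ (S.filter (fun q => q.2 = 0) ∪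
      (S.filter (fun q => fl l q = 0) ∪ (S.filter (fun q => W < pw q.1.natAbs) ∪
      (S.filter (fun q => W < pw q.2.natAbs) ∪ (S.filter (fun q => W < pw (fl l q).natAbs) ∪
      S.filter (fun q => q.1 ≠ 0 ∧ q.2 ≠ 0 ∧ ∃ p : ℕ, W < p ∧ (p : ℤ) ∣ q.1 ∧
      (p : ℤ) ∣ q.2)))))) := by
    intro q hq
    have hb := (hS q hq).2.2
    simp only [mem_union, mem_filter]
    by_cases e1 : q.1 = 0
    · exact Or.inl ⟨hq, e1⟩
    by_cases e2 : q.2 = 0
    · exact Or.inr (Or.inl ⟨hq, e2⟩)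
    rcases hb with h | h | h | h | h | h | h
    · exact absurd h e1
    · exact absurd h e2
    · exact Or.inr (Or.inr (Or.inl ⟨hq, h⟩))
    · exact Or.inr (Or.inr (Or.inr (Or.inl ⟨hq, h⟩)))
    · exact Or.inr (Or.inr (Or.inr (Or.inr (Or.inl ⟨hq, h⟩))))
    · exact Or.inr (Or.inr (Or.inr (Or.inr (Or.inr (Or.inl ⟨hq, h⟩)))))
    · exact Or.inr (Or.inr (Or.inr (Or.inr (Or.inr (Or.inr ⟨hq, e1, e2, h⟩)))))
  have htot : (S.card : ℝ) ≤ (2 * K + 1) * T ^ 2 + ((2 * K + 1) * T + ((2 * K + 1) * T +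
      ((4 * (K * T) / D) * ((2 * K + 1) * T ^ 2) + (((2 * K + 1) * T) * (4 * (K * T ^ 2) / D) +
      (((2 * K + 1) * T) * (4 * (K' * T ^ 2) / D) + 8 * (K * T) * (K * T ^ 2) / D))))) := by
    have u := fun (X Y : Finset (ℤ × ℤ)) => (by exact_mod_cast card_union_le X Y :
      ((X ∪ Y).card : ℝ) ≤ (X.card : ℝ) + (Y.card : ℝ))
    refine (Nat.cast_le.2 (card_le_card hsub)).trans ((u _ _).trans (add_le_add b1 ?_))
    refine (u _ _).trans (add_le_add b2 ?_)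
    refine (u _ _).trans (add_le_add b3 ?_)
    refine (u _ _).trans (add_le_add b4 ?_)
    refine (u _ _).trans (add_le_add b5 ?_)
    exact (u _ _).trans (add_le_add b6 b7)
  have hTT : T ≤ T ^ 2 := le_self_pow₀ hT (by norm_num)
  have e1 : (2 * K + 1) * T ≤ (2 * K + 1) * T ^ 2 := by gcongr
  have hT3 : 0 ≤ T ^ 3 / D := by positivity
  have e2 : (4 * (K * T) / D) * ((2 * K + 1) * T ^ 2) + (((2 * K + 1) * T) * (4 * (K * T ^ 2) / D) +
      (((2 * K + 1) * T) * (4 * (K' * T ^ 2) / D) + 8 * (K * T) * (K * T ^ 2) / D)) =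
      c2 * (T ^ 3 / D) := by
    rw [hc2]
    ring
  have e3 : 0 ≤ c1 * (T ^ 3 / D) := by positivity
  have e4 : 0 ≤ c2 * T ^ 2 := by positivity
  have e5 : c1 * T ^ 2 = 3 * ((2 * K + 1) * T ^ 2) := by rw [hc1]; ring
  nlinarith

open Classical in
/-- the region attached to a pair -/
noncomputable def Fn (l : ℤ) (P : ℤ → Prop) (Reg : ℕ → ℕ → ℕ → Set (ℝ × ℝ)) (x u : ℤ) :
    Set (ℝ × ℝ) :=
  if x ≠ 0 ∧ u ≠ 0 ∧ fl l (x, u) ≠ 0 ∧ IsCoprime x u ∧ P x then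
    Reg (pw x.natAbs) (pw u.natAbs) (pw (fl l (x, u)).natAbs) else ∅

open Classical in
/-- the truncated region -/
noncomputable def Gn (l : ℤ) (P : ℤ → Prop) (Reg : ℕ → ℕ → ℕ → Set (ℝ × ℝ)) (W : ℕ) (x u : ℤ) :
    Set (ℝ × ℝ) :=
  if Nat.Coprime (Int.gcd x (W ! : ℤ)) (Int.gcd u (W ! : ℤ)) ∧ P x then
    Reg (pw (Int.gcd x (W ! : ℤ))) (pw (Int.gcd u (W ! : ℤ)))
      (pw (Int.gcd (fl l (x, u)) (W ! : ℤ))) else ∅

theorem gn_per (l : ℤ) (P : ℤ → Prop) (Reg : ℕ → ℕ → ℕ → Set (ℝ × ℝ)) (W d : ℕ)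
    (hP : ∀ x i : ℤ, P (x + d * i) ↔ P x) (x u i j : ℤ) :
    Gn l P Reg W (x + (W ! * d : ℕ) * i) (u + (W ! * d : ℕ) * j) = Gn l P Reg W x u := by
  have h1 : Int.gcd (x + (W ! * d : ℕ) * i) (W ! : ℤ) = Int.gcd x (W ! : ℤ) := by
    have : x + (W ! * d : ℕ) * i = x + (W ! : ℤ) * (d * i) := by push_cast; ring
    rw [this, Int.gcd_add_mul_left_left]
  have h2 : Int.gcd (u + (W ! * d : ℕ) * j) (W ! : ℤ) = Int.gcd u (W ! : ℤ) := by
    have : u + (W ! * d : ℕ) * j = u + (W ! : ℤ) * (d * j) := by push_cast; ring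
    rw [this, Int.gcd_add_mul_left_left]
  have h3 : Int.gcd (fl l (x + (W ! * d : ℕ) * i, u + (W ! * d : ℕ) * j)) (W ! : ℤ) =
      Int.gcd (fl l (x, u)) (W ! : ℤ) := by
    have : fl l (x + (W ! * d : ℕ) * i, u + (W ! * d : ℕ) * j) = fl l (x, u) +
        (W ! : ℤ) * (2 * x * d * i + (W ! : ℤ) * d ^ 2 * i ^ 2 - l * d * j) := by
      unfold fl
      push_cast
      ring
    rw [this, Int.gcd_add_mul_left_left]
  have h4 : P (x + (W ! * d : ℕ) * i) ↔ P x := by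
    have : x + (W ! * d : ℕ) * i = x + d * ((W ! : ℤ) * i) := by push_cast; ring
    rw [this, hP]
  have h5 := propext h4
  unfold Gn
  rw [h1, h2, h3, h5]

theorem fn_eq_gn (l : ℤ) (P : ℤ → Prop) (Reg : ℕ → ℕ → ℕ → Set (ℝ × ℝ)) (W : ℕ) (x u : ℤ)
    (h : ¬ Bad l W (x, u)) : Fn l P Reg x u = Gn l P Reg W x u := by
  unfold Bad at h
  push Not at h
  obtain ⟨hx, hu, hf, h1, h2, h3, h4⟩ := h
  have g : ∀ n : ℤ, n ≠ 0 → pw n.natAbs ≤ W → pw (Int.gcd n (W ! : ℤ)) = pw n.natAbs := by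
    intro n hn hw
    rw [Int.gcd_eq_natAbs_gcd_natAbs, Int.natAbs_natCast]
    exact pw_gcd (by omega) hw
  have hc : IsCoprime x u ↔ Nat.Coprime (Int.gcd x (W ! : ℤ)) (Int.gcd u (W ! : ℤ)) := by
    constructor
    · intro hc
      have : Nat.Coprime x.natAbs u.natAbs := Int.isCoprime_iff_gcd_eq_one.1 hc
      refine Nat.Coprime.coprime_dvd_left ?_ (Nat.Coprime.coprime_dvd_right ?_ this)
      · rw [Int.gcd_eq_natAbs_gcd_natAbs]
        exact Nat.gcd_dvd_left _ _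
      · rw [Int.gcd_eq_natAbs_gcd_natAbs]
        exact Nat.gcd_dvd_left _ _
    · intro hc
      rw [Int.isCoprime_iff_gcd_eq_one, Int.gcd_eq_natAbs_gcd_natAbs]
      by_contra hne
      obtain ⟨p, hp, hd⟩ := Nat.exists_prime_and_dvd hne
      have d1 : p ∣ x.natAbs := hd.trans (Nat.gcd_dvd_left _ _)
      have d2 : p ∣ u.natAbs := hd.trans (Nat.gcd_dvd_right _ _)
      rcases Nat.lt_or_ge W p with hlt | hle
      · exact h4 p hlt (Int.natCast_dvd.2 d1) (Int.natCast_dvd.2 d2)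
      · have d3 : p ∣ W ! := Nat.dvd_factorial hp.pos hle
        have d4 : p ∣ Nat.gcd (Int.gcd x (W ! : ℤ)) (Int.gcd u (W ! : ℤ)) := by
          refine Nat.dvd_gcd ?_ ?_
          · rw [Int.gcd_eq_natAbs_gcd_natAbs, Int.natAbs_natCast]
            exact Nat.dvd_gcd d1 d3
          · rw [Int.gcd_eq_natAbs_gcd_natAbs, Int.natAbs_natCast]
            exact Nat.dvd_gcd d2 d3
        rw [Nat.Coprime] at hc
        rw [hc] at d4
        exact hp.one_lt.ne' (Nat.dvd_one.1 d4)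
  unfold Fn Gn
  rw [g x hx h1, g u hu h2, g _ hf h3]
  by_cases hcc : Nat.Coprime (Int.gcd x (W ! : ℤ)) (Int.gcd u (W ! : ℤ)) ∧ P x
  · rw [if_pos ⟨hx, hu, hf, hc.2 hcc.1, hcc.2⟩, if_pos hcc]
  · rw [if_neg hcc, if_neg]
    rintro ⟨-, -, -, k1, k2⟩
    exact hcc ⟨hc.1 k1, k2⟩

/-- **The limit exists.** -/
theorem lim_pairs (l : ℤ) (hl : l ≠ 0) (P : ℤ → Prop) (d : ℕ) (hd : 0 < d)
    (hP : ∀ x i : ℤ, P (x + d * i) ↔ P x) (Reg : ℕ → ℕ → ℕ → Set (ℝ × ℝ))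
    (hn : ∀ v w z, Nice (Reg v w z)) (K : ℝ) (hK : 0 < K)
    (hB : ∀ v w z, Reg v w z ⊆ Set.Icc (-K) K ×ˢ Set.Icc (-K) K) :
    ∃ L : ℝ, Tendsto (fun T : ℝ => ((Pt (Fn l P Reg) T (T ^ 2)).ncard : ℝ) / (T * T ^ 2)) atTop
      (𝓝 L) := by
  classical
  have hbdd : Bornology.IsBounded (Set.Icc (-K) K ×ˢ Set.Icc (-K) K : Set (ℝ × ℝ)) :=
    (nice_box K K).bdd
  obtain ⟨C, hC, hbad⟩ := bad_all l hl K hK
  refine equi_ap (Fn l P Reg) _ hbdd (fun x u => ?_) (fun T => T) (fun T => T ^ 2) tendsto_id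
    (tendsto_pow_atTop (by norm_num)) (fun ε hε => ?_)
  · unfold Fn
    split_ifs
    · exact hB _ _ _
    · exact Set.empty_subset _
  · obtain ⟨D, hD1, hD2⟩ : ∃ D : ℝ, 1 ≤ D ∧ 2 * C / ε ≤ D := ⟨max 1 (2 * C / ε), le_max_left _ _,
      le_max_right _ _⟩
    obtain ⟨W, hW⟩ := exists_nat_ge (D ^ 3)
    refine ⟨W ! * d, Nat.mul_pos (Nat.factorial_pos _) hd, Gn l P Reg W, fun x u => ?_,
      fun x u => ?_, fun x u i j => gn_per l P Reg W d hP x u i j, ?_⟩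
    · unfold Gn
      split_ifs
      · exact hn _ _ _
      · exact Nice.empty
    · unfold Gn
      split_ifs
      · exact hB _ _ _
      · exact Set.empty_subset _
    · filter_upwards [eventually_ge_atTop (max 1 (2 * C / ε))] with T hT
      have hT1 : 1 ≤ T := (le_max_left _ _).trans hT
      have hT2 : 2 * C / ε ≤ T := (le_max_right _ _).trans hT
      have hT0 : 0 < T := by linarith
      have hfin : {p : ℤ × ℤ | ((p.1 : ℝ) / T, (p.2 : ℝ) / T ^ 2) ∈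
          (Set.Icc (-K) K ×ˢ Set.Icc (-K) K : Set (ℝ × ℝ)) ∧
          Fn l P Reg p.1 p.2 ≠ Gn l P Reg W p.1 p.2}.Finite :=
        (pt_finite (fun _ _ => Set.Icc (-K) K ×ˢ Set.Icc (-K) K) _ hbdd
          (fun _ _ => subset_rfl) hT0 (by positivity : (0 : ℝ) < T ^ 2)).subset (fun p hp => hp.1)
      rw [Set.ncard_eq_toFinset_card _ hfin]
      have h1 := hbad D W T hD1 hW hT1 hfin.toFinset (fun q hq => by
        rw [Set.Finite.mem_toFinset] at hq
        obtain ⟨⟨k1, k2⟩, k3⟩ := hq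
        simp only [Set.mem_Icc] at k1 k2
        refine ⟨?_, ?_, ?_⟩
        · rw [← abs_le, abs_div, abs_of_pos hT0, div_le_iff₀ hT0] at k1
          exact k1
        · rw [← abs_le, abs_div, abs_of_pos (by positivity : (0 : ℝ) < T ^ 2),
            div_le_iff₀ (by positivity)] at k2
          exact k2
        · by_contra hb
          exact k3 (fn_eq_gn l P Reg W q.1 q.2 hb))
      refine h1.trans ?_
      have h2 : C * (T ^ 3 / D) ≤ ε / 2 * T ^ 3 := by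
        have h3 : C / D ≤ ε / 2 := by
          rw [div_le_iff₀ (by linarith)]
          rw [div_le_iff₀ hε] at hD2
          linarith
        calc C * (T ^ 3 / D) = (C / D) * T ^ 3 := by ring
          _ ≤ _ := by gcongr
      have h4 : C * T ^ 2 ≤ ε / 2 * T ^ 3 := by
        rw [div_le_iff₀ hε] at hT2
        have : 0 ≤ T ^ 2 := by positivity
        nlinarith
      calc C * (T ^ 3 / D + T ^ 2) = C * (T ^ 3 / D) + C * T ^ 2 := by ring
        _ ≤ ε / 2 * T ^ 3 + ε / 2 * T ^ 3 := add_le_add h2 h4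
        _ = _ := by ring

end Pool.Agent.T2h82.As
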