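import Pool.Agent.T2h82.As.Mul

/-!
# The local factors
-/

set_option autoImplicit false

namespace Pool.Agent.T2h82.As

open Finset Filter Topology
open Pool.Agent.H328R2.ABC (rad rad_pos)
open Pool.Agent.T2h82 (pw pw_pos mul_rad_eq)
open scoped Nat

/-- `(n / rad n) ^ s` -/
noncomputable def Es (s : ℝ) (n : ℕ) : ℝ := ew (pw n) ^ s

theorem ew_pw {n : ℕ} (hn : n ≠ 0) : ew (pw n) = (n : ℝ) / rad n := by
  have h1 : (0 : ℝ) < rad n := by exact_mod_cast rad_pos _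
  rw [eq_div_iff h1.ne', mul_comm]
  exact rad_ew hn

theorem rad_mul_cop {m n : ℕ} (hm : m ≠ 0) (hn : n ≠ 0) (h : Nat.Coprime m n) :
    rad (m * n) = rad m * rad n := by
  unfold rad
  rw [Nat.primeFactors_mul hm hn, prod_union h.disjoint_primeFactors]

theorem rad_pp {p : ℕ} (hp : p.Prime) (j : ℕ) : rad (p ^ (j + 1)) = p := by
  unfold rad
  rw [Nat.primeFactors_prime_pow (Nat.succ_ne_zero j) hp, prod_singleton]

theorem es_one (s : ℝ) : Es s 1 = 1 := by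
  unfold Es
  rw [ew_pw one_ne_zero]
  have : rad 1 = 1 := by unfold rad; simp
  rw [this]
  simp

theorem es_mu (s : ℝ) : Mu (Es s) := by
  refine ⟨es_one s, fun m n hm hn h => ?_⟩
  unfold Es
  rw [← Real.mul_rpow (ew_nonneg _) (ew_nonneg _), ew_pw (mul_ne_zero hm hn), ew_pw hm, ew_pw hn,
    rad_mul_cop hm hn h]
  congr 1
  push_cast
  rw [div_mul_div_comm]

theorem es_pp (s : ℝ) {p : ℕ} (hp : p.Prime) (j : ℕ) : Es s (p ^ (j + 1)) = ((p : ℝ) ^ j) ^ s := by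
  unfold Es
  rw [ew_pw (pow_ne_zero _ hp.ne_zero), rad_pp hp]
  have : (p : ℝ) ≠ 0 := by exact_mod_cast hp.ne_zero
  congr 1
  push_cast
  rw [pow_succ]
  field_simp

/-- the sum over the classes -/
noncomputable def BB (s : ℝ) (q : ℕ) : ℝ := ∑ y ∈ range q, Es s (Nat.gcd y q)

noncomputable def bb (s : ℝ) (q : ℕ) : ℝ := ∑ y ∈ range q, ((Nat.gcd y q : ℕ) : ℝ) ^ s

theorem sum_split {p : ℕ} (hp : 0 < p) (k : ℕ) (F : ℕ → ℝ) : ∑ y ∈ range (p ^ (k + 1)), F y =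
    ∑ y ∈ (range (p ^ (k + 1))).filter (fun y => ¬ p ∣ y), F y + ∑ y ∈ range (p ^ k), F (p * y) := by
  rw [← sum_filter_add_sum_filter_not (range (p ^ (k + 1))) (fun y => ¬ p ∣ y)]
  congr 1
  symm
  refine sum_bij (fun y _ => p * y) ?_ ?_ ?_ (fun _ _ => rfl)
  · intro y hy
    rw [mem_range] at hy
    rw [mem_filter, mem_range, not_not]
    refine ⟨?_, dvd_mul_right _ _⟩
    rw [pow_succ, mul_comm]
    exact Nat.mul_lt_mul_of_pos_right hy hp
  · intro y _ y' _ h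
    exact Nat.eq_of_mul_eq_mul_left hp h
  · intro y hy
    rw [mem_filter, mem_range, not_not] at hy
    obtain ⟨h1, z, rfl⟩ := hy
    refine ⟨z, ?_, rfl⟩
    rw [mem_range]
    rw [pow_succ, mul_comm] at h1
    exact Nat.lt_of_mul_lt_mul_right h1

theorem card_nd {p : ℕ} (hp : 0 < p) (k : ℕ) :
    ((((range (p ^ (k + 1))).filter (fun y => ¬ p ∣ y)).card : ℕ) : ℝ) =
      (p : ℝ) ^ (k + 1) - (p : ℝ) ^ k := by
  have := sum_split hp k (fun _ => 1)
  rw [sum_const, sum_const, sum_const, card_range, card_range] at this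
  simp only [nsmul_eq_mul, mul_one] at this
  push_cast at this
  linarith

theorem gcd_pp {p : ℕ} (hp : p.Prime) {y : ℕ} (h : ¬ p ∣ y) (k : ℕ) : Nat.gcd y (p ^ k) = 1 :=
  (((Nat.Prime.coprime_iff_not_dvd hp).2 h).symm).pow_right k

theorem bb_succ (s : ℝ) {p : ℕ} (hp : p.Prime) (k : ℕ) :
    bb s (p ^ (k + 1)) = ((p : ℝ) ^ (k + 1) - (p : ℝ) ^ k) + (p : ℝ) ^ s * bb s (p ^ k) := by
  unfold bb
  rw [sum_split hp.pos]
  congr 1
  · rw [← card_nd hp.pos, ← nsmul_one, ← sum_const]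
    refine sum_congr rfl (fun y hy => ?_)
    rw [mem_filter] at hy
    rw [gcd_pp hp hy.2]
    simp
  · rw [mul_sum]
    refine sum_congr rfl (fun y _ => ?_)
    rw [pow_succ, mul_comm (p ^ k) p, Nat.gcd_mul_left]
    push_cast
    rw [Real.mul_rpow (by positivity) (by positivity)]

theorem BB_succ (s : ℝ) {p : ℕ} (hp : p.Prime) (k : ℕ) :
    BB s (p ^ (k + 1)) = ((p : ℝ) ^ (k + 1) - (p : ℝ) ^ k) + bb s (p ^ k) := by
  unfold bb BB
  rw [sum_split hp.pos]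
  congr 1
  · rw [← card_nd hp.pos, ← nsmul_one, ← sum_const]
    refine sum_congr rfl (fun y hy => ?_)
    rw [mem_filter] at hy
    rw [gcd_pp hp hy.2, es_one]
  · refine sum_congr rfl (fun y _ => ?_)
    rw [pow_succ, mul_comm (p ^ k) p, Nat.gcd_mul_left]
    obtain ⟨j, -, hj⟩ := (Nat.dvd_prime_pow hp).1 (Nat.gcd_dvd_right y (p ^ k))
    rw [hj, ← pow_succ', es_pp s hp]
    push_cast
    rfl

/-- the limit of the averages -/
noncomputable def bt (p s : ℝ) : ℝ := (1 - 1 / p) / (1 - p ^ (s - 1))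

theorem bb_eq (s : ℝ) {p : ℕ} (hp : p.Prime) (hs : s < 1) (k : ℕ) :
    bb s (p ^ k) / (p : ℝ) ^ k = bt p s + ((p : ℝ) ^ (s - 1)) ^ k * (1 - bt p s) := by
  have hp1 : (1 : ℝ) < p := by exact_mod_cast hp.one_lt
  have hp0 : (0 : ℝ) < p := by linarith
  have hlt : (p : ℝ) ^ (s - 1) < 1 := Real.rpow_lt_one_of_one_lt_of_neg hp1 (by linarith)
  have hne : (1 : ℝ) - (p : ℝ) ^ (s - 1) ≠ 0 := by linarith
  have hbt : bt p s * (1 - (p : ℝ) ^ (s - 1)) = 1 - 1 / p := by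
    unfold bt
    exact div_mul_cancel₀ _ hne
  induction k with
  | zero =>
    unfold bb
    simp
  | succ k ih =>
    have hps : (p : ℝ) ^ s = (p : ℝ) ^ (s - 1) * p := by
      rw [Real.rpow_sub_one hp0.ne']
      field_simp
    have e1 : bb s (p ^ (k + 1)) / (p : ℝ) ^ (k + 1) =
        (1 - 1 / p) + (p : ℝ) ^ (s - 1) * (bb s (p ^ k) / (p : ℝ) ^ k) := by
      rw [bb_succ s hp, hps]
      field_simp
      ring
    rw [e1, ih, ← hbt]
    ring

end Pool.Agent.T2h82.As
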