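import Pool.Agent.T2h82.As.Loc

/-!
# The local averages
-/

set_option autoImplicit false

namespace Pool.Agent.T2h82.As

open Finset Filter Topology
open Pool.Agent.H328R2.ABC (rad rad_pos)
open Pool.Agent.T2h82 (pw pw_pos mul_rad_eq)
open scoped Nat

theorem igcd_nat (y q : ℕ) : Int.gcd (y : ℤ) (q : ℤ) = Nat.gcd y q := by
  rw [igcd_eq, Int.natAbs_natCast]

theorem igcd_pp {p : ℕ} (hp : p.Prime) {z : ℤ} (h : ¬ (p : ℤ) ∣ z) (k : ℕ) :
    Int.gcd z ((p ^ k : ℕ) : ℤ) = 1 := by
  rw [igcd_eq]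
  refine gcd_pp hp (fun h' => h ?_) k
  exact Int.natCast_dvd.2 h'

/-- the substitution `u ↦ x ^ 2 - l u` -/
theorem sum_sub (l x : ℤ) {q : ℕ} (hq : 0 < q) (hl : IsCoprime l q) (E : ℕ → ℝ) :
    ∑ u ∈ range q, E (Int.gcd (fl l (x, (u : ℤ))) q) = ∑ u ∈ range q, E (Nat.gcd u q) := by
  have hqz : (q : ℤ) ≠ 0 := by exact_mod_cast hq.ne'
  have hnn : ∀ z : ℤ, 0 ≤ z % q := fun z => Int.emod_nonneg _ hqz
  have hlt : ∀ z : ℤ, z % q < q := fun z => Int.emod_lt_of_pos _ (by exact_mod_cast hq)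
  have hmaps : Set.MapsTo (fun u : ℕ => (fl l (x, (u : ℤ)) % q).toNat) (range q : Finset ℕ)
      (range q : Finset ℕ) := by
    intro u _
    have h1 := hnn (fl l (x, (u : ℤ)))
    have h2 := hlt (fl l (x, (u : ℤ)))
    rw [mem_coe, mem_range]
    simp only
    omega
  have hinj : Set.InjOn (fun u : ℕ => (fl l (x, (u : ℤ)) % q).toNat) (range q : Finset ℕ) := by
    intro u hu u' hu' huu
    rw [mem_coe, mem_range] at hu hu'
    have h1 := hnn (fl l (x, (u : ℤ)))
    have h2 := hnn (fl l (x, (u' : ℤ)))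
    have h3 : fl l (x, (u : ℤ)) % q = fl l (x, (u' : ℤ)) % q := by
      simp only at huu
      omega
    have h4 : (q : ℤ) ∣ fl l (x, (u : ℤ)) - fl l (x, (u' : ℤ)) :=
      Int.ModEq.dvd (show fl l (x, (u' : ℤ)) ≡ fl l (x, (u : ℤ)) [ZMOD q] from h3.symm)
    have h5 : (q : ℤ) ∣ l * ((u' : ℤ) - u) := by
      have : fl l (x, (u : ℤ)) - fl l (x, (u' : ℤ)) = l * ((u' : ℤ) - u) := by
        unfold fl
        ring
      rw [← this]
      exact h4
    have h6 : (q : ℤ) ∣ (u' : ℤ) - u := hl.symm.dvd_of_dvd_mul_left h5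
    have h7 : (u : ℤ) ≡ u' [ZMOD q] := Int.modEq_iff_dvd.2 h6
    have h8 : u ≡ u' [MOD q] := Int.natCast_modEq_iff.1 h7
    exact Nat.ModEq.eq_of_lt_of_lt h8 hu hu'
  refine sum_nbij (fun u : ℕ => (fl l (x, (u : ℤ)) % q).toNat) hmaps hinj
    (surjOn_of_injOn_of_card_le _ hmaps hinj le_rfl) (fun u _ => ?_)
  rw [← igcd_nat, Int.toNat_of_nonneg (hnn _), igcd_mod]

/-- the generic primes -/
theorem hh_gen (l c : ℤ) (d : ℕ) (s1 s2 : ℝ) {p : ℕ} (hp : p.Prime) (hl : ¬ (p : ℤ) ∣ l)
    (hd : ¬ p ∣ d) (k : ℕ) : hh l c d (Es s1) (Es s2) (p ^ (k + 1)) =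
      (1 - 1 / p) * (BB s1 (p ^ (k + 1)) / (p : ℝ) ^ (k + 1) - (1 - 1 / p) +
        2 * (BB s2 (p ^ (k + 1)) / (p : ℝ) ^ (k + 1)) - 1) := by
  classical
  set q := p ^ (k + 1) with hq
  have hq0 : 0 < q := pow_pos hp.pos _
  have hp0 : (p : ℝ) ≠ 0 := by exact_mod_cast hp.ne_zero
  have hpz : Prime (p : ℤ) := Nat.prime_iff_prime_int.1 hp
  have hpq : p ∣ q := dvd_pow_self p (Nat.succ_ne_zero k)
  have hlq : IsCoprime l q := by
    have h1 : IsCoprime (p : ℤ) l := (Nat.Prime.coprime_iff_not_dvd hp).2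
      (fun h => hl (Int.natCast_dvd.2 h)) |> fun h => by
        rw [Int.isCoprime_iff_gcd_eq_one, Int.gcd_eq_natAbs_gcd_natAbs, Int.natAbs_natCast]
        exact h
    rw [hq]
    push_cast
    exact (h1.symm).pow_right
  have hgd : Nat.gcd q d = 1 := by
    rw [hq]
    exact Nat.Coprime.pow_left _ ((Nat.Prime.coprime_iff_not_dvd hp).2 hd)
  set n0 : ℝ := ((((range q).filter (fun y => ¬ p ∣ y)).card : ℕ) : ℝ) with hn0
  have hn0' : n0 = (p : ℝ) ^ (k + 1) - (p : ℝ) ^ k := card_nd hp.pos k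
  -- the inner sums
  have hin : ∀ x ∈ range q, ∑ u ∈ range q, ph l c d (Es s1) (Es s2) q x u =
      if ¬ p ∣ x then 2 * BB s2 q - q else n0 * Es s1 (Nat.gcd x q) := by
    intro x _
    by_cases hx : p ∣ x
    swap
    · rw [if_pos hx]
      have hx' : ¬ (p : ℤ) ∣ (x : ℤ) := fun h => hx (Int.natCast_dvd_natCast.1 h)
      have e1 : ∀ u ∈ range q, ph l c d (Es s1) (Es s2) q x u =
          Es s2 (Nat.gcd u q) + Es s2 (Int.gcd (fl l ((x : ℤ), (u : ℤ))) q) - 1 := by
        intro u _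
        have hgx : Int.gcd (x : ℤ) q = 1 := igcd_pp hp hx' (k + 1)
        have hac : Ac c d q x u := by
          unfold Ac
          rw [hgx, hgd]
          exact ⟨Nat.coprime_one_left _, by simp⟩
        unfold ph
        rw [if_pos hac, hgx, es_one, one_mul, igcd_nat u q]
        by_cases hu : p ∣ u
        · have hf : ¬ (p : ℤ) ∣ fl l ((x : ℤ), (u : ℤ)) := by
            intro h
            unfold fl at h
            simp only at h
            have h1 : (p : ℤ) ∣ (x : ℤ) ^ 2 := by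
              have h2 : (p : ℤ) ∣ l * u := (Int.natCast_dvd_natCast.2 hu).mul_left l
              exact (dvd_sub_left h2).1 h
            exact hx' (hpz.dvd_of_dvd_pow h1)
          have h3 : Int.gcd (fl l ((x : ℤ), (u : ℤ))) q = 1 := igcd_pp hp hf (k + 1)
          rw [h3, es_one]
          ring
        · have h3 : Nat.gcd u q = 1 := gcd_pp hp hu (k + 1)
          rw [h3, es_one]
          ring
      rw [sum_congr rfl e1, sum_sub_distrib, sum_add_distrib, sum_sub l x hq0 hlq (Es s2)]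
      simp only [sum_const, card_range, nsmul_eq_mul, mul_one]
      unfold BB
      ring
    · rw [if_neg (not_not.2 hx)]
      rw [← sum_filter_add_sum_filter_not (range q) (fun y => ¬ p ∣ y)]
      have e1 : ∑ u ∈ (range q).filter (fun y => ¬ p ∣ y), ph l c d (Es s1) (Es s2) q x u =
          n0 * Es s1 (Nat.gcd x q) := by
        rw [hn0, ← nsmul_eq_mul, ← sum_const]
        refine sum_congr rfl (fun u hu => ?_)
        rw [mem_filter] at hu
        have hu' : ¬ (p : ℤ) ∣ (u : ℤ) := fun h => hu.2 (Int.natCast_dvd_natCast.1 h)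
        have hgu : Int.gcd (u : ℤ) q = 1 := igcd_pp hp hu' (k + 1)
        have hac : Ac c d q x u := by
          unfold Ac
          rw [hgu, hgd]
          exact ⟨Nat.coprime_one_right _, by simp⟩
        have hf : ¬ (p : ℤ) ∣ fl l ((x : ℤ), (u : ℤ)) := by
          intro h
          unfold fl at h
          simp only at h
          have h2 : (p : ℤ) ∣ (x : ℤ) ^ 2 :=
            (Int.natCast_dvd_natCast.2 hx).pow (by norm_num)
          have h1 : (p : ℤ) ∣ l * u := (dvd_sub_right h2).1 h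
          rcases hpz.dvd_or_dvd h1 with h3 | h3
          · exact hl h3
          · exact hu' h3
        have h3 : Int.gcd (fl l ((x : ℤ), (u : ℤ))) q = 1 := igcd_pp hp hf (k + 1)
        unfold ph
        rw [if_pos hac, hgu, h3, es_one, igcd_nat x q]
        ring
      have e2 : ∑ u ∈ (range q).filter (fun y => ¬ ¬ p ∣ y), ph l c d (Es s1) (Es s2) q x u = 0 := by
        refine sum_eq_zero (fun u hu => ?_)
        rw [mem_filter, not_not] at hu
        have hac : ¬ Ac c d q x u := by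
          rintro ⟨h1, -⟩
          rw [igcd_nat, igcd_nat] at h1
          exact Nat.not_coprime_of_dvd_of_dvd hp.one_lt (Nat.dvd_gcd hx hpq)
            (Nat.dvd_gcd hu.2 hpq) h1
        unfold ph
        rw [if_neg hac]
      rw [e1, e2, add_zero]
  -- the outer sum
  have hout : ∑ r ∈ range q ×ˢ range q, ph l c d (Es s1) (Es s2) q r.1 r.2 =
      n0 * (2 * BB s2 q - q) + n0 * (BB s1 q - n0) := by
    rw [sum_product, sum_congr rfl hin, sum_ite]
    congr 1
    · rw [sum_const, nsmul_eq_mul]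
    · rw [← mul_sum]
      congr 1
      unfold BB
      rw [← sum_filter_add_sum_filter_not (range q) (fun y => ¬ p ∣ y)]
      have : ∑ y ∈ (range q).filter (fun y => ¬ p ∣ y), Es s1 (Nat.gcd y q) = n0 := by
        rw [hn0, ← nsmul_one, ← sum_const]
        refine sum_congr rfl (fun y hy => ?_)
        rw [mem_filter] at hy
        rw [hq, gcd_pp hp hy.2, es_one]
      rw [this]
      ring
  unfold hh
  rw [hout, hn0']
  have hqr : (q : ℝ) = (p : ℝ) ^ (k + 1) := by rw [hq]; push_cast; rfl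
  rw [hqr]
  field_simp
  ring

/-- the prime two -/
theorem hh_two (c : ℤ) (hc : ¬ (2 : ℤ) ∣ c) (s1 s2 : ℝ) (k : ℕ) :
    hh 64 c 4 (Es s1) (Es s2) (2 ^ (k + 2)) =
      1 / 4 * (BB s2 (2 ^ (k + 2)) / (2 : ℝ) ^ (k + 2)) := by
  classical
  set q := 2 ^ (k + 2) with hq
  have hq0 : 0 < q := by positivity
  have hq4 : q = 4 * 2 ^ k := by rw [hq]; ring
  have hgd : Nat.gcd q 4 = 4 := by
    rw [hq4]
    exact Nat.gcd_eq_right (dvd_mul_right _ _)
  have hin : ∀ x ∈ range q, ∑ u ∈ range q, ph 64 c 4 (Es s1) (Es s2) q x u =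
      if (4 : ℤ) ∣ (x : ℤ) - c then BB s2 q else 0 := by
    intro x _
    split_ifs with hx
    · have hx' : ¬ ((2 : ℕ) : ℤ) ∣ (x : ℤ) := by
        push_cast
        omega
      unfold BB
      refine sum_congr rfl (fun u _ => ?_)
      have hgx : Int.gcd (x : ℤ) q = 1 := igcd_pp Nat.prime_two hx' (k + 2)
      have hac : Ac c 4 q x u := by
        unfold Ac
        rw [hgx, hgd]
        exact ⟨Nat.coprime_one_left _, by exact_mod_cast hx⟩
      have hf : ¬ ((2 : ℕ) : ℤ) ∣ fl 64 ((x : ℤ), (u : ℤ)) := by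
        intro h
        unfold fl at h
        simp only at h
        have h1 : ((2 : ℕ) : ℤ) ∣ (x : ℤ) ^ 2 := by
          have h2 : ((2 : ℕ) : ℤ) ∣ 64 * (u : ℤ) := ⟨32 * u, by push_cast; ring⟩
          exact (dvd_sub_left h2).1 h
        exact hx' ((Nat.prime_iff_prime_int.1 Nat.prime_two).dvd_of_dvd_pow h1)
      have h3 : Int.gcd (fl 64 ((x : ℤ), (u : ℤ))) q = 1 := igcd_pp Nat.prime_two hf (k + 2)
      unfold ph
      rw [if_pos hac, hgx, h3, es_one, es_one, igcd_nat u q]
      ring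
    · refine sum_eq_zero (fun u _ => ?_)
      have hac : ¬ Ac c 4 q x u := by
        rintro ⟨-, h1⟩
        rw [hgd] at h1
        exact hx (by exact_mod_cast h1)
      unfold ph
      rw [if_neg hac]
  have hcard : ((((range q).filter (fun x : ℕ => (4 : ℤ) ∣ (x : ℤ) - c)).card : ℕ) : ℝ) =
      2 ^ k := by
    have h1 : ((range q).filter (fun x : ℕ => (4 : ℤ) ∣ (x : ℤ) - c)) =
        (range (2 ^ k)).image (fun i => 4 * i + (c % 4).toNat) := by
      ext x
      rw [mem_filter, mem_range, mem_image]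
      constructor
      · rintro ⟨h1, h2⟩
        refine ⟨x / 4, ?_, ?_⟩
        · rw [mem_range]
          omega
        · omega
      · rintro ⟨i, h1, rfl⟩
        rw [mem_range] at h1
        constructor
        · omega
        · push_cast
          omega
    rw [h1, card_image_of_injective, card_range]
    · push_cast
      rfl
    · intro i j hij
      simp only at hij
      omega
  unfold hh
  rw [sum_product, sum_congr rfl hin, ← sum_filter, sum_const, nsmul_eq_mul, hcard]
  have hqr : (q : ℝ) = (2 : ℝ) ^ (k + 2) := by rw [hq]; push_cast; rfl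
  rw [hqr]
  field_simp
  ring

end Pool.Agent.T2h82.As
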