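import Pool.Agent.T2h82.As.Loc2

/-!
# The Euler product
-/

set_option autoImplicit false

namespace Pool.Agent.T2h82.As

open Finset Filter Topology
open Pool.Agent.H328R2.ABC (rad rad_pos)
open Pool.Agent.T2h82 (pw pw_pos mul_rad_eq)
open scoped Nat

/-- the local factor -/
noncomputable def lc (d : ℕ) (s1 s2 : ℝ) (p : ℕ) : ℝ :=
  if p ∣ d then 1 / 4 * ((1 - 1 / p) + bt p s2 / p)
  else (1 - 1 / p) * (1 - 2 / p + bt p s1 / p + 2 * (bt p s2 / p))

/-- the two situations -/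
def Hy (l c : ℤ) (d : ℕ) : Prop := (l = 1 ∧ d = 1) ∨ (l = 64 ∧ d = 4 ∧ ¬ (2 : ℤ) ∣ c)

section

variable {p : ℕ}

theorem rp_lt (hp : p.Prime) {s : ℝ} (hs : s < 1) : (p : ℝ) ^ (s - 1) < 1 :=
  Real.rpow_lt_one_of_one_lt_of_neg (by exact_mod_cast hp.one_lt) (by linarith)

theorem bt_ge (hp : p.Prime) {s : ℝ} (hs0 : 0 ≤ s) (hs : s < 1) : 1 ≤ bt p s := by
  have hp1 : (1 : ℝ) < p := by exact_mod_cast hp.one_lt
  have h1 := rp_lt hp hs
  have h2 : (p : ℝ) ^ (-1 : ℝ) ≤ (p : ℝ) ^ (s - 1) :=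
    Real.rpow_le_rpow_of_exponent_le hp1.le (by linarith)
  rw [Real.rpow_neg_one] at h2
  unfold bt
  rw [le_div_iff₀ (by linarith), one_div]
  linarith

theorem bt_le (hp : p.Prime) {s : ℝ} (hs : s < 1) :
    bt p s - 1 ≤ (p : ℝ) ^ (s - 1) / (1 - (2 : ℝ) ^ (s - 1)) := by
  have hp1 : (1 : ℝ) < p := by exact_mod_cast hp.one_lt
  have hp2 : (2 : ℝ) ≤ p := by exact_mod_cast hp.two_le
  have h1 := rp_lt hp hs
  have h2 : (p : ℝ) ^ (s - 1) ≤ (2 : ℝ) ^ (s - 1) :=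
    Real.rpow_le_rpow_of_nonpos (by norm_num) hp2 (by linarith)
  have h3 : (2 : ℝ) ^ (s - 1) < 1 :=
    Real.rpow_lt_one_of_one_lt_of_neg (by norm_num) (by linarith)
  have h4 : 0 < (p : ℝ) ^ (s - 1) := by positivity
  have h5 : 0 < 1 / (p : ℝ) := by positivity
  have e1 : bt p s - 1 = ((p : ℝ) ^ (s - 1) - 1 / p) / (1 - (p : ℝ) ^ (s - 1)) := by
    unfold bt
    rw [div_sub_one (by linarith)]
    congr 1
    ring
  rw [e1]
  calc ((p : ℝ) ^ (s - 1) - 1 / p) / (1 - (p : ℝ) ^ (s - 1))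
      ≤ (p : ℝ) ^ (s - 1) / (1 - (p : ℝ) ^ (s - 1)) := by
        apply div_le_div_of_nonneg_right _ (by linarith)
        linarith
    _ ≤ _ := by
        apply div_le_div_of_nonneg_left h4.le (by linarith) (by linarith)

theorem bb_mem (hp : p.Prime) {s : ℝ} (hs0 : 0 ≤ s) (hs : s < 1) (k : ℕ) :
    1 ≤ bb s (p ^ k) / (p : ℝ) ^ k ∧ bb s (p ^ k) / (p : ℝ) ^ k ≤ bt p s := by
  rw [bb_eq s hp hs k]
  have h1 := rp_lt hp hs
  have h2 := bt_ge hp hs0 hs
  have h3 : 0 ≤ ((p : ℝ) ^ (s - 1)) ^ k := by positivity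
  have h4 : ((p : ℝ) ^ (s - 1)) ^ k ≤ 1 := pow_le_one₀ (by positivity) h1.le
  constructor <;> nlinarith

theorem bb_lim (hp : p.Prime) {s : ℝ} (hs : s < 1) :
    Tendsto (fun k => bb s (p ^ k) / (p : ℝ) ^ k) atTop (𝓝 (bt p s)) := by
  have h1 : Tendsto (fun k : ℕ => ((p : ℝ) ^ (s - 1)) ^ k) atTop (𝓝 0) :=
    tendsto_pow_atTop_nhds_zero_of_lt_one (by positivity) (rp_lt hp hs)
  have h2 := (h1.mul_const (1 - bt p s)).const_add (bt p s)
  rw [zero_mul, add_zero] at h2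
  exact h2.congr (fun k => (bb_eq s hp hs k).symm)

theorem BB_div (hp : p.Prime) (s : ℝ) (k : ℕ) : BB s (p ^ (k + 1)) / (p : ℝ) ^ (k + 1) =
    (1 - 1 / p) + (bb s (p ^ k) / (p : ℝ) ^ k) / p := by
  have : (p : ℝ) ≠ 0 := by exact_mod_cast hp.ne_zero
  rw [BB_succ s hp]
  field_simp
  ring

/-- the local average in terms of the sums -/
theorem hh_gen' (l c : ℤ) (d : ℕ) (s1 s2 : ℝ) (hp : p.Prime) (hl : ¬ (p : ℤ) ∣ l)
    (hd : ¬ p ∣ d) (k : ℕ) : hh l c d (Es s1) (Es s2) (p ^ (k + 1)) =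
      (1 - 1 / p) * (1 - 2 / p + (bb s1 (p ^ k) / (p : ℝ) ^ k) / p +
        2 * ((bb s2 (p ^ k) / (p : ℝ) ^ k) / p)) := by
  rw [hh_gen l c d s1 s2 hp hl hd k, BB_div hp, BB_div hp]
  ring

end

theorem fact_atTop {p : ℕ} (hp : p.Prime) :
    Tendsto (fun W : ℕ => (W !).factorization p) atTop atTop := by
  refine tendsto_atTop.2 (fun b => ?_)
  filter_upwards [eventually_ge_atTop (p ^ b)] with W hW
  exact (hp.pow_dvd_iff_le_factorization (Nat.factorial_ne_zero W)).1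
    (Nat.dvd_factorial (pow_pos hp.pos _) hW)

theorem hy_cases {l c : ℤ} {d : ℕ} (h : Hy l c d) {p : ℕ} (hp : p.Prime) :
    (¬ (p : ℤ) ∣ l ∧ ¬ p ∣ d) ∨ (p = 2 ∧ l = 64 ∧ d = 4 ∧ ¬ (2 : ℤ) ∣ c) := by
  rcases h with ⟨rfl, rfl⟩ | ⟨rfl, rfl, hc⟩
  · left
    refine ⟨fun h1 => ?_, fun h1 => hp.one_lt.ne' (Nat.dvd_one.1 h1)⟩
    exact hp.one_lt.ne' (Nat.dvd_one.1 (by exact_mod_cast h1))
  · by_cases h2 : p = 2
    · exact Or.inr ⟨h2, rfl, rfl, hc⟩
    · left
      have h3 : ¬ p ∣ 2 := fun h => h2 ((Nat.prime_dvd_prime_iff_eq hp Nat.prime_two).1 h)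
      constructor
      · intro h4
        have h5 : p ∣ 2 ^ 6 := by
          have : p ∣ 64 := by exact_mod_cast h4
          simpa using this
        exact h3 (hp.dvd_of_dvd_pow h5)
      · intro h4
        have h5 : p ∣ 2 ^ 2 := by simpa using h4
        exact h3 (hp.dvd_of_dvd_pow h5)

theorem hh_one (l c : ℤ) (d : ℕ) (s1 s2 : ℝ) : hh l c d (Es s1) (Es s2) 1 = 1 := by
  unfold hh
  have : range 1 ×ˢ range 1 = ({(0, 0)} : Finset (ℕ × ℕ)) := rfl
  rw [this, sum_singleton]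
  have hac : Ac c d 1 ((0 : ℕ) : ℤ) ((0 : ℕ) : ℤ) := by
    unfold Ac
    rw [igcd_nat, Nat.gcd_one_left]
    simp
  unfold ph
  rw [if_pos hac]
  have h1 : ∀ z : ℤ, Int.gcd z ((1 : ℕ) : ℤ) = 1 := fun z => by rw [igcd_eq, Nat.gcd_one_right]
  simp only [h1]
  rw [es_one, es_one]
  norm_num

/-- the dominating terms -/
noncomputable def bd (s1 s2 : ℝ) (p : ℕ) : ℝ :=
  (p : ℝ) ^ (-2 : ℝ) + (p : ℝ) ^ (s1 - 2) / (1 - (2 : ℝ) ^ (s1 - 1)) +
    2 * ((p : ℝ) ^ (s2 - 2) / (1 - (2 : ℝ) ^ (s2 - 1))) + (if p = 2 then 1 + bt 2 s2 else 0)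

theorem bd_summable (s1 s2 : ℝ) (h1 : s1 < 1) (h2 : s2 < 1) :
    Summable (fun p : Nat.Primes => bd s1 s2 p) := by
  have hs : ∀ e : ℝ, e < -1 → Summable (fun p : Nat.Primes => ((p : ℕ) : ℝ) ^ e) := by
    intro e he
    exact (Real.summable_nat_rpow.2 he).comp_injective Subtype.coe_injective
  unfold bd
  refine (((hs (-2) (by norm_num)).add ((hs (s1 - 2) (by linarith)).div_const _)).add
    (((hs (s2 - 2) (by linarith)).div_const _).mul_left 2)).add ?_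
  refine summable_of_hasFiniteSupport ?_
  refine (Set.finite_singleton (⟨2, Nat.prime_two⟩ : Nat.Primes)).subset ?_
  intro p hp
  have hp' : (if (p : ℕ) = 2 then 1 + bt 2 s2 else 0 : ℝ) ≠ 0 := hp
  by_contra hne
  apply hp'
  rw [if_neg]
  intro h
  exact hne (Subtype.ext h)

theorem two_pos' {s : ℝ} (hs : s < 1) : 0 < 1 - (2 : ℝ) ^ (s - 1) := by
  have : (2 : ℝ) ^ (s - 1) < 1 := Real.rpow_lt_one_of_one_lt_of_neg (by norm_num) (by linarith)
  linarith

theorem hh_bound {l c : ℤ} {d : ℕ} (h : Hy l c d) {s1 s2 : ℝ} (h10 : 0 ≤ s1) (h11 : s1 < 1)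
    (h20 : 0 ≤ s2) (h21 : s2 < 1) (W : ℕ) (hW : 4 ≤ W) {p : ℕ} (hp : p.Prime) :
    |hh l c d (Es s1) (Es s2) (p ^ (W !).factorization p) - 1| ≤ bd s1 s2 p := by
  have hp1 : (1 : ℝ) < p := by exact_mod_cast hp.one_lt
  have hp0 : (0 : ℝ) < p := by linarith
  have q1 : 0 ≤ (p : ℝ) ^ (-2 : ℝ) := by positivity
  have q2 : 0 ≤ (p : ℝ) ^ (s1 - 2) / (1 - (2 : ℝ) ^ (s1 - 1)) :=
    div_nonneg (by positivity) (two_pos' h11).le
  have q3 : 0 ≤ (p : ℝ) ^ (s2 - 2) / (1 - (2 : ℝ) ^ (s2 - 1)) :=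
    div_nonneg (by positivity) (two_pos' h21).le
  have q4 : 0 ≤ (if p = 2 then 1 + bt 2 s2 else 0 : ℝ) := by
    split_ifs
    · have := bt_ge Nat.prime_two h20 h21
      push_cast at this
      linarith
    · exact le_rfl
  unfold bd
  rcases hy_cases h hp with ⟨hl, hd⟩ | ⟨rfl, rfl, rfl, hc⟩
  · rcases Nat.eq_zero_or_pos ((W !).factorization p) with h0 | h0
    · rw [h0, pow_zero, hh_one, sub_self, abs_zero]
      positivity
    · obtain ⟨k, hk⟩ : ∃ k, (W !).factorization p = k + 1 := ⟨_, (Nat.succ_pred_eq_of_pos h0).symm⟩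
      rw [hk, hh_gen' l c d s1 s2 hp hl hd k]
      obtain ⟨a1, a2⟩ := bb_mem hp h10 h11 k
      obtain ⟨b1, b2⟩ := bb_mem hp h20 h21 k
      have c1 := bt_le hp h11
      have c2 := bt_le hp h21
      set x := bb s1 (p ^ k) / (p : ℝ) ^ k with hx
      set y := bb s2 (p ^ k) / (p : ℝ) ^ k with hy
      have f1 : (p : ℝ) ^ (-2 : ℝ) = (1 / p) ^ 2 := by
        rw [Real.rpow_neg hp0.le, one_div, inv_pow]
        norm_num
      have f2 : ∀ s : ℝ, (p : ℝ) ^ (s - 2) = (p : ℝ) ^ (s - 1) * (1 / p) := by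
        intro s
        rw [one_div, ← Real.rpow_neg_one, ← Real.rpow_add hp0]
        congr 1
        ring
      have g1 : (x - 1) * (1 / p) ≤ (p : ℝ) ^ (s1 - 2) / (1 - (2 : ℝ) ^ (s1 - 1)) := by
        rw [f2, mul_div_right_comm]
        exact mul_le_mul_of_nonneg_right (by linarith) (by positivity)
      have g2 : (y - 1) * (1 / p) ≤ (p : ℝ) ^ (s2 - 2) / (1 - (2 : ℝ) ^ (s2 - 1)) := by
        rw [f2, mul_div_right_comm]
        exact mul_le_mul_of_nonneg_right (by linarith) (by positivity)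
      set i : ℝ := 1 / p with hi
      have hi0 : 0 < i := by positivity
      have hi1 : i < 1 := by rw [hi, div_lt_one hp0]; exact hp1
      have e1 : (1 - i) * (1 - 2 / p + x / p + 2 * (y / p)) - 1 =
          -i ^ 2 + (1 - i) * ((x - 1) * i + 2 * ((y - 1) * i)) := by
        rw [hi]
        field_simp
        ring
      rw [e1, f1, abs_le]
      have z1 : 0 ≤ (x - 1) * i := mul_nonneg (by linarith) hi0.le
      have z2 : 0 ≤ (y - 1) * i := mul_nonneg (by linarith) hi0.le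
      have z3 : 0 ≤ (1 - i) * ((x - 1) * i + 2 * ((y - 1) * i)) :=
        mul_nonneg (by linarith) (by linarith)
      have z4 : (1 - i) * ((x - 1) * i + 2 * ((y - 1) * i)) ≤ (x - 1) * i + 2 * ((y - 1) * i) := by
        nlinarith
      have z5 : 0 ≤ i ^ 2 := by positivity
      constructor <;> linarith
  · have h2 : 2 ≤ (W !).factorization 2 := by
      refine (Nat.prime_two.pow_dvd_iff_le_factorization (Nat.factorial_ne_zero W)).1 ?_
      exact Nat.dvd_factorial (by norm_num) (by omega)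
    obtain ⟨k, hk⟩ : ∃ k, (W !).factorization 2 = k + 2 := ⟨_, (Nat.sub_add_cancel h2).symm⟩
    rw [hk, hh_two c hc s1 s2 k]
    have hB := BB_div Nat.prime_two s2 (k + 1)
    obtain ⟨b1, b2⟩ := bb_mem Nat.prime_two h20 h21 (k + 1)
    push_cast at hB b1 b2 q1 q2 q3 ⊢
    rw [hB, abs_le]
    constructor <;> linarith

/-- the limit of the local averages -/
theorem hh_lim {l c : ℤ} {d : ℕ} (h : Hy l c d) {s1 s2 : ℝ} (h11 : s1 < 1) (h21 : s2 < 1)
    {p : ℕ} (hp : p.Prime) :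
    Tendsto (fun k => hh l c d (Es s1) (Es s2) (p ^ k)) atTop (𝓝 (lc d s1 s2 p)) := by
  rcases hy_cases h hp with ⟨hl, hd⟩ | ⟨rfl, rfl, rfl, hc⟩
  · rw [← tendsto_add_atTop_iff_nat 1]
    unfold lc
    rw [if_neg hd]
    have := ((((bb_lim hp h11).div_const (p : ℝ)).const_add (1 - 2 / (p : ℝ))).add
      (((bb_lim hp h21).div_const (p : ℝ)).const_mul 2)).const_mul (1 - 1 / (p : ℝ))
    exact this.congr (fun k => (hh_gen' l c d s1 s2 hp hl hd k).symm)
  · rw [← tendsto_add_atTop_iff_nat 2]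
    unfold lc
    rw [if_pos (by norm_num)]
    have h1 := (bb_lim Nat.prime_two h21)
    have h2 := (tendsto_add_atTop_iff_nat 1).2 h1
    have h3 := ((h2.div_const ((2 : ℕ) : ℝ)).const_add (1 - 1 / ((2 : ℕ) : ℝ))).const_mul (1 / 4)
    refine h3.congr (fun k => ?_)
    rw [hh_two c hc s1 s2 k]
    have hB := BB_div Nat.prime_two s2 (k + 1)
    push_cast at hB ⊢
    rw [hB]

theorem lc_pos {d : ℕ} {s1 s2 : ℝ} (h10 : 0 ≤ s1) (h11 : s1 < 1) (h20 : 0 ≤ s2) (h21 : s2 < 1)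
    {p : ℕ} (hp : p.Prime) : 0 < lc d s1 s2 p := by
  have hp1 : (1 : ℝ) < p := by exact_mod_cast hp.one_lt
  have hp0 : (0 : ℝ) < p := by linarith
  have hi1 : 1 / (p : ℝ) < 1 := by rw [div_lt_one hp0]; exact hp1
  have hi0 : 0 < 1 / (p : ℝ) := by positivity
  have b1 := bt_ge hp h10 h11
  have b2 := bt_ge hp h20 h21
  unfold lc
  split_ifs
  · have : 0 < bt p s2 / p := by positivity
    have h1 : 0 < (1 - 1 / (p : ℝ)) + bt p s2 / p := by linarith
    linarith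
  · have e1 : 1 / (p : ℝ) ≤ bt p s1 / p := div_le_div_of_nonneg_right b1 hp0.le
    have e2 : 1 / (p : ℝ) ≤ bt p s2 / p := div_le_div_of_nonneg_right b2 hp0.le
    have e3 : 2 / (p : ℝ) = 2 * (1 / p) := by ring
    refine mul_pos (by linarith) ?_
    rw [e3]
    linarith

theorem hh_prod (l c : ℤ) (d : ℕ) (s1 s2 : ℝ) (W : ℕ) :
    hh l c d (Es s1) (Es s2) (W !) =
      ∏' p : Nat.Primes, (1 + (hh l c d (Es s1) (Es s2) ((p : ℕ) ^ (W !).factorization p) - 1)) := by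
  have h1 := Nat.multiplicative_factorization (hh l c d (Es s1) (Es s2)) (fun x y hxy => by
    rcases Nat.eq_zero_or_pos x with rfl | hx
    · have : y = 1 := by simpa using hxy
      rw [this, hh_one, mul_one, mul_one]
    · rcases Nat.eq_zero_or_pos y with rfl | hy
      · have : x = 1 := by simpa using hxy
        rw [this, hh_one, one_mul, one_mul]
      · exact hh_mul l c d (es_mu s1) (es_mu s2) x y hx.ne' hy.ne' hxy) (hh_one l c d s1 s2)
    (Nat.factorial_ne_zero W)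
  rw [h1]
  have h2 : ∀ p : Nat.Primes, 1 + (hh l c d (Es s1) (Es s2) ((p : ℕ) ^ (W !).factorization p) - 1) =
      hh l c d (Es s1) (Es s2) ((p : ℕ) ^ (W !).factorization p) := fun p => by ring
  simp_rw [h2]
  have h4 : ∏' p : Nat.Primes, hh l c d (Es s1) (Es s2) ((p : ℕ) ^ (W !).factorization p) =
      ∏ p ∈ ((W !).primeFactors.subtype Nat.Prime : Finset Nat.Primes),
        hh l c d (Es s1) (Es s2) ((p : ℕ) ^ (W !).factorization p) := by
    refine tprod_eq_prod (fun p hp => ?_)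
    have h3 : (p : ℕ) ∉ (W !).primeFactors := by
      intro h
      exact hp (mem_subtype.2 h)
    rw [← Nat.support_factorization, Finsupp.notMem_support_iff] at h3
    rw [h3, pow_zero, hh_one]
  rw [h4]
  unfold Finsupp.prod
  rw [Nat.support_factorization]
  exact (prod_subtype_of_mem (s := (W !).primeFactors)
    (fun p : ℕ => hh l c d (Es s1) (Es s2) (p ^ (W !).factorization p))
    (fun p hp => Nat.prime_of_mem_primeFactors hp)).symm

/-- **The Euler product.** -/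
theorem euler {l c : ℤ} {d : ℕ} (h : Hy l c d) {s1 s2 : ℝ} (h10 : 0 ≤ s1) (h11 : s1 < 1)
    (h20 : 0 ≤ s2) (h21 : s2 < 1) :
    Tendsto (fun W : ℕ => hh l c d (Es s1) (Es s2) (W !)) atTop
      (𝓝 (∏' p : Nat.Primes, lc d s1 s2 p)) ∧
    Multipliable (fun p : Nat.Primes => lc d s1 s2 p) ∧
    0 < ∏' p : Nat.Primes, lc d s1 s2 p := by
  have hlim : ∀ p : Nat.Primes, Tendsto (fun W : ℕ =>
      hh l c d (Es s1) (Es s2) ((p : ℕ) ^ (W !).factorization p) - 1) atTop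
      (𝓝 (lc d s1 s2 p - 1)) := fun p =>
    ((hh_lim h h11 h21 p.2).comp (fact_atTop p.2)).sub_const 1
  have hb : ∀ᶠ W : ℕ in atTop, ∀ p : Nat.Primes,
      ‖hh l c d (Es s1) (Es s2) ((p : ℕ) ^ (W !).factorization p) - 1‖ ≤ bd s1 s2 p := by
    filter_upwards [eventually_ge_atTop 4] with W hW p
    rw [Real.norm_eq_abs]
    exact hh_bound h h10 h11 h20 h21 W hW p.2
  have hs := bd_summable s1 s2 h11 h21
  have hmain := tendsto_tprod_one_add_of_dominated_convergence hs hlim hb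
  have hg : ∀ p : Nat.Primes, ‖lc d s1 s2 p - 1‖ ≤ bd s1 s2 p := fun p =>
    le_of_tendsto (hlim p).norm (hb.mono fun W hW => hW p)
  have hsum : Summable (fun p : Nat.Primes => lc d s1 s2 p - 1) := hs.of_norm_bounded hg
  have e : ∀ p : Nat.Primes, 1 + (lc d s1 s2 p - 1) = lc d s1 s2 p := fun p => by ring
  simp_rw [e] at hmain
  have hlog : Summable (fun p : Nat.Primes => Real.log (lc d s1 s2 p)) := by
    have := Real.summable_log_one_add_of_summable hsum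
    simp_rw [e] at this
    exact this
  have hpos : ∀ p : Nat.Primes, 0 < lc d s1 s2 p := fun p => lc_pos h10 h11 h20 h21 p.2
  refine ⟨?_, Real.multipliable_of_summable_log hpos hlog, ?_⟩
  · refine hmain.congr (fun W => ?_)
    exact (hh_prod l c d s1 s2 W).symm
  · rw [← Real.rexp_tsum_eq_tprod hpos hlog]
    exact Real.exp_pos _

end Pool.Agent.T2h82.As
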