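import Pool.Agent.T2h82.As.Cv

/-!
# From the pairs to the curves
-/

set_option autoImplicit false

namespace Pool.Agent.T2h82.As

open Finset Filter Topology
open Pool.Agent.H328R2.ABC (rad rad_pos)
open Pool.Agent.T2h82

/-- the pairs of the first kind -/
def A1 (K s t T : ℝ) : Set (ℤ × ℤ) := Pt (Fn 64 (fun x => x % 4 = 1) (R1 K s t)) T (T ^ 2)

/-- the pairs of the second kind -/
def A2 (K s t T : ℝ) : Set (ℤ × ℤ) := Pt (Fn 64 (fun x => x % 4 = 3) (R2 K s t)) T (T ^ 2)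

/-- the box -/
def Bx (K T : ℝ) (q : ℤ × ℤ) : Prop := |(q.1 : ℝ)| ≤ K * T ∧ |(q.2 : ℝ)| ≤ K * T ^ 2

theorem box_iff {K T : ℝ} (hT : 0 < T) (q : ℤ × ℤ) :
    (((q.1 : ℝ) / T, (q.2 : ℝ) / T ^ 2) ∈ Set.Icc (-K) K ×ˢ Set.Icc (-K) K) ↔ Bx K T q := by
  have hT2 : 0 < T ^ 2 := by positivity
  unfold Bx
  rw [Set.mem_prod, Set.mem_Icc, Set.mem_Icc, ← abs_le, ← abs_le, abs_div, abs_div,
    abs_of_pos hT, abs_of_pos hT2, div_le_iff₀ hT, div_le_iff₀ hT2]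

theorem mem_A1 {K s t T : ℝ} (hT : 0 < T) (q : ℤ × ℤ) : q ∈ A1 K s t T ↔
    (q.2 ≠ 0 ∧ ff q ≠ 0 ∧ IsCoprime q.1 q.2 ∧ q.1 % 4 = 1) ∧ Bx K T q ∧
      |(q.2 : ℝ)| * |((ff q : ℤ) : ℝ)| ≤ (ew (pw q.2.natAbs) * ew (pw (ff q).natAbs)) * T ^ 4 ∧
      (s * (ew (pw q.2.natAbs) * ew (pw (ff q).natAbs)) ^ 3) * |(q.2 : ℝ)| ≤
        t * |((ff q : ℤ) : ℝ)| := by
  have hT2 : 0 < T ^ 2 := by positivity
  unfold A1 Pt Fn
  have hfl : fl 64 (q.1, q.2) = ff q := rfl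
  rw [Set.mem_ofPred_eq, hfl]
  by_cases h : q.1 ≠ 0 ∧ q.2 ≠ 0 ∧ ff q ≠ 0 ∧ IsCoprime q.1 q.2 ∧ q.1 % 4 = 1
  · rw [if_pos h]
    unfold R1 Lv
    rw [Set.mem_inter_iff, Set.mem_inter_iff, box_iff hT, Set.mem_ofPred_eq, Set.mem_ofPred_eq]
    have e1 : ((q.1 : ℝ) / T) ^ 2 - 64 * ((q.2 : ℝ) / T ^ 2) = ((ff q : ℤ) : ℝ) / T ^ 2 := by
      unfold ff
      push_cast
      field_simp
    have a1 : |(q.2 : ℝ) / T ^ 2| = |(q.2 : ℝ)| / T ^ 2 := by rw [abs_div, abs_of_pos hT2]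
    have a2 : |((ff q : ℤ) : ℝ) / T ^ 2| = |((ff q : ℤ) : ℝ)| / T ^ 2 := by
      rw [abs_div, abs_of_pos hT2]
    simp only
    rw [e1, a1, a2, pow_zero, one_mul, div_mul_div_comm, div_le_iff₀
      (by positivity), mul_div_assoc', mul_div_assoc', div_le_div_iff_of_pos_right hT2]
    have e2 : T ^ 2 * T ^ 2 = T ^ 4 := by ring
    rw [e2]
    constructor
    · rintro ⟨⟨k1, k2⟩, k3⟩
      exact ⟨h.2, k1, k2, k3⟩
    · rintro ⟨-, k1, k2, k3⟩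
      exact ⟨⟨k1, k2⟩, k3⟩
  · rw [if_neg h]
    constructor
    · intro h'
      exact absurd h' (Set.notMem_empty _)
    · rintro ⟨k, -⟩
      exact absurd ⟨fun h0 => by have := k.2.2.2; rw [h0] at this; simp at this, k⟩ h

theorem mem_A2 {K s t T : ℝ} (hT : 0 < T) (q : ℤ × ℤ) : q ∈ A2 K s t T ↔
    (q.2 ≠ 0 ∧ ff q ≠ 0 ∧ IsCoprime q.1 q.2 ∧ q.1 % 4 = 3) ∧ Bx K T q ∧
      |(q.2 : ℝ)| * |((ff q : ℤ) : ℝ)| ≤ (ew (pw q.2.natAbs) * ew (pw (ff q).natAbs)) * T ^ 4 ∧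
      (s * (ew (pw q.2.natAbs) * ew (pw (ff q).natAbs)) ^ 3) * |((ff q : ℤ) : ℝ)| ≤
        t * |(q.2 : ℝ)| := by
  have hT2 : 0 < T ^ 2 := by positivity
  unfold A2 Pt Fn
  have hfl : fl 64 (q.1, q.2) = ff q := rfl
  rw [Set.mem_ofPred_eq, hfl]
  by_cases h : q.1 ≠ 0 ∧ q.2 ≠ 0 ∧ ff q ≠ 0 ∧ IsCoprime q.1 q.2 ∧ q.1 % 4 = 3
  · rw [if_pos h]
    unfold R2 Lv
    rw [Set.mem_inter_iff, Set.mem_inter_iff, box_iff hT, Set.mem_ofPred_eq, Set.mem_ofPred_eq]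
    have e1 : ((q.1 : ℝ) / T) ^ 2 - 64 * ((q.2 : ℝ) / T ^ 2) = ((ff q : ℤ) : ℝ) / T ^ 2 := by
      unfold ff
      push_cast
      field_simp
    have a1 : |(q.2 : ℝ) / T ^ 2| = |(q.2 : ℝ)| / T ^ 2 := by rw [abs_div, abs_of_pos hT2]
    have a2 : |((ff q : ℤ) : ℝ) / T ^ 2| = |((ff q : ℤ) : ℝ)| / T ^ 2 := by
      rw [abs_div, abs_of_pos hT2]
    simp only
    rw [e1, a1, a2, pow_zero, one_mul, div_mul_div_comm, div_le_iff₀
      (by positivity), mul_div_assoc', mul_div_assoc', div_le_div_iff_of_pos_right hT2]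
    have e2 : T ^ 2 * T ^ 2 = T ^ 4 := by ring
    rw [e2]
    constructor
    · rintro ⟨⟨k1, k2⟩, k3⟩
      exact ⟨h.2, k1, k2, k3⟩
    · rintro ⟨-, k1, k2, k3⟩
      exact ⟨⟨k1, k2⟩, k3⟩
  · rw [if_neg h]
    constructor
    · intro h'
      exact absurd h' (Set.notMem_empty _)
    · rintro ⟨k, -⟩
      exact absurd ⟨fun h0 => by have := k.2.2.2; rw [h0] at this; simp at this, k⟩ h

theorem box_finite (K T : ℝ) (hT : 0 < T) : {q : ℤ × ℤ | Bx K T q}.Finite := by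
  refine (pt_finite (fun _ _ => Set.Icc (-K) K ×ˢ Set.Icc (-K) K) _ (nice_box K K).bdd
    (fun _ _ => subset_rfl) hT (by positivity : (0 : ℝ) < T ^ 2)).subset ?_
  intro q hq
  exact (box_iff hT q).2 hq

theorem card_Icc_le (B : ℝ) (hB : 0 ≤ B) :
    (((Icc (-⌊B⌋) ⌊B⌋).card : ℕ) : ℝ) ≤ 2 * B + 1 := by
  have h0 : (0 : ℤ) ≤ ⌊B⌋ := Int.floor_nonneg.2 hB
  rw [Int.card_Icc]
  have h1 : (((⌊B⌋ + 1 - -⌊B⌋).toNat : ℕ) : ℤ) = 2 * ⌊B⌋ + 1 := by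
    rw [Int.toNat_of_nonneg (by omega)]
    ring
  have h2 : (((⌊B⌋ + 1 - -⌊B⌋).toNat : ℕ) : ℝ) = 2 * (⌊B⌋ : ℝ) + 1 := by exact_mod_cast h1
  rw [h2]
  linarith [Int.floor_le B]

theorem mem_Icc_floor {B : ℝ} {x : ℤ} (h : |(x : ℝ)| ≤ B) : x ∈ Icc (-⌊B⌋) ⌊B⌋ := by
  rw [abs_le] at h
  rw [mem_Icc]
  constructor
  · have : -x ≤ ⌊B⌋ := Int.le_floor.2 (by push_cast; linarith)
    linarith
  · exact Int.le_floor.2 h.2

/-- the pairs with a square entry -/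
theorem squares_few (K T : ℝ) (hK : 1 ≤ K) (hT : 1 ≤ T) :
    ({q : ℤ × ℤ | Bx K T q ∧ (IsSquare (ff q) ∨ IsSquare q.2)}.ncard : ℝ) ≤
      (3 * K * T) * (19 * K * T) + (3 * K * T) * (3 * K * T) := by
  classical
  have hKT : 1 ≤ K * T := by nlinarith
  set I1 : Finset ℤ := Icc (-⌊K * T⌋) ⌊K * T⌋ with hI1
  set I2 : Finset ℤ := Icc (-⌊9 * K * T⌋) ⌊9 * K * T⌋ with hI2
  have c1 : ((I1.card : ℕ) : ℝ) ≤ 3 * K * T := by
    have := card_Icc_le (K * T) (by positivity)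
    linarith
  have c2 : ((I2.card : ℕ) : ℝ) ≤ 19 * K * T := by
    have := card_Icc_le (9 * K * T) (by positivity)
    linarith
  set S : Finset (ℤ × ℤ) := (I1 ×ˢ I2).image (fun p => (p.1, (p.1 ^ 2 - p.2 ^ 2) / 64)) ∪
    (I1 ×ˢ I1).image (fun p => (p.1, p.2 ^ 2)) with hS
  have hsub : {q : ℤ × ℤ | Bx K T q ∧ (IsSquare (ff q) ∨ IsSquare q.2)} ⊆ (S : Set (ℤ × ℤ)) := by
    rintro q ⟨⟨h1, h2⟩, h3⟩
    rw [hS, mem_coe, mem_union, mem_image, mem_image]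
    have hm := mem_Icc_floor h1
    have hq1 : (q.1 : ℝ) ^ 2 ≤ (K * T) ^ 2 := sq_le_sq' (abs_le.1 h1).1 (abs_le.1 h1).2
    rcases h3 with ⟨b, hb⟩ | ⟨b, hb⟩
    · left
      refine ⟨(q.1, b), mem_product.2 ⟨hm, mem_Icc_floor ?_⟩, ?_⟩
      · have hb' : (b : ℝ) ^ 2 = (q.1 : ℝ) ^ 2 - 64 * q.2 := by
          have : ((ff q : ℤ) : ℝ) = ((b * b : ℤ) : ℝ) := by rw [hb]
          unfold ff at this
          push_cast at this
          linarith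
        have hb2 : (b : ℝ) ^ 2 ≤ (9 * K * T) ^ 2 := by
          rw [hb']
          have k1 := (abs_le.1 h2).1
          have k2 : K * T ^ 2 ≤ (K * T) ^ 2 := by
            have : 0 ≤ T ^ 2 := by positivity
            nlinarith
          nlinarith
        exact abs_le_of_sq_le_sq hb2 (by positivity)
      · refine Prod.ext rfl ?_
        simp only
        have : q.1 ^ 2 - b ^ 2 = 64 * q.2 := by
          unfold ff at hb
          linarith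
        rw [this]
        exact Int.mul_ediv_cancel_left _ (by norm_num)
    · right
      refine ⟨(q.1, b), mem_product.2 ⟨hm, mem_Icc_floor ?_⟩, ?_⟩
      · have hb' : (b : ℝ) ^ 2 = (q.2 : ℝ) := by
          rw [hb]
          push_cast
          ring
        have hb2 : (b : ℝ) ^ 2 ≤ (K * T) ^ 2 := by
          rw [hb']
          have k1 := (abs_le.1 h2).2
          have k2 : K * T ^ 2 ≤ (K * T) ^ 2 := by
            have : 0 ≤ T ^ 2 := by positivity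
            nlinarith
          linarith
        exact abs_le_of_sq_le_sq hb2 (by positivity)
      · refine Prod.ext rfl ?_
        simp only
        rw [hb]
        ring
  have h1 : ({q : ℤ × ℤ | Bx K T q ∧ (IsSquare (ff q) ∨ IsSquare q.2)}.ncard : ℝ) ≤ S.card := by
    have := Set.ncard_le_ncard hsub S.finite_toSet
    rw [Set.ncard_coe_finset] at this
    exact_mod_cast this
  refine h1.trans ?_
  have h2 : (S.card : ℝ) ≤ (I1.card : ℝ) * I2.card + (I1.card : ℝ) * I1.card := by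
    have e1 := card_union_le ((I1 ×ˢ I2).image (fun p => (p.1, (p.1 ^ 2 - p.2 ^ 2) / 64)))
      ((I1 ×ˢ I1).image (fun p => (p.1, p.2 ^ 2)))
    have e2 := card_image_le (s := I1 ×ˢ I2) (f := fun p => (p.1, (p.1 ^ 2 - p.2 ^ 2) / 64))
    have e3 := card_image_le (s := I1 ×ˢ I1) (f := fun p => (p.1, p.2 ^ 2))
    rw [card_product] at e2 e3
    exact_mod_cast e1.trans (add_le_add e2 e3)
  refine h2.trans ?_
  gcongr

end Pool.Agent.T2h82.As
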