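import Pool.Agent.T2h82.As.Psi
import Pool.Agent.T2h82.As.Tr
import Pool.Agent.T2h82.As.Const

/-!
# The pairs in the regions for the triples
-/

set_option autoImplicit false

namespace Pool.Agent.T2h82.As

open Finset Filter Topology
open Pool.Agent.H328R2.ABC (rad rad_pos)
open Pool.Agent.T2h82 (pw pw_pos)
open Pool.Agent.T2h82.Sq (gf IsT R3 Mem PP rad_pow)

/-- the pairs -/
def AS (K s t T : ℝ) : Set (ℤ × ℤ) :=
  Pt (Fn 1 (fun x => ((1 : ℕ) : ℤ) ∣ x - 0) (RS K s t)) T (T ^ 2)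

/-- the weight of a pair -/
noncomputable def wq (q : ℤ × ℤ) : ℝ := ws (pw q.1.natAbs) (pw q.2.natAbs) (pw (gf q).natAbs)

/-- the product of the three numbers -/
noncomputable def pq (q : ℤ × ℤ) : ℝ := |(q.1 : ℝ)| * (|(q.2 : ℝ)| * |((gf q : ℤ) : ℝ)|)

theorem wq_pos (q : ℤ × ℤ) : 0 < wq q := by
  unfold wq ws
  have h1 := ew_pos (pw_pos q.1.natAbs).ne'
  have h2 := ew_pos (pw_pos q.2.natAbs).ne'
  have h3 := ew_pos (pw_pos (gf q).natAbs).ne'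
  positivity

theorem cast_abs (n : ℤ) : (n.natAbs : ℝ) = |(n : ℝ)| := by
  rw [Nat.cast_natAbs]
  push_cast
  rfl

/-- the radical times the weight -/
theorem rad_wq {q : ℤ × ℤ} (h : Pr q) : (R3 (Psi q) : ℝ) * wq q = pq q := by
  have h1 := rad_ew (n := q.1.natAbs) (Int.natAbs_ne_zero.2 h.x0)
  have h2 := rad_ew (n := q.2.natAbs) (Int.natAbs_ne_zero.2 h.u0)
  have h3 := rad_ew (n := (gf q).natAbs) (Int.natAbs_ne_zero.2 h.f0)
  rw [psi_R3 h]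
  unfold wq ws pq
  rw [← cast_abs, ← cast_abs, ← cast_abs, ← h1, ← h2, ← h3]
  push_cast
  rw [h1, h2, h3]
  ring_nf
  rw [← h1, ← h2, ← h3]
  ring

/-- the sum is the largest of the three numbers -/
theorem psi_mx {q : ℤ × ℤ} (h : Pr q) : ((Psi q).2.2 : ℝ) = mx ((q.1 : ℝ), (q.2 : ℝ)) := by
  rw [psi_max h]
  unfold mx
  push_cast
  rw [cast_abs, cast_abs, cast_abs, sq_abs]
  unfold gf
  push_cast
  rfl

/-- the condition on the triple -/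
def Pc (s t : ℝ) (x : ℕ × ℕ × ℕ) : Prop := s * (x.2.2 : ℝ) ^ 5 ≤ t * (R3 x : ℝ) ^ 2

/-- the conditions on the triple and on the pair agree -/
theorem pc_iff {q : ℤ × ℤ} (h : Pr q) (s t : ℝ) : Pc s t (Psi q) ↔
    (s * wq q ^ 2) * mx ((q.1 : ℝ), (q.2 : ℝ)) ^ 5 ≤
      t * ((q.1 : ℝ) * ((q.2 : ℝ) * ((q.1 : ℝ) ^ 2 - q.2))) ^ 2 := by
  have h1 := rad_wq h
  have h2 := wq_pos q
  have p1 : 0 < wq q ^ 2 := by positivity
  have e1 : ((q.1 : ℝ) * ((q.2 : ℝ) * ((q.1 : ℝ) ^ 2 - q.2))) ^ 2 = pq q ^ 2 := by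
    unfold pq
    have : ((gf q : ℤ) : ℝ) = (q.1 : ℝ) ^ 2 - q.2 := by
      unfold gf
      push_cast
      rfl
    rw [this, mul_pow, mul_pow, mul_pow, mul_pow, sq_abs, sq_abs, sq_abs]
  rw [e1, ← h1]
  unfold Pc
  rw [psi_mx h, ← mul_le_mul_iff_left₀ p1]
  have e2 : s * mx ((q.1 : ℝ), (q.2 : ℝ)) ^ 5 * wq q ^ 2 =
      (s * wq q ^ 2) * mx ((q.1 : ℝ), (q.2 : ℝ)) ^ 5 := by ring
  have e3 : t * (R3 (Psi q) : ℝ) ^ 2 * wq q ^ 2 = t * ((R3 (Psi q) : ℝ) * wq q) ^ 2 := by ring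
  rw [e2, e3]

theorem mx_scale {T : ℝ} (hT : 0 < T) (x u : ℝ) : mx (x / T, u / T ^ 2) = mx (x, u) / T ^ 2 := by
  have hT2 : 0 < T ^ 2 := by positivity
  unfold mx
  simp only
  have e1 : (x / T) ^ 2 = x ^ 2 / T ^ 2 := by rw [div_pow]
  have e2 : |u / T ^ 2| = |u| / T ^ 2 := by rw [abs_div, abs_of_pos hT2]
  have e3 : |(x / T) ^ 2 - u / T ^ 2| = |x ^ 2 - u| / T ^ 2 := by
    rw [e1, ← sub_div, abs_div, abs_of_pos hT2]
  rw [e3, e1, e2, max_div_div_right hT2.le, max_div_div_right hT2.le]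

/-- the members of the set of the pairs -/
theorem mem_AS {K s t T : ℝ} (hT : 0 < T) (q : ℤ × ℤ) : q ∈ AS K s t T ↔
    Pr q ∧ Bx K T q ∧ (R3 (Psi q) : ℝ) ≤ T ^ 5 ∧ Pc s t (Psi q) := by
  have hT2 : 0 < T ^ 2 := by positivity
  have hfl : fl 1 (q.1, q.2) = gf q := by
    unfold fl gf
    ring
  unfold AS Pt Fn
  rw [Set.mem_ofPred_eq, hfl]
  by_cases h : q.1 ≠ 0 ∧ q.2 ≠ 0 ∧ gf q ≠ 0 ∧ IsCoprime q.1 q.2 ∧ ((1 : ℕ) : ℤ) ∣ q.1 - 0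
  · rw [if_pos h]
    have hP : Pr q := ⟨h.1, h.2.1, h.2.2.1, h.2.2.2.1⟩
    have hw : ws (pw q.1.natAbs) (pw q.2.natAbs) (pw (gf q).natAbs) = wq q := rfl
    have hw0 := wq_pos q
    unfold RS Lv
    rw [Set.mem_inter_iff, Set.mem_inter_iff, box_iff hT, Set.mem_ofPred_eq, Set.mem_ofPred_eq, hw,
      pc_iff hP, mx_scale hT]
    simp only
    have e1 : ((q.1 : ℝ) / T) ^ 2 - 1 * ((q.2 : ℝ) / T ^ 2) = ((gf q : ℤ) : ℝ) / T ^ 2 := by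
      unfold gf
      push_cast
      field_simp
    have e1' : ((q.1 : ℝ) / T) ^ 2 - ((q.2 : ℝ) / T ^ 2) = ((q.1 : ℝ) ^ 2 - q.2) / T ^ 2 := by
      field_simp
    have e2 : |(q.1 : ℝ) / T| ^ 1 * (|(q.2 : ℝ) / T ^ 2| * |((gf q : ℤ) : ℝ) / T ^ 2|) =
        pq q / T ^ 5 := by
      unfold pq
      rw [pow_one, abs_div, abs_div, abs_div, abs_of_pos hT, abs_of_pos hT2]
      field_simp
    have e3 : ((q.1 : ℝ) / T * ((q.2 : ℝ) / T ^ 2 * (((q.1 : ℝ) ^ 2 - q.2) / T ^ 2))) ^ 2 =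
        ((q.1 : ℝ) * ((q.2 : ℝ) * ((q.1 : ℝ) ^ 2 - q.2))) ^ 2 / T ^ 10 := by
      field_simp
    have e4 : (mx ((q.1 : ℝ), (q.2 : ℝ)) / T ^ 2) ^ 5 = mx ((q.1 : ℝ), (q.2 : ℝ)) ^ 5 / T ^ 10 := by
      rw [div_pow]
      congr 1
      ring
    rw [e1, e2, e1', e3, e4, mul_div_assoc', mul_div_assoc',
      div_le_div_iff_of_pos_right (by positivity : (0 : ℝ) < T ^ 10), ← rad_wq hP,
      div_le_iff₀ (by positivity), mul_comm (R3 (Psi q) : ℝ), mul_le_mul_iff_right₀ hw0]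
    constructor
    · rintro ⟨⟨k1, k2⟩, k3⟩
      exact ⟨hP, k1, k2, k3⟩
    · rintro ⟨-, k1, k2, k3⟩
      exact ⟨⟨k1, k2⟩, k3⟩
  · rw [if_neg h]
    constructor
    · intro h'
      exact absurd h' (Set.notMem_empty _)
    · rintro ⟨k, -⟩
      exact absurd ⟨k.x0, k.u0, k.f0, k.cop, by simp⟩ h

theorem AS_finite (K s t T : ℝ) (hT : 0 < T) : (AS K s t T).Finite :=
  (box_finite K T hT).subset (fun q hq => ((mem_AS hT q).1 hq).2.1)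

theorem rs_zero (K t : ℝ) (ht : 0 ≤ t) : RS K 0 t = RegJ 1 1 K := by
  funext v w z
  unfold RS RegJ
  rw [Set.inter_eq_left.2]
  · unfold ws
    norm_num
  · intro p _
    show (0 * ws v w z ^ 2) * mx p ^ 5 ≤ t * (p.1 * (p.2 * (p.1 ^ 2 - p.2))) ^ 2
    rw [zero_mul, zero_mul]
    positivity

end Pool.Agent.T2h82.As
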