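import Pool.Agent.T2h82.As.Reg

/-!
# Averages over residue classes as products
-/

set_option autoImplicit false

namespace Pool.Agent.T2h82.As

open Finset Filter Topology
open Pool.Agent.H328R2.ABC (rad rad_pos)
open Pool.Agent.T2h82 (pw pw_pos mul_rad_eq)
open scoped Nat

/-- the admissible classes -/
def Ac (c : ℤ) (d q : ℕ) (x u : ℤ) : Prop :=
  Nat.Coprime (Int.gcd x q) (Int.gcd u q) ∧ ((Nat.gcd q d : ℕ) : ℤ) ∣ x - c

open Classical in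
/-- the weight of a class -/
noncomputable def ph (l c : ℤ) (d : ℕ) (E1 E2 : ℕ → ℝ) (q : ℕ) (x u : ℤ) : ℝ :=
  if Ac c d q x u then E1 (Int.gcd x q) * (E2 (Int.gcd u q) * E2 (Int.gcd (fl l (x, u)) q)) else 0

/-- the average -/
noncomputable def hh (l c : ℤ) (d : ℕ) (E1 E2 : ℕ → ℝ) (q : ℕ) : ℝ :=
  (∑ r ∈ range q ×ˢ range q, ph l c d E1 E2 q r.1 r.2) / (q : ℝ) ^ 2

theorem igcd_eq (x : ℤ) (n : ℕ) : Int.gcd x n = Nat.gcd x.natAbs n := by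
  rw [Int.gcd_eq_natAbs_gcd_natAbs, Int.natAbs_natCast]

theorem igcd_mul (x : ℤ) {m n : ℕ} (h : Nat.Coprime m n) :
    Int.gcd x ((m * n : ℕ) : ℤ) = Int.gcd x m * Int.gcd x n := by
  rw [igcd_eq, igcd_eq, igcd_eq, Nat.Coprime.gcd_mul _ h]

theorem igcd_dvd (x : ℤ) (n : ℕ) : Int.gcd x n ∣ n := by
  rw [igcd_eq]
  exact Nat.gcd_dvd_right _ _

theorem ac_mul (c : ℤ) (d : ℕ) {m n : ℕ} (h : Nat.Coprime m n) (x u : ℤ) :
    Ac c d (m * n) x u ↔ Ac c d m x u ∧ Ac c d n x u := by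
  unfold Ac
  have h1 : Nat.gcd (m * n) d = Nat.gcd m d * Nat.gcd n d := by
    rw [Nat.gcd_comm, Nat.Coprime.gcd_mul _ h, Nat.gcd_comm d m, Nat.gcd_comm d n]
  have h2 : Nat.Coprime (Nat.gcd m d) (Nat.gcd n d) :=
    Nat.Coprime.coprime_dvd_left (Nat.gcd_dvd_left _ _)
      (Nat.Coprime.coprime_dvd_right (Nat.gcd_dvd_left _ _) h)
  rw [igcd_mul x h, igcd_mul u h, h1]
  have c1 : Nat.Coprime (Int.gcd x m) (Int.gcd u n) :=
    Nat.Coprime.coprime_dvd_left (igcd_dvd _ _) (Nat.Coprime.coprime_dvd_right (igcd_dvd _ _) h)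
  have c2 : Nat.Coprime (Int.gcd x n) (Int.gcd u m) :=
    Nat.Coprime.coprime_dvd_left (igcd_dvd _ _)
      (Nat.Coprime.coprime_dvd_right (igcd_dvd _ _) h.symm)
  rw [Nat.coprime_mul_iff_left, Nat.coprime_mul_iff_right, Nat.coprime_mul_iff_right]
  constructor
  · rintro ⟨⟨⟨a1, -⟩, -, a2⟩, a3⟩
    push_cast at a3
    exact ⟨⟨a1, (dvd_mul_right _ _).trans a3⟩, a2, (dvd_mul_left _ _).trans a3⟩
  · rintro ⟨⟨a1, a3⟩, a2, a4⟩
    refine ⟨⟨⟨a1, c1⟩, c2, a2⟩, ?_⟩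
    push_cast
    exact IsCoprime.mul_dvd (Nat.isCoprime_iff_coprime.2 h2) a3 a4

/-- multiplicative on coprime arguments -/
def Mu (E : ℕ → ℝ) : Prop := E 1 = 1 ∧ ∀ m n, m ≠ 0 → n ≠ 0 → Nat.Coprime m n → E (m * n) = E m * E n

theorem ph_mul (l c : ℤ) (d : ℕ) {E1 E2 : ℕ → ℝ} (h1 : Mu E1) (h2 : Mu E2) {m n : ℕ} (hm : m ≠ 0)
    (hn : n ≠ 0) (h : Nat.Coprime m n) (x u : ℤ) :
    ph l c d E1 E2 (m * n) x u = ph l c d E1 E2 m x u * ph l c d E1 E2 n x u := by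
  have hne : ∀ (y : ℤ) (k : ℕ), k ≠ 0 → Int.gcd y k ≠ 0 := by
    intro y k hk h0
    exact hk (Nat.eq_zero_of_zero_dvd (h0 ▸ igcd_dvd y k))
  have hc : ∀ y z : ℤ, Nat.Coprime (Int.gcd y m) (Int.gcd z n) := fun y z =>
    Nat.Coprime.coprime_dvd_left (igcd_dvd _ _) (Nat.Coprime.coprime_dvd_right (igcd_dvd _ _) h)
  unfold ph
  by_cases k1 : Ac c d m x u
  · by_cases k2 : Ac c d n x u
    · rw [if_pos ((ac_mul c d h x u).2 ⟨k1, k2⟩), if_pos k1, if_pos k2, igcd_mul x h, igcd_mul u h,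
        igcd_mul _ h, h1.2 _ _ (hne _ _ hm) (hne _ _ hn) (hc _ _),
        h2.2 _ _ (hne _ _ hm) (hne _ _ hn) (hc _ _), h2.2 _ _ (hne _ _ hm) (hne _ _ hn) (hc _ _)]
      ring
    · rw [if_neg (fun k => k2 ((ac_mul c d h x u).1 k).2), if_neg k2, mul_zero]
  · rw [if_neg (fun k => k1 ((ac_mul c d h x u).1 k).1), if_neg k1, zero_mul]

theorem igcd_mod (x : ℤ) (q : ℕ) : Int.gcd (x % q) q = Int.gcd x q := by
  conv_rhs => rw [← Int.emod_add_mul_ediv x q]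
  rw [Int.gcd_add_mul_left_left]

theorem ph_mod (l c : ℤ) (d : ℕ) (E1 E2 : ℕ → ℝ) (q : ℕ) (x u : ℤ) :
    ph l c d E1 E2 q (x % q) (u % q) = ph l c d E1 E2 q x u := by
  have e3 : Int.gcd (fl l (x % q, u % q)) q = Int.gcd (fl l (x, u)) q := by
    rw [← igcd_mod (fl l (x % q, u % q)), ← igcd_mod (fl l (x, u))]
    congr 1
    have h1 : (x % q) ≡ x [ZMOD q] := Int.mod_modEq _ _
    have h2 : (u % q) ≡ u [ZMOD q] := Int.mod_modEq _ _
    exact (h1.pow 2).sub (h2.mul_left l)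
  have e4 : ((Nat.gcd q d : ℕ) : ℤ) ∣ x % q - c ↔ ((Nat.gcd q d : ℕ) : ℤ) ∣ x - c := by
    have h1 : x - c = (x % q - c) + q * (x / q) := by
      have := Int.emod_add_mul_ediv x q
      linarith
    have h2 : ((Nat.gcd q d : ℕ) : ℤ) ∣ q * (x / q) :=
      (Int.natCast_dvd_natCast.2 (Nat.gcd_dvd_left _ _)).mul_right _
    rw [h1]
    exact (Int.dvd_add_left h2).symm
  have e5 : Ac c d q (x % q) (u % q) = Ac c d q x u := by
    unfold Ac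
    rw [igcd_mod, igcd_mod, propext e4]
  unfold ph
  rw [igcd_mod, igcd_mod, e3, e5]

/-- the Chinese remainder theorem for sums -/
theorem sum_crt (m n : ℕ) (hm : 0 < m) (hn : 0 < n) (h : Nat.Coprime m n) (f g : ℕ × ℕ → ℝ)
    (hf : ∀ r : ℕ × ℕ, f (r.1 % m, r.2 % m) = f r) (hg : ∀ r : ℕ × ℕ, g (r.1 % n, r.2 % n) = g r) :
    ∑ r ∈ range (m * n) ×ˢ range (m * n), f r * g r =
      (∑ r ∈ range m ×ˢ range m, f r) * (∑ r ∈ range n ×ˢ range n, g r) := by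
  rw [sum_mul_sum, ← sum_product']
  have hmaps : Set.MapsTo (fun r : ℕ × ℕ => ((r.1 % m, r.2 % m), (r.1 % n, r.2 % n)))
      (range (m * n) ×ˢ range (m * n) : Finset (ℕ × ℕ))
      ((range m ×ˢ range m) ×ˢ (range n ×ˢ range n) : Finset ((ℕ × ℕ) × (ℕ × ℕ))) := by
    intro r _
    rw [mem_coe, mem_product, mem_product, mem_product, mem_range, mem_range, mem_range, mem_range]
    exact ⟨⟨Nat.mod_lt _ hm, Nat.mod_lt _ hm⟩, Nat.mod_lt _ hn, Nat.mod_lt _ hn⟩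
  have hinj : Set.InjOn (fun r : ℕ × ℕ => ((r.1 % m, r.2 % m), (r.1 % n, r.2 % n)))
      (range (m * n) ×ˢ range (m * n) : Finset (ℕ × ℕ)) := by
    intro r hr r' hr' hrr
    rw [mem_coe, mem_product, mem_range, mem_range] at hr hr'
    simp only [Prod.mk.injEq] at hrr
    obtain ⟨⟨a1, a2⟩, a3, a4⟩ := hrr
    have k1 : r.1 ≡ r'.1 [MOD m * n] := (Nat.modEq_and_modEq_iff_modEq_mul h).1 ⟨a1, a3⟩
    have k2 : r.2 ≡ r'.2 [MOD m * n] := (Nat.modEq_and_modEq_iff_modEq_mul h).1 ⟨a2, a4⟩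
    exact Prod.ext (Nat.ModEq.eq_of_lt_of_lt k1 hr.1 hr'.1)
      (Nat.ModEq.eq_of_lt_of_lt k2 hr.2 hr'.2)
  refine sum_nbij _ hmaps hinj ?_ (fun r _ => ?_)
  · refine surjOn_of_injOn_of_card_le _ hmaps hinj (le_of_eq ?_)
    simp only [card_product, card_range]
    ring
  · simp only
    rw [hf r, hg r]

theorem hh_mul (l c : ℤ) (d : ℕ) {E1 E2 : ℕ → ℝ} (h1 : Mu E1) (h2 : Mu E2) (m n : ℕ) (hm : m ≠ 0)
    (hn : n ≠ 0) (h : Nat.Coprime m n) :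
    hh l c d E1 E2 (m * n) = hh l c d E1 E2 m * hh l c d E1 E2 n := by
  have hmod : ∀ (q : ℕ) (r : ℕ × ℕ), ph l c d E1 E2 q ((r.1 % q : ℕ) : ℤ) ((r.2 % q : ℕ) : ℤ) =
      ph l c d E1 E2 q r.1 r.2 := by
    intro q r
    push_cast
    exact ph_mod _ _ _ _ _ _ _ _
  have key := sum_crt m n (Nat.pos_of_ne_zero hm) (Nat.pos_of_ne_zero hn) h
    (fun r => ph l c d E1 E2 m r.1 r.2) (fun r => ph l c d E1 E2 n r.1 r.2)
    (fun r => hmod m r) (fun r => hmod n r)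
  unfold hh
  rw [div_mul_div_comm, ← key]
  congr 1
  · exact sum_congr rfl (fun r _ => ph_mul l c d h1 h2 hm hn h _ _)
  · push_cast
    ring

end Pool.Agent.T2h82.As
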