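import Pool.Agent.T2h82.As.RegS
import Pool.Agent.T2h82.Sq.Fin

/-!
# The triple of a pair
-/

set_option autoImplicit false

namespace Pool.Agent.T2h82.As

open Finset
open Pool.Agent.H328R2.ABC (rad rad_pos)
open Pool.Agent.T2h82 (pw pw_pos)
open Pool.Agent.T2h82.Sq (gf IsT R3 Mem PP rad_pow)
open Pool.Agent.H328R2.ABC.RadSumAux (rad_mul_cop)

/-- the sorted triple with first members `m`, `n` -/
def srt (m n : ℕ) : ℕ × ℕ × ℕ := (min m n, max m n, m + n)

theorem srt_comm (m n : ℕ) : srt m n = srt n m := by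
  unfold srt
  rw [min_comm, max_comm, add_comm]

/-- the triple of the pair `(x, u)` -/
def Psi (q : ℤ × ℤ) : ℕ × ℕ × ℕ :=
  if q.2 < 0 then srt (q.1.natAbs ^ 2) q.2.natAbs
  else if q.2 < q.1 ^ 2 then srt q.2.natAbs (gf q).natAbs
  else srt (q.1.natAbs ^ 2) (gf q).natAbs

/-- the pairs considered -/
structure Pr (q : ℤ × ℤ) : Prop where
  x0 : q.1 ≠ 0
  u0 : q.2 ≠ 0
  f0 : gf q ≠ 0
  cop : IsCoprime q.1 q.2

theorem sqabs (x : ℤ) : ((x.natAbs ^ 2 : ℕ) : ℤ) = x ^ 2 := by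
  push_cast
  rw [sq_abs]

theorem psi_neg (q : ℤ × ℤ) : Psi (-q.1, q.2) = Psi q := by
  have h1 : gf (-q.1, q.2) = gf q := by unfold gf; ring
  unfold Psi
  rw [h1]
  simp only [Int.natAbs_neg, neg_sq]

theorem psi_swap {q : ℤ × ℤ} (h : Pr q) : Psi (q.1, gf q) = Psi q := by
  have h1 : gf (q.1, gf q) = q.2 := by unfold gf; ring
  have hf := h.f0
  have hu := h.u0
  have hg : gf q = q.1 ^ 2 - q.2 := rfl
  have hx : 0 < q.1 ^ 2 := by
    have := h.x0
    positivity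
  unfold Psi
  rw [h1]
  simp only
  by_cases c1 : q.2 < 0
  · rw [if_pos c1, if_neg (by omega), if_neg (by omega)]
  · by_cases c2 : q.2 < q.1 ^ 2
    · rw [if_neg c1, if_pos c2, if_neg (by omega), if_pos (by omega), srt_comm]
    · rw [if_neg c1, if_neg c2, if_pos (by omega)]

theorem pr_swap {q : ℤ × ℤ} (h : Pr q) : Pr (q.1, gf q) := by
  have h1 : gf (q.1, gf q) = q.2 := by unfold gf; ring
  refine ⟨h.x0, h.f0, by rw [h1]; exact h.u0, ?_⟩
  obtain ⟨a, b, hab⟩ := h.cop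
  refine ⟨a + b * q.1, -b, ?_⟩
  unfold gf
  linear_combination hab

theorem pr_neg {q : ℤ × ℤ} (h : Pr q) : Pr (-q.1, q.2) := by
  have h1 : gf (-q.1, q.2) = gf q := by unfold gf; ring
  exact ⟨neg_ne_zero.2 h.x0, h.u0, by rw [h1]; exact h.f0, h.cop.neg_left⟩

/-- the three members in the three cases -/
theorem psi_cases {q : ℤ × ℤ} (h : Pr q) :
    (Psi q = srt (q.1.natAbs ^ 2) q.2.natAbs ∧ q.1.natAbs ^ 2 + q.2.natAbs = (gf q).natAbs) ∨
    (Psi q = srt q.2.natAbs (gf q).natAbs ∧ q.2.natAbs + (gf q).natAbs = q.1.natAbs ^ 2) ∨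
    (Psi q = srt (q.1.natAbs ^ 2) (gf q).natAbs ∧
      q.1.natAbs ^ 2 + (gf q).natAbs = q.2.natAbs) := by
  have hf := h.f0
  have hu := h.u0
  have hg : gf q = q.1 ^ 2 - q.2 := rfl
  have hs := sqabs q.1
  unfold Psi
  by_cases c1 : q.2 < 0
  · left
    rw [if_pos c1]
    exact ⟨rfl, by omega⟩
  · right
    rw [if_neg c1]
    by_cases c2 : q.2 < q.1 ^ 2
    · left
      rw [if_pos c2]
      exact ⟨rfl, by omega⟩
    · right
      rw [if_neg c2]
      exact ⟨rfl, by omega⟩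

theorem pr_cops {q : ℤ × ℤ} (h : Pr q) : Nat.Coprime (q.1.natAbs ^ 2) q.2.natAbs ∧
    Nat.Coprime (q.1.natAbs ^ 2) (gf q).natAbs ∧ Nat.Coprime q.2.natAbs (gf q).natAbs := by
  have c1 : Nat.Coprime q.1.natAbs q.2.natAbs := Int.isCoprime_iff_gcd_eq_one.1 h.cop
  have c2 : Nat.Coprime q.1.natAbs (gf q).natAbs := Int.isCoprime_iff_gcd_eq_one.1 (pr_swap h).cop
  have c3 : IsCoprime q.2 (gf q) := by
    obtain ⟨a, b, hab⟩ := (h.cop.pow_left (m := 2))
    refine ⟨a + b, a, ?_⟩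
    unfold gf
    linear_combination hab
  exact ⟨c1.pow_left 2, c2.pow_left 2, Int.isCoprime_iff_gcd_eq_one.1 c3⟩

theorem srt_isT {m n : ℕ} (hm : 0 < m) (hn : 0 < n) (hc : Nat.Coprime m n) : IsT (srt m n) := by
  unfold srt
  refine ⟨lt_min hm hn, min_le_max, ?_, ?_⟩
  · simp only
    rcases le_total m n with h | h
    · rw [min_eq_left h, max_eq_right h]
      exact hc
    · rw [min_eq_right h, max_eq_left h]
      exact hc.symm
  · simp only
    rw [min_add_max]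

theorem srt_R3 (m n : ℕ) : R3 (srt m n) = rad (m * n * (m + n)) := by
  have e : R3 (srt m n) = rad (min m n * max m n * (m + n)) := rfl
  rw [e, min_mul_max]

theorem psi_isT {q : ℤ × ℤ} (h : Pr q) : IsT (Psi q) := by
  obtain ⟨c1, c2, c3⟩ := pr_cops h
  have hx : 0 < q.1.natAbs ^ 2 := by
    have := h.x0
    have : 0 < q.1.natAbs := by omega
    positivity
  have hu : 0 < q.2.natAbs := by
    have := h.u0
    omega
  have hf : 0 < (gf q).natAbs := by
    have := h.f0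
    omega
  rcases psi_cases h with ⟨e, -⟩ | ⟨e, -⟩ | ⟨e, -⟩
  · rw [e]; exact srt_isT hx hu c1
  · rw [e]; exact srt_isT hu hf c3
  · rw [e]; exact srt_isT hx hf c2

theorem psi_R3 {q : ℤ × ℤ} (h : Pr q) :
    R3 (Psi q) = rad q.1.natAbs * (rad q.2.natAbs * rad (gf q).natAbs) := by
  obtain ⟨c1, c2, c3⟩ := pr_cops h
  have key : rad (q.1.natAbs ^ 2 * (q.2.natAbs * (gf q).natAbs)) =
      rad q.1.natAbs * (rad q.2.natAbs * rad (gf q).natAbs) := by
    rw [rad_mul_cop (Nat.Coprime.mul_right c1 c2), rad_mul_cop c3, rad_pow (by norm_num)]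
  rw [← key]
  rcases psi_cases h with ⟨e, e'⟩ | ⟨e, e'⟩ | ⟨e, e'⟩
  · rw [e, srt_R3, e']
    congr 1
    ring
  · rw [e, srt_R3, e']
    congr 1
    ring
  · rw [e, srt_R3, e']
    congr 1
    ring

theorem psi_max {q : ℤ × ℤ} (h : Pr q) :
    (Psi q).2.2 = max (q.1.natAbs ^ 2) (max q.2.natAbs (gf q).natAbs) := by
  rcases psi_cases h with ⟨e, e'⟩ | ⟨e, e'⟩ | ⟨e, e'⟩
  · rw [e]
    unfold srt
    simp only
    omega
  · rw [e]
    unfold srt
    simp only
    omega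
  · rw [e]
    unfold srt
    simp only
    omega

/-- the members of the triple -/
theorem psi_mem {q : ℤ × ℤ} (h : Pr q) (n : ℕ) :
    (n = (Psi q).1 ∨ n = (Psi q).2.1 ∨ n = (Psi q).2.2) ↔
      (n = q.1.natAbs ^ 2 ∨ n = q.2.natAbs ∨ n = (gf q).natAbs) := by
  rcases psi_cases h with ⟨e, e'⟩ | ⟨e, e'⟩ | ⟨e, e'⟩
  · rw [e]
    unfold srt
    simp only
    omega
  · rw [e]
    unfold srt
    simp only
    omega
  · rw [e]
    unfold srt
    simp only
    omega

/-- a triple with a square member comes from a pair -/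
theorem psi_exists {t : ℕ × ℕ × ℕ} (ht : IsT t) {x : ℕ}
    (hx : t.1 = x ^ 2 ∨ t.2.1 = x ^ 2 ∨ t.2.2 = x ^ 2) :
    ∃ q : ℤ × ℤ, Pr q ∧ Psi q = t ∧ q.1 = x := by
  obtain ⟨k1, k2, k3⟩ := ht.cop
  obtain ⟨a, b, c⟩ := t
  obtain ⟨h1, h2, h3, h4⟩ := ht
  simp only at *
  have hx0 : 0 < x := by
    rcases Nat.eq_zero_or_pos x with h | h
    · rw [h] at hx; omega
    · exact h
  rcases hx with hx | hx | hx
  · have hg : gf ((x : ℤ), -(b : ℤ)) = (c : ℤ) := by
      unfold gf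
      have : (a : ℤ) = (x : ℤ) ^ 2 := by exact_mod_cast hx
      simp only
      omega
    have hP : Pr ((x : ℤ), -(b : ℤ)) := by
      refine ⟨by simp only; omega, by simp only; omega, by rw [hg]; omega, ?_⟩
      simp only
      rw [IsCoprime.neg_right_iff, Nat.isCoprime_iff_coprime]
      rw [hx] at k1
      exact Nat.Coprime.coprime_dvd_left (dvd_pow_self x (by norm_num)) k1
    refine ⟨_, hP, ?_, rfl⟩
    unfold Psi
    rw [if_pos (by simp only; omega)]
    unfold srt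
    simp only [Int.natAbs_natCast, Int.natAbs_neg, ← hx]
    rw [min_eq_left h2, max_eq_right h2, h4]
  · have hg : gf ((x : ℤ), -(a : ℤ)) = (c : ℤ) := by
      unfold gf
      have : (b : ℤ) = (x : ℤ) ^ 2 := by exact_mod_cast hx
      simp only
      omega
    have hP : Pr ((x : ℤ), -(a : ℤ)) := by
      refine ⟨by simp only; omega, by simp only; omega, by rw [hg]; omega, ?_⟩
      simp only
      rw [IsCoprime.neg_right_iff, Nat.isCoprime_iff_coprime]
      rw [hx] at k1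
      exact (Nat.Coprime.coprime_dvd_right (dvd_pow_self x (by norm_num)) k1).symm
    refine ⟨_, hP, ?_, rfl⟩
    unfold Psi
    rw [if_pos (by simp only; omega)]
    unfold srt
    simp only [Int.natAbs_natCast, Int.natAbs_neg, ← hx]
    rw [min_eq_right h2, max_eq_left h2, ← h4, add_comm]
  · have hc : (c : ℤ) = (x : ℤ) ^ 2 := by exact_mod_cast hx
    have hg : gf ((x : ℤ), (a : ℤ)) = (b : ℤ) := by
      unfold gf
      simp only
      omega
    have hP : Pr ((x : ℤ), (a : ℤ)) := by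
      refine ⟨by simp only; omega, by simp only; omega, by rw [hg]; omega, ?_⟩
      simp only
      rw [Nat.isCoprime_iff_coprime]
      rw [hx] at k2
      exact (Nat.Coprime.coprime_dvd_right (dvd_pow_self x (by norm_num)) k2).symm
    refine ⟨_, hP, ?_, rfl⟩
    unfold Psi
    rw [if_neg (by simp only; omega), if_pos (by simp only; rw [← hc]; omega), hg]
    unfold srt
    simp only [Int.natAbs_natCast]
    rw [min_eq_left h2, max_eq_right h2, h4]

/-- the four pairs are different -/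
theorem four_ne {q : ℤ × ℤ} (h : Pr q) : q.1 ≠ -q.1 ∧ q.2 ≠ gf q := by
  have hx := h.x0
  refine ⟨by omega, fun he => ?_⟩
  have h1 : q.1 ^ 2 = 2 * q.2 := by
    have : gf q = q.1 ^ 2 - q.2 := rfl
    linarith
  have h2 : IsCoprime (q.1 ^ 2) q.2 := h.cop.pow_left
  have h3 : q.2 ∣ q.1 ^ 2 := ⟨2, by linarith⟩
  have h4 : IsUnit q.2 := h2.isUnit_of_dvd' h3 dvd_rfl
  rw [Int.isUnit_iff] at h4
  have h5 : (2 : ℤ) ∣ q.1 := Int.prime_two.dvd_of_dvd_pow ⟨q.2, h1⟩
  obtain ⟨k, hk⟩ := h5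
  rw [hk] at h1
  rcases h4 with h4 | h4
  · rw [h4] at h1
    have : 2 * k ^ 2 = 1 := by nlinarith
    omega
  · rw [h4] at h1
    nlinarith [sq_nonneg k]

/-- the fibre of a good pair -/
theorem fibre {q q' : ℤ × ℤ} (h : Pr q) (h' : Pr q') (he : Psi q' = Psi q)
    (hu : ¬ IsSquare q.2.natAbs) (hf : ¬ IsSquare (gf q).natAbs) :
    q' = q ∨ q' = (-q.1, q.2) ∨ q' = (q.1, gf q) ∨ q' = (-q.1, gf q) := by
  have m1 := (psi_mem h' (q'.1.natAbs ^ 2)).2 (Or.inl rfl)
  rw [he, psi_mem h] at m1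
  have hx : q'.1.natAbs ^ 2 = q.1.natAbs ^ 2 := by
    rcases m1 with m | m | m
    · exact m
    · exact absurd ⟨q'.1.natAbs, by rw [← m]; ring⟩ hu
    · exact absurd ⟨q'.1.natAbs, by rw [← m]; ring⟩ hf
  have hxx : q'.1 ^ 2 = q.1 ^ 2 := by
    have := congrArg (Nat.cast : ℕ → ℤ) hx
    rw [sqabs, sqabs] at this
    exact this
  have hx' : q'.1 = q.1 ∨ q'.1 = -q.1 := sq_eq_sq_iff_eq_or_eq_neg.1 hxx
  have hg : gf q = q.1 ^ 2 - q.2 := rfl
  have hg' : gf q' = q.1 ^ 2 - q'.2 := by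
    unfold gf
    rw [hxx]
  -- the pair of the other members
  have hpair : (q'.2.natAbs = q.2.natAbs ∧ (gf q').natAbs = (gf q).natAbs) ∨
      (q'.2.natAbs = (gf q).natAbs ∧ (gf q').natAbs = q.2.natAbs) := by
    have hu0 := h.u0
    have hf0 := h.f0
    have hu0' := h'.u0
    have hf0' := h'.f0
    have hx0 := h.x0
    have hs := sqabs q.1
    have hs' := sqabs q'.1
    set A := q.1.natAbs ^ 2
    rcases psi_cases h with ⟨e, e'⟩ | ⟨e, e'⟩ | ⟨e, e'⟩ <;>
      rcases psi_cases h' with ⟨d, d'⟩ | ⟨d, d'⟩ | ⟨d, d'⟩ <;>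
      (rw [e, d] at he; unfold srt at he; simp only [Prod.mk.injEq] at he; omega)
  have hu' : q'.2 = q.2 ∨ q'.2 = gf q := by
    have hu0 := h.u0
    have hf0 := h.f0
    have hx0 : 0 < q.1 ^ 2 := by
      have := h.x0
      positivity
    rcases hpair with ⟨p1, p2⟩ | ⟨p1, p2⟩
    · rcases Int.natAbs_eq_natAbs_iff.1 p1 with r1 | r1
      · exact Or.inl r1
      · exfalso
        rw [hg', hg] at p2
        rcases Int.natAbs_eq_natAbs_iff.1 p2 with r2 | r2 <;> omega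
    · rcases Int.natAbs_eq_natAbs_iff.1 p1 with r1 | r1
      · exact Or.inr r1
      · exfalso
        rw [hg'] at p2
        rcases Int.natAbs_eq_natAbs_iff.1 p2 with r2 | r2 <;> omega
  rcases hx' with r1 | r1 <;> rcases hu' with r2 | r2
  · exact Or.inl (Prod.ext r1 r2)
  · exact Or.inr (Or.inr (Or.inl (Prod.ext r1 r2)))
  · exact Or.inr (Or.inl (Prod.ext r1 r2))
  · exact Or.inr (Or.inr (Or.inr (Prod.ext r1 r2)))

end Pool.Agent.T2h82.As
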