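import Pool.Agent.T2h82.As.Lim
import Pool.Agent.T2h82.Rankin2

/-!
# The regions
-/

set_option autoImplicit false

namespace Pool.Agent.T2h82.As

open MeasureTheory Set Filter Topology
open Pool.Agent.H328R2.ABC (rad rad_pos)
open Pool.Agent.T2h82 (pw pw_pos pw_dvd mul_rad_eq)

theorem null_rows (S : Set (ℝ × ℝ)) (hS : MeasurableSet S)
    (h : ∀ α : ℝ, α ≠ 0 → {ν : ℝ | (α, ν) ∈ S}.Finite) : volume S = 0 := by
  rw [Measure.volume_eq_prod, Measure.measure_prod_null hS]
  have h0 : ∀ᵐ α : ℝ, α ≠ 0 := by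
    rw [ae_iff]
    simp
  filter_upwards [h0] with α hα
  exact (h α hα).measure_zero _

theorem quad_finite (A B C : ℝ) (h : A ≠ 0 ∨ B ≠ 0 ∨ C ≠ 0) :
    {x : ℝ | A * x ^ 2 + B * x + C = 0}.Finite := by
  set p : Polynomial ℝ := Polynomial.C A * Polynomial.X ^ 2 + Polynomial.C B * Polynomial.X +
    Polynomial.C C with hp
  have hp0 : p ≠ 0 := by
    intro h0
    have c0 : p.coeff 0 = C := by
      rw [hp]
      simp [Polynomial.coeff_X, Polynomial.coeff_C]
    have c1 : p.coeff 1 = B := by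
      rw [hp]
      simp [Polynomial.coeff_X_pow, Polynomial.coeff_C]
    have c2 : p.coeff 2 = A := by
      rw [hp]
      simp [Polynomial.coeff_X, Polynomial.coeff_C]
    rw [h0] at c0 c1 c2
    simp only [Polynomial.coeff_zero] at c0 c1 c2
    rcases h with h | h | h
    · exact h c2.symm
    · exact h c1.symm
    · exact h c0.symm
  refine (Polynomial.finite_setOfPred_isRoot hp0).subset ?_
  intro x hx
  simp only [mem_ofPred_eq, Polynomial.IsRoot.def, hp, Polynomial.eval_add, Polynomial.eval_mul,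
    Polynomial.eval_C, Polynomial.eval_pow, Polynomial.eval_X] at hx ⊢
  exact hx

/-- a level set `|x| ^ j |u| |x ^ 2 - l u| = m` is negligible -/
theorem null_level (l : ℝ) (hl : l ≠ 0) (j : ℕ) (m : ℝ) :
    volume {p : ℝ × ℝ | |p.1| ^ j * (|p.2| * |p.1 ^ 2 - l * p.2|) = m} = 0 := by
  refine null_rows _ ?_ (fun α hα => ?_)
  · exact (isClosed_eq (by fun_prop) continuous_const).measurableSet
  · have h0 : 0 < |α| ^ j := by positivity
    set m' := m / |α| ^ j with hm'
    refine ((quad_finite (-l) (α ^ 2) (-m') (Or.inl (neg_ne_zero.2 hl))).union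
      (quad_finite (-l) (α ^ 2) m' (Or.inl (neg_ne_zero.2 hl)))).subset ?_
    intro ν hν
    simp only [mem_ofPred_eq] at hν
    have h1 : |ν * (α ^ 2 - l * ν)| = m' := by
      rw [hm', eq_div_iff h0.ne', abs_mul]
      linarith
    simp only [mem_union, mem_ofPred_eq]
    rcases eq_or_eq_neg_of_abs_eq h1 with h | h
    · left
      linarith
    · right
      linarith

/-- the set `s |u| = t |x ^ 2 - l u|` is negligible -/
theorem null_cone (l : ℝ) (s t : ℝ) (ht : t ≠ 0) :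
    volume {p : ℝ × ℝ | s * |p.2| = t * |p.1 ^ 2 - l * p.2|} = 0 := by
  refine null_rows _ ?_ (fun α hα => ?_)
  · exact (isClosed_eq (by fun_prop) (by fun_prop)).measurableSet
  · have hα2 : t * α ^ 2 ≠ 0 := by positivity
    refine ((quad_finite 0 (s + t * l) (-(t * α ^ 2)) (Or.inr (Or.inr (neg_ne_zero.2 hα2)))).union
      (quad_finite 0 (s - t * l) (t * α ^ 2) (Or.inr (Or.inr hα2)))).subset ?_
    intro ν hν
    simp only [mem_ofPred_eq] at hν
    simp only [mem_union, mem_ofPred_eq]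
    have h1 : |s * ν| = |t * (α ^ 2 - l * ν)| := by
      have h2 : (s * |ν|) ^ 2 = (t * |α ^ 2 - l * ν|) ^ 2 := by rw [hν]
      rw [mul_pow, mul_pow, sq_abs, sq_abs] at h2
      rw [← sq_eq_sq_iff_abs_eq_abs]
      linarith
    rcases abs_eq_abs.1 h1 with h | h
    · left
      linarith
    · right
      linarith

/-- the set `s |x ^ 2 - l u| = t |u|` is negligible -/
theorem null_cone' (l : ℝ) (hl : l ≠ 0) (s t : ℝ) (ht : t ≠ 0) :
    volume {p : ℝ × ℝ | s * |p.1 ^ 2 - l * p.2| = t * |p.2|} = 0 := by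
  refine null_rows _ ?_ (fun α hα => ?_)
  · exact (isClosed_eq (by fun_prop) (by fun_prop)).measurableSet
  · have key : ∀ e : ℝ, {ν : ℝ | 0 * ν ^ 2 + (t * e + s * l) * ν + -(s * α ^ 2) = 0}.Finite ∨
        (s = 0 ∧ e = 0) := by
      intro e
      by_cases hs : s = 0
      · by_cases he : e = 0
        · exact Or.inr ⟨hs, he⟩
        · left
          refine quad_finite _ _ _ (Or.inr (Or.inl ?_))
          rw [hs, zero_mul, add_zero]
          exact mul_ne_zero ht he
      · left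
        refine quad_finite _ _ _ (Or.inr (Or.inr ?_))
        rw [neg_ne_zero]
        positivity
    have k1 : {ν : ℝ | 0 * ν ^ 2 + (t * 1 + s * l) * ν + -(s * α ^ 2) = 0}.Finite := by
      rcases key 1 with h | h
      · exact h
      · exact absurd h.2 one_ne_zero
    have k2 : {ν : ℝ | 0 * ν ^ 2 + (t * (-1) + s * l) * ν + -(s * α ^ 2) = 0}.Finite := by
      rcases key (-1) with h | h
      · exact h
      · exact absurd h.2 (by norm_num)
    refine (k1.union k2).subset ?_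
    intro ν hν
    simp only [mem_ofPred_eq] at hν
    simp only [mem_union, mem_ofPred_eq]
    have h1 : |s * (α ^ 2 - l * ν)| = |t * ν| := by
      have h2 : (s * |α ^ 2 - l * ν|) ^ 2 = (t * |ν|) ^ 2 := by rw [hν]
      rw [mul_pow, mul_pow, sq_abs, sq_abs] at h2
      rw [← sq_eq_sq_iff_abs_eq_abs]
      linarith
    rcases abs_eq_abs.1 h1 with h | h
    · left
      linarith
    · right
      linarith

/-- `n / rad n` -/
noncomputable def ew (n : ℕ) : ℝ := (n : ℝ) / rad n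

theorem rad_ew {n : ℕ} (hn : n ≠ 0) : (rad n : ℝ) * ew (pw n) = n := by
  have h1 := mul_rad_eq hn
  have h2 : (0 : ℝ) < rad (pw n) := by exact_mod_cast rad_pos _
  unfold ew
  rw [mul_div_assoc', div_eq_iff h2.ne']
  exact_mod_cast h1.symm

theorem ew_pos {n : ℕ} (hn : n ≠ 0) : 0 < ew n := by
  have h2 : (0 : ℝ) < rad n := by exact_mod_cast rad_pos _
  have h1 : (0 : ℝ) < n := by exact_mod_cast Nat.pos_of_ne_zero hn
  unfold ew
  positivity

theorem ew_nonneg (n : ℕ) : 0 ≤ ew n := by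
  unfold ew
  positivity

/-- the box and the condition on the product -/
def Lv (l : ℝ) (j : ℕ) (K m : ℝ) : Set (ℝ × ℝ) :=
  (Icc (-K) K ×ˢ Icc (-K) K) ∩ {p | |p.1| ^ j * (|p.2| * |p.1 ^ 2 - l * p.2|) ≤ m}

theorem lv_nice (l : ℝ) (hl : l ≠ 0) (j : ℕ) (K m : ℝ) : Nice (Lv l j K m) :=
  (nice_box K K).inter_le (by fun_prop) continuous_const (null_level l hl j m)

theorem lv_sub (l : ℝ) (j : ℕ) (K m : ℝ) : Lv l j K m ⊆ Icc (-K) K ×ˢ Icc (-K) K :=
  inter_subset_left

/-- the regions for the curves of the first kind -/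
def R1 (K s t : ℝ) (_ w z : ℕ) : Set (ℝ × ℝ) :=
  Lv 64 0 K (ew w * ew z) ∩ {p | (s * (ew w * ew z) ^ 3) * |p.2| ≤ t * |p.1 ^ 2 - 64 * p.2|}

/-- the regions for the curves of the second kind -/
def R2 (K s t : ℝ) (_ w z : ℕ) : Set (ℝ × ℝ) :=
  Lv 64 0 K (ew w * ew z) ∩ {p | (s * (ew w * ew z) ^ 3) * |p.1 ^ 2 - 64 * p.2| ≤ t * |p.2|}

theorem r1_nice (K s t : ℝ) (ht : t ≠ 0) (v w z : ℕ) : Nice (R1 K s t v w z) :=
  (lv_nice 64 (by norm_num) 0 K _).inter_le (by fun_prop) (by fun_prop) (null_cone 64 _ t ht)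

theorem r2_nice (K s t : ℝ) (ht : t ≠ 0) (v w z : ℕ) : Nice (R2 K s t v w z) :=
  (lv_nice 64 (by norm_num) 0 K _).inter_le (by fun_prop) (by fun_prop)
    (null_cone' 64 (by norm_num) _ t ht)

theorem r1_sub (K s t : ℝ) (v w z : ℕ) : R1 K s t v w z ⊆ Icc (-K) K ×ˢ Icc (-K) K :=
  inter_subset_left.trans (lv_sub _ _ _ _)

theorem r2_sub (K s t : ℝ) (v w z : ℕ) : R2 K s t v w z ⊆ Icc (-K) K ×ˢ Icc (-K) K :=
  inter_subset_left.trans (lv_sub _ _ _ _)

end Pool.Agent.T2h82.As
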