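import Pool.Agent.T2h82.As.Reg

/-!
# The regions for the triples with a square member
-/

set_option autoImplicit false

namespace Pool.Agent.T2h82.As

open MeasureTheory Set Filter Topology

theorem poly_finite (a : ℕ → ℝ) (n i : ℕ) (hi : i ≤ n) (h : a i ≠ 0) :
    {x : ℝ | ∑ k ∈ Finset.range (n + 1), a k * x ^ k = 0}.Finite := by
  set p : Polynomial ℝ := ∑ k ∈ Finset.range (n + 1), Polynomial.C (a k) * Polynomial.X ^ k with hp
  have hp0 : p ≠ 0 := by
    intro h0
    have c1 : p.coeff i = a i := by
      rw [hp, Polynomial.finsetSum_coeff]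
      simp only [Polynomial.coeff_C_mul, Polynomial.coeff_X_pow, mul_ite, mul_one, mul_zero]
      rw [Finset.sum_ite_eq]
      simp only [Finset.mem_range]
      rw [if_pos (by omega)]
    rw [h0, Polynomial.coeff_zero] at c1
    exact h c1.symm
  refine (Polynomial.finite_setOfPred_isRoot hp0).subset ?_
  intro x hx
  simp only [mem_ofPred_eq, Polynomial.IsRoot.def, hp, Polynomial.eval_finsetSum,
    Polynomial.eval_mul, Polynomial.eval_C, Polynomial.eval_pow, Polynomial.eval_X] at hx ⊢
  exact hx

theorem quint_finite (b c e : ℝ) (hb : b ≠ 0) (hc : c ≠ 0) :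
    {x : ℝ | e * x ^ 5 - b * (x ^ 2 * (c - x) ^ 2) = 0}.Finite := by
  have h1 := poly_finite (fun k => if k = 2 then -(b * c ^ 2) else if k = 3 then 2 * b * c else
    if k = 4 then -b else if k = 5 then e else 0) 5 2 (by norm_num) (by
      simp only [if_true]
      exact neg_ne_zero.2 (mul_ne_zero hb (pow_ne_zero _ hc)))
  refine h1.subset ?_
  intro x hx
  simp only [mem_ofPred_eq] at hx ⊢
  refine Eq.trans ?_ hx
  simp only [Finset.sum_range_succ, Finset.sum_range_zero]
  norm_num
  ring

theorem quart_finite (b c e : ℝ) (hb : b ≠ 0) :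
    {x : ℝ | e - b * (x ^ 2 * (c - x) ^ 2) = 0}.Finite := by
  have h1 := poly_finite (fun k => if k = 0 then e else if k = 2 then -(b * c ^ 2) else
    if k = 3 then 2 * b * c else if k = 4 then -b else 0) 4 4 le_rfl (by
      norm_num
      exact hb)
  refine h1.subset ?_
  intro x hx
  simp only [mem_ofPred_eq] at hx ⊢
  refine Eq.trans ?_ hx
  simp only [Finset.sum_range_succ, Finset.sum_range_zero]
  norm_num
  ring

/-- the largest of `x ^ 2`, `|u|`, `|x ^ 2 - u|` -/
noncomputable def mx (p : ℝ × ℝ) : ℝ := max (p.1 ^ 2) (max |p.2| |p.1 ^ 2 - p.2|)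

theorem mx_cont : Continuous mx := by
  unfold mx
  fun_prop

theorem null_mx (s t : ℝ) (ht : t ≠ 0) :
    volume {p : ℝ × ℝ | s * mx p ^ 5 = t * (p.1 * (p.2 * (p.1 ^ 2 - p.2))) ^ 2} = 0 := by
  refine null_rows _ ?_ (fun α hα => ?_)
  · refine (isClosed_eq ?_ (by fun_prop)).measurableSet
    exact continuous_const.mul (mx_cont.pow 5)
  · have hb : t * α ^ 2 ≠ 0 := by positivity
    have hc : α ^ 2 ≠ 0 := by positivity
    have f1 := quart_finite (t * α ^ 2) (α ^ 2) (s * (α ^ 2) ^ 5) hb
    have f2 := quint_finite (t * α ^ 2) (α ^ 2) s hb hc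
    have f3 := quint_finite (t * α ^ 2) (α ^ 2) (-s) hb hc
    have hinj : Function.Injective (fun ν : ℝ => α ^ 2 - ν) := fun x y h => by
      simp only at h
      linarith
    have f4 := f2.preimage hinj.injOn
    have f5 := f3.preimage hinj.injOn
    refine (f1.union ((f2.union f3).union (f4.union f5))).subset ?_
    intro ν hν
    simp only [mem_ofPred_eq] at hν
    simp only [mem_union, mem_ofPred_eq, mem_preimage]
    unfold mx at hν
    simp only at hν
    have hr : t * (α * (ν * (α ^ 2 - ν))) ^ 2 = t * α ^ 2 * (ν ^ 2 * (α ^ 2 - ν) ^ 2) := by ring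
    rw [hr] at hν
    rcases max_choice (α ^ 2) (max |ν| |α ^ 2 - ν|) with h | h
    · left
      rw [h] at hν
      linarith
    · right
      rw [h] at hν
      rcases max_choice |ν| |α ^ 2 - ν| with h' | h'
      · left
        rw [h'] at hν
        rcases abs_choice ν with h'' | h''
        · left
          rw [h''] at hν
          linarith
        · right
          rw [h''] at hν
          linear_combination hν
      · right
        rw [h'] at hν
        rcases abs_choice (α ^ 2 - ν) with h'' | h''
        · left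
          rw [h''] at hν
          linear_combination hν
        · right
          rw [h''] at hν
          linear_combination hν

/-- the weight -/
noncomputable def ws (v w z : ℕ) : ℝ := ew v ^ 1 * (ew w * ew z)

/-- the regions for the triples -/
def RS (K s t : ℝ) (v w z : ℕ) : Set (ℝ × ℝ) :=
  Lv 1 1 K (ws v w z) ∩
    {p | (s * ws v w z ^ 2) * mx p ^ 5 ≤ t * (p.1 * (p.2 * (p.1 ^ 2 - p.2))) ^ 2}

theorem rs_nice (K s t : ℝ) (ht : t ≠ 0) (v w z : ℕ) : Nice (RS K s t v w z) :=
  (lv_nice 1 (by norm_num) 1 K _).inter_le (continuous_const.mul (mx_cont.pow 5)) (by fun_prop)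
    (null_mx _ t ht)

theorem rs_sub (K s t : ℝ) (v w z : ℕ) : RS K s t v w z ⊆ Icc (-K) K ×ˢ Icc (-K) K :=
  inter_subset_left.trans (lv_sub _ _ _ _)

end Pool.Agent.T2h82.As
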