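import Pool.Agent.T2h82.As.TrS

/-!
# The other triples, and the transfer
-/

set_option autoImplicit false

namespace Pool.Agent.T2h82.As

open Finset Filter Topology
open Pool.Agent.H328R2.ABC (rad rad_pos)
open Pool.Agent.T2h82 (pw pw_pos HH)
open Pool.Agent.T2h82.Sq (gf IsT R3 Mem PP rad_pow Tr tr_finite Ad Big big_finite cubes
  pp_cases)

/-- from the triples to the pairs -/
theorem to_pairs (X Y Z : ℝ) (S : Finset (ℕ × ℕ × ℕ))
    (hS : ∀ t ∈ S, IsT t ∧ Mem SqM t ∧ (R3 t : ℝ) ≤ X ∧ Z < (t.2.2 : ℝ) ∧ (t.2.2 : ℝ) ≤ Y) :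
    ∃ S' : Finset (ℤ × ℤ), S'.card = S.card ∧ ∀ q ∈ S', Ad X q ∧ Z < 2 * ((HH q : ℤ) : ℝ) ∧
      ((HH q : ℤ) : ℝ) ≤ Y := by
  classical
  have h : ∀ t ∈ S, ∃ q : ℤ × ℤ, Pr q ∧ Psi q = t ∧ 0 < q.1 := by
    intro t ht
    obtain ⟨h1, h2, -⟩ := hS t ht
    obtain ⟨y, hy⟩ := mem_sq_iff h2
    obtain ⟨q, a, b, c⟩ := psi_exists h1 hy
    refine ⟨q, a, b, ?_⟩
    have := a.x0
    omega
  choose! g hg using h
  refine ⟨S.image g, card_image_of_injOn ?_, ?_⟩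
  · intro t ht t' ht' he
    rw [← (hg t ht).2.1, ← (hg t' ht').2.1, he]
  · intro q hq
    rw [mem_image] at hq
    obtain ⟨t, ht, rfl⟩ := hq
    obtain ⟨a, b, c⟩ := hg t ht
    obtain ⟨-, -, h3, h4, h5⟩ := hS t ht
    set q := g t with hqd
    have hR := psi_R3 a
    rw [b] at hR
    have hc := psi_mx a
    rw [b] at hc
    have hHH : ((HH q : ℤ) : ℝ) = max ((q.1 : ℝ) ^ 2) |(q.2 : ℝ)| := by
      unfold HH
      push_cast
      rfl
    have hf : |(q.1 : ℝ) ^ 2 - q.2| ≤ 2 * ((HH q : ℤ) : ℝ) := by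
      rw [hHH, abs_le]
      have k1 := le_max_left ((q.1 : ℝ) ^ 2) |(q.2 : ℝ)|
      have k2 := abs_le.1 (le_max_right ((q.1 : ℝ) ^ 2) |(q.2 : ℝ)|)
      have k3 := sq_nonneg (q.1 : ℝ)
      constructor <;> linarith [k2.1, k2.2]
    have hnn : 0 ≤ ((HH q : ℤ) : ℝ) := by
      rw [hHH]
      exact (sq_nonneg _).trans (le_max_left _ _)
    refine ⟨⟨c, a.u0, a.f0, a.cop, ?_⟩, ?_, ?_⟩
    · refine le_trans (le_of_eq ?_) h3
      rw [hR]
      push_cast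
      ring
    · refine lt_of_lt_of_le h4 ?_
      rw [hc]
      unfold mx
      simp only
      refine max_le ?_ (max_le ?_ hf)
      · have := le_max_left ((q.1 : ℝ) ^ 2) |(q.2 : ℝ)|
        rw [← hHH] at this
        linarith
      · have := le_max_right ((q.1 : ℝ) ^ 2) |(q.2 : ℝ)|
        rw [← hHH] at this
        linarith
    · refine le_trans ?_ h5
      rw [hHH, hc]
      unfold mx
      simp only
      exact max_le_max le_rfl (le_max_left _ _)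

/-- the remaining triples -/
def Rest (k K X : ℝ) : Set (ℕ × ℕ × ℕ) :=
  {t | t ∈ Tr k X (fun _ => True) ∧ ¬ (Mem SqM t ∧ (t.2.2 : ℝ) ≤ K * X ^ (2 / 5 : ℝ))}

theorem rest_finite (k K X : ℝ) : (Rest k K X).Finite :=
  (tr_finite k X (fun _ => True)).subset (fun _ h => h.1)

theorem rest_few (k : ℝ) : ∃ C ν : ℝ, 0 < C ∧ 0 < ν ∧ ∀ X K : ℝ, 1 ≤ X → 2 ≤ K →
    ((Rest k K X).ncard : ℝ) ≤ C * ((K / 2) ^ (-(1 / 2) : ℝ) * X ^ (3 / 5 : ℝ) +
      X ^ (3 / 5 - ν)) := by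
  classical
  obtain ⟨C1, hC1, h1⟩ := Pool.Agent.T2h82.Sq.tail (4 / 5) (by norm_num) (by norm_num)
  obtain ⟨ν, C2, hν, hC2, h2⟩ := Pool.Agent.T2h82.Sq.large (21 / 50) k (by norm_num)
  have hl2 : 0 < Real.log 2 := Real.log_pos (by norm_num)
  refine ⟨C1 + 3 * (30 * (1 / Real.log 2) + 1) + C2, min ν (1 / 300), by positivity,
    lt_min hν (by norm_num), fun X K hX hK => ?_⟩
  have hX0 : 0 < X := by linarith
  set Y : ℝ := X ^ (21 / 50 : ℝ) with hY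
  have hY1 : 1 ≤ Y := Real.one_le_rpow hX (by norm_num)
  have hY0 : 0 < Y := by linarith
  set η := min ν (1 / 300) with hη
  have hη1 : η ≤ ν := min_le_left _ _
  have hη2 : η ≤ 1 / 300 := min_le_right _ _
  set S := (rest_finite k K X).toFinset with hS
  have hmem : ∀ t ∈ S, (IsT t ∧ Mem PP t ∧ (R3 t : ℝ) ≤ X ∧ (t.2.2 : ℝ) ≤ X ^ k) ∧
      ¬ (Mem SqM t ∧ (t.2.2 : ℝ) ≤ K * X ^ (2 / 5 : ℝ)) := by
    intro t ht
    rw [hS, Set.Finite.mem_toFinset] at ht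
    obtain ⟨⟨a, b, c, d, -⟩, e⟩ := ht
    exact ⟨⟨a, b, c, d⟩, e⟩
  set A := S.filter (fun t => (t.2.2 : ℝ) ≤ Y) with hA
  set A1 := A.filter (fun t => Mem SqM t) with hA1
  set A2 := A.filter (fun t => ¬ Mem SqM t) with hA2
  set B := S.filter (fun t => ¬ (t.2.2 : ℝ) ≤ Y) with hB
  have cA1 : (A1.card : ℝ) ≤ C1 * ((K / 2) ^ (-(1 / 2) : ℝ) * X ^ (3 / 5 : ℝ) +
      X ^ (3 / 5 - η)) := by
    obtain ⟨S', hc, hS'⟩ := to_pairs X Y (K * X ^ (2 / 5 : ℝ)) A1 (fun t ht => by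
      rw [hA1, mem_filter, hA, mem_filter] at ht
      obtain ⟨⟨a, b, c, d⟩, e⟩ := hmem t ht.1.1
      refine ⟨a, ht.2, c, ?_, ht.1.2⟩
      by_contra hcon
      exact e ⟨ht.2, not_lt.1 hcon⟩)
    rw [← hc]
    have h3 := h1 X (K / 2) hX (by linarith) S' (fun q hq => by
      obtain ⟨a, b, c⟩ := hS' q hq
      refine ⟨a, ?_, c⟩
      linarith)
    have e1 : (3 / 2 - 5 / 2 * (4 / 5) : ℝ) = -(1 / 2) := by norm_num
    rw [e1] at h3
    refine h3.trans ?_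
    have e2 : X ^ (3 / 5 - 1 / 300 : ℝ) ≤ X ^ (3 / 5 - η) :=
      Real.rpow_le_rpow_of_exponent_le hX (by linarith)
    gcongr
  have cA2 : (A2.card : ℝ) ≤ 3 * (30 * (1 / Real.log 2) + 1) * X ^ (3 / 5 - η) := by
    have e1 := cubes Y hY1 A2 (fun t ht => by
      rw [hA2, mem_filter, hA, mem_filter] at ht
      obtain ⟨⟨a, b, c, d⟩, -⟩ := hmem t ht.1.1
      refine ⟨a, ht.1.2, ?_⟩
      have hn := ht.2
      unfold Mem SqM at hn
      push Not at hn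
      rcases b with b | b | b
      · exact Or.inl ((pp_cases b).resolve_left (by push Not; exact hn.1))
      · exact Or.inr (Or.inl ((pp_cases b).resolve_left (by push Not; exact hn.2.1)))
      · exact Or.inr (Or.inr ((pp_cases b).resolve_left (by push Not; exact hn.2.2))))
    have e2 : Real.log Y ≤ X ^ (1 / 30 : ℝ) * 30 := by
      have h3 := Real.log_le_rpow_div hX0.le (by norm_num : (0 : ℝ) < 1 / 30)
      have h4 : Real.log Y = 21 / 50 * Real.log X := by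
        rw [hY, Real.log_rpow hX0]
      have h5 : 0 ≤ Real.log X := Real.log_nonneg hX
      rw [h4]
      have h6 : X ^ (1 / 30 : ℝ) / (1 / 30) = X ^ (1 / 30 : ℝ) * 30 := by ring
      rw [h6] at h3
      linarith
    have hX30 : 1 ≤ X ^ (1 / 30 : ℝ) := Real.one_le_rpow hX (by norm_num)
    have e3 : Real.log Y / Real.log 2 + 1 ≤ (30 * (1 / Real.log 2) + 1) * X ^ (1 / 30 : ℝ) := by
      have : Real.log Y / Real.log 2 ≤ X ^ (1 / 30 : ℝ) * 30 / Real.log 2 := by gcongr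
      calc Real.log Y / Real.log 2 + 1 ≤ X ^ (1 / 30 : ℝ) * 30 / Real.log 2 + X ^ (1 / 30 : ℝ) := by
            linarith
        _ = _ := by ring
    refine e1.trans ?_
    have e4 : Y ^ (1 / 3 : ℝ) * Y * X ^ (1 / 30 : ℝ) ≤ X ^ (3 / 5 - η) := by
      have : Y ^ (1 / 3 : ℝ) * Y * X ^ (1 / 30 : ℝ) =
          X ^ (21 / 50 * (1 / 3) + 21 / 50 + 1 / 30 : ℝ) := by
        rw [hY, ← Real.rpow_mul hX0.le, ← Real.rpow_add hX0, ← Real.rpow_add hX0]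
      rw [this]
      exact Real.rpow_le_rpow_of_exponent_le hX (by linarith)
    calc 3 * (Y ^ (1 / 3 : ℝ) * (Real.log Y / Real.log 2 + 1)) * Y
        ≤ 3 * (Y ^ (1 / 3 : ℝ) * ((30 * (1 / Real.log 2) + 1) * X ^ (1 / 30 : ℝ))) * Y := by
          gcongr
      _ = 3 * (30 * (1 / Real.log 2) + 1) * (Y ^ (1 / 3 : ℝ) * Y * X ^ (1 / 30 : ℝ)) := by ring
      _ ≤ _ := by gcongr
  have cB : (B.card : ℝ) ≤ C2 * X ^ (3 / 5 - η) := by
    have hsub : ((B : Finset (ℕ × ℕ × ℕ)) : Set (ℕ × ℕ × ℕ)) ⊆ Big (21 / 50) k X := by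
      intro t ht
      rw [mem_coe, hB, mem_filter, not_le] at ht
      obtain ⟨⟨a, b, c, d⟩, -⟩ := hmem t ht.1
      exact ⟨a, c, ht.2, d⟩
    have e1 := Set.ncard_le_ncard hsub (big_finite _ _ _)
    rw [Set.ncard_coe_finset] at e1
    have e2 : (B.card : ℝ) ≤ ((Big (21 / 50) k X).ncard : ℝ) := by exact_mod_cast e1
    have e3 : X ^ (3 / 5 - ν) ≤ X ^ (3 / 5 - η) :=
      Real.rpow_le_rpow_of_exponent_le hX (by linarith)
    calc (B.card : ℝ) ≤ C2 * X ^ (3 / 5 - ν) := e2.trans (h2 X hX)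
      _ ≤ _ := by gcongr
  have e0 : (S.card : ℝ) = (A.card : ℝ) + (B.card : ℝ) := by
    rw [← Nat.cast_add, card_filter_add_card_filter_not]
  have e1 : (A.card : ℝ) = (A1.card : ℝ) + (A2.card : ℝ) := by
    rw [← Nat.cast_add, card_filter_add_card_filter_not]
  have e2 : ((Rest k K X).ncard : ℝ) = (S.card : ℝ) := by
    rw [Set.ncard_eq_toFinset_card _ (rest_finite k K X)]
  rw [e2, e0, e1]
  have p1 : 0 ≤ (K / 2) ^ (-(1 / 2) : ℝ) * X ^ (3 / 5 : ℝ) := by positivity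
  have p2 : 0 ≤ X ^ (3 / 5 - η) := by positivity
  have p3 : 0 ≤ 1 / Real.log 2 := by positivity
  set u := (K / 2) ^ (-(1 / 2) : ℝ) * X ^ (3 / 5 : ℝ)
  set v := X ^ (3 / 5 - η)
  have q1 : 0 ≤ (3 * (30 * (1 / Real.log 2) + 1) + C2) * u := by positivity
  calc (A1.card : ℝ) + A2.card + B.card ≤ C1 * (u + v) + 3 * (30 * (1 / Real.log 2) + 1) * v +
        C2 * v := by linarith
    _ ≤ C1 * (u + v) + 3 * (30 * (1 / Real.log 2) + 1) * v + C2 * v +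
        (3 * (30 * (1 / Real.log 2) + 1) + C2) * u := by linarith
    _ = _ := by ring

/-- **The transfer.** -/
theorem transferS (k : ℝ) (hk : 2 / 5 < k) (ε : ℝ) (hε : 0 < ε) :
    ∀ᶠ K in atTop, ∀ s t : ℝ, ∀ᶠ T in atTop, |((Tr k (T ^ 5) (Pc s t)).ncard : ℝ) -
      ((AS K s t T).ncard : ℝ) / 4| ≤ ε * T ^ 3 := by
  obtain ⟨C, ν, hC, hν, hrest⟩ := rest_few k
  have hK1 : ∀ᶠ K : ℝ in atTop, (K / 2) ^ (-(1 / 2) : ℝ) ≤ ε / (2 * C) := by
    have h1 : Tendsto (fun K : ℝ => (K / 2) ^ (-(1 / 2) : ℝ)) atTop (𝓝 0) :=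
      (tendsto_rpow_neg_atTop (by norm_num)).comp (tendsto_id.atTop_div_const (by norm_num))
    exact h1.eventually_le_const (by positivity)
  filter_upwards [hK1, eventually_ge_atTop 2] with K hK hK2 s t
  have hK1 : 1 ≤ K := by linarith
  have hT1 : ∀ᶠ T : ℝ in atTop, T ^ (-(5 * ν) : ℝ) ≤ ε / (2 * C) :=
    (tendsto_rpow_neg_atTop (by positivity)).eventually_le_const (by positivity)
  filter_upwards [hT1, le_four k K s t hk hK1, eventually_ge_atTop 1,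
    eventually_ge_atTop (57 * K ^ 2 / ε)] with T hTa hlo hT1 hTb
  have hT0 : 0 < T := by linarith
  have hX1 : 1 ≤ T ^ 5 := one_le_pow₀ hT1
  have r1 : (T ^ 5) ^ (2 / 5 : ℝ) = T ^ 2 := by
    rw [← Real.rpow_natCast T 5, ← Real.rpow_natCast T 2, ← Real.rpow_mul hT0.le]
    norm_num
  have r2 : (T ^ 5) ^ (3 / 5 : ℝ) = T ^ 3 := by
    rw [← Real.rpow_natCast T 5, ← Real.rpow_natCast T 3, ← Real.rpow_mul hT0.le]
    norm_num
  have r3 : (T ^ 5) ^ (3 / 5 - ν) = T ^ (-(5 * ν)) * T ^ 3 := by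
    rw [← Real.rpow_natCast T 5, ← Real.rpow_natCast T 3, ← Real.rpow_mul hT0.le,
      ← Real.rpow_add hT0]
    congr 1
    push_cast
    ring
  have hr := hrest (T ^ 5) K hX1 hK2
  rw [r2, r3] at hr
  have p3 : 0 ≤ T ^ 3 := by positivity
  have hr2 : ((Rest k K (T ^ 5)).ncard : ℝ) ≤ ε * T ^ 3 := by
    refine hr.trans ?_
    have e3 : C * (ε / (2 * C)) = ε / 2 := by field_simp
    calc C * ((K / 2) ^ (-(1 / 2) : ℝ) * T ^ 3 + T ^ (-(5 * ν)) * T ^ 3)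
        ≤ C * (ε / (2 * C) * T ^ 3 + ε / (2 * C) * T ^ 3) := by gcongr
      _ = (C * (ε / (2 * C))) * T ^ 3 * 2 := by ring
      _ = ε * T ^ 3 := by rw [e3]; ring
  have hsub : Tr k (T ^ 5) (Pc s t) ⊆ SB K s t T ∪ Rest k K (T ^ 5) := by
    rintro x ⟨a, b, c, d, e⟩
    by_cases h : Mem SqM x ∧ (x.2.2 : ℝ) ≤ K * T ^ 2
    · exact Or.inl ⟨a, h.1, c, h.2, e⟩
    · refine Or.inr ⟨⟨a, b, c, d, trivial⟩, ?_⟩
      rw [r1]
      exact h
  have h1 := (Set.ncard_le_ncard hsub ((SB_finite K s t T).union (rest_finite _ _ _))).trans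
    (Set.ncard_union_le _ _)
  have h2 := four_le K s t T hK1 hT0
  have h1' : ((Tr k (T ^ 5) (Pc s t)).ncard : ℝ) ≤ ((SB K s t T).ncard : ℝ) +
      ((Rest k K (T ^ 5)).ncard : ℝ) := by exact_mod_cast h1
  have h2' : 4 * ((SB K s t T).ncard : ℝ) ≤ ((AS K s t T).ncard : ℝ) := by exact_mod_cast h2
  have e5 : 57 * K ^ 2 * T ^ 2 ≤ ε * T ^ 3 := by
    rw [div_le_iff₀ hε] at hTb
    have : 0 ≤ T ^ 2 := by positivity
    nlinarith
  have p4 : 0 ≤ ε * T ^ 3 := by positivity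
  rw [abs_le]
  constructor <;> linarith

end Pool.Agent.T2h82.As
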