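import Pool.Agent.T2h82.As.MemS

/-!
# The number of the triples and the number of the pairs
-/

set_option autoImplicit false

namespace Pool.Agent.T2h82.As

open Finset Filter Topology
open Pool.Agent.H328R2.ABC (rad rad_pos)
open Pool.Agent.T2h82 (pw pw_pos HH)
open Pool.Agent.T2h82.Sq (gf IsT R3 Mem PP rad_pow Tr tr_finite Ad Big big_finite)

/-- a square -/
def SqM (n : ℕ) : Prop := ∃ x : ℕ, n = x ^ 2

/-- the triples with a square member and a small sum -/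
def SB (K s t T : ℝ) : Set (ℕ × ℕ × ℕ) :=
  {x | IsT x ∧ Mem SqM x ∧ (R3 x : ℝ) ≤ T ^ 5 ∧ (x.2.2 : ℝ) ≤ K * T ^ 2 ∧ Pc s t x}

theorem SB_finite (K s t T : ℝ) : (SB K s t T).Finite :=
  (Pool.Agent.T2h82.Sq.box_finite (K * T ^ 2)).subset (fun _ h => ⟨h.1, h.2.2.2.1⟩)

theorem mem_sq_iff {x : ℕ × ℕ × ℕ} (h : Mem SqM x) :
    ∃ y : ℕ, x.1 = y ^ 2 ∨ x.2.1 = y ^ 2 ∨ x.2.2 = y ^ 2 := by
  rcases h with ⟨y, hy⟩ | ⟨y, hy⟩ | ⟨y, hy⟩
  · exact ⟨y, Or.inl hy⟩
  · exact ⟨y, Or.inr (Or.inl hy)⟩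
  · exact ⟨y, Or.inr (Or.inr hy)⟩

theorem box_of {K T : ℝ} (hK : 1 ≤ K) (hT : 0 < T) {q : ℤ × ℤ} (h : Pr q)
    (hc : ((Psi q).2.2 : ℝ) ≤ K * T ^ 2) : Bx K T q := by
  rw [psi_mx h] at hc
  unfold mx at hc
  simp only at hc
  have h1 : (q.1 : ℝ) ^ 2 ≤ K * T ^ 2 := (le_max_left _ _).trans hc
  have h2 : |(q.2 : ℝ)| ≤ K * T ^ 2 := ((le_max_left _ _).trans (le_max_right _ _)).trans hc
  refine ⟨?_, h2⟩
  have h3 : (q.1 : ℝ) ^ 2 ≤ (K * T) ^ 2 := by
    have : 0 ≤ T ^ 2 := by positivity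
    nlinarith
  exact abs_le_of_sq_le_sq h3 (by positivity)

/-- every triple comes from at least four pairs -/
theorem four_le (K s t T : ℝ) (hK : 1 ≤ K) (hT : 0 < T) :
    4 * (SB K s t T).ncard ≤ (AS K s t T).ncard := by
  classical
  have hf := AS_finite K s t T hT
  have hg := SB_finite K s t T
  rw [Set.ncard_eq_toFinset_card _ hf, Set.ncard_eq_toFinset_card _ hg]
  set F := hf.toFinset with hF
  set G := hg.toFinset with hG
  have hmem : ∀ b ∈ G, 4 ≤ ((F.filter (fun a => Psi a ∈ G)).filter (fun a => Psi a = b)).card := by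
    intro b hb
    have hb' := hb
    rw [hG, Set.Finite.mem_toFinset] at hb'
    obtain ⟨h1, h2, h3, h4, h5⟩ := hb'
    obtain ⟨y, hy⟩ := mem_sq_iff h2
    obtain ⟨q, hq, hqb, -⟩ := psi_exists h1 hy
    have key : ∀ q' : ℤ × ℤ, Pr q' → Psi q' = Psi q →
        q' ∈ (F.filter (fun a => Psi a ∈ G)).filter (fun a => Psi a = b) := by
      intro q' hq' he
      have hb2 : Psi q' = b := by rw [he, hqb]
      rw [mem_filter, mem_filter, hF, Set.Finite.mem_toFinset, mem_AS hT, hb2]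
      refine ⟨⟨⟨hq', box_of hK hT hq' (by rw [hb2]; exact h4), h3, h5⟩, hb⟩, rfl⟩
    have hsub : ({q, (-q.1, q.2), (q.1, gf q), (-q.1, gf q)} : Finset (ℤ × ℤ)) ⊆
        (F.filter (fun a => Psi a ∈ G)).filter (fun a => Psi a = b) := by
      intro z hz
      simp only [mem_insert, mem_singleton] at hz
      rcases hz with rfl | rfl | rfl | rfl
      · exact key _ hq rfl
      · exact key _ (pr_neg hq) (psi_neg q)
      · exact key _ (pr_swap hq) (psi_swap hq)
      · exact key _ (pr_neg (pr_swap hq)) ((psi_neg (q.1, gf q)).trans (psi_swap hq))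
    have hc : ({q, (-q.1, q.2), (q.1, gf q), (-q.1, gf q)} : Finset (ℤ × ℤ)).card = 4 := by
      obtain ⟨n1, n2⟩ := four_ne hq
      have e1 : q ≠ (-q.1, q.2) := fun h => n1 (congrArg Prod.fst h)
      have e2 : q ≠ (q.1, gf q) := fun h => n2 (congrArg Prod.snd h)
      have e3 : q ≠ (-q.1, gf q) := fun h => n1 (congrArg Prod.fst h)
      have e4 : ((-q.1, q.2) : ℤ × ℤ) ≠ (q.1, gf q) := fun h => n1 (congrArg Prod.fst h).symm
      have e5 : ((-q.1, q.2) : ℤ × ℤ) ≠ (-q.1, gf q) := fun h => n2 (congrArg Prod.snd h)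
      have e6 : ((q.1, gf q) : ℤ × ℤ) ≠ (-q.1, gf q) := fun h => n1 (congrArg Prod.fst h)
      rw [card_insert_of_notMem, card_insert_of_notMem, card_insert_of_notMem, card_singleton]
      · rw [mem_singleton]
        exact e6
      · rw [mem_insert, mem_singleton, not_or]
        exact ⟨e4, e5⟩
      · rw [mem_insert, mem_insert, mem_singleton, not_or, not_or]
        exact ⟨e1, e2, e3⟩
    rw [← hc]
    exact card_le_card hsub
  have h1 : G.card * 4 ≤ (F.filter (fun a => Psi a ∈ G)).card := by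
    rw [card_eq_sum_card_fiberwise (f := Psi) (t := G) (fun a ha => by
      rw [mem_coe, mem_filter] at ha
      exact ha.2)]
    rw [← smul_eq_mul]
    exact card_nsmul_le_sum _ _ _ hmem
  have h2 := card_filter_le F (fun a => Psi a ∈ G)
  omega

/-- the exceptional pairs -/
def Ex (K T : ℝ) : Set (ℤ × ℤ) :=
  {q | Bx K T q ∧ (q.1.natAbs ≤ 1 ∨ IsSquare q.2.natAbs ∨ IsSquare (gf q).natAbs)}

theorem ex_few (K T : ℝ) (hK : 1 ≤ K) (hT : 1 ≤ T) :
    ((Ex K T).ncard : ℝ) ≤ 57 * K ^ 2 * T ^ 2 := by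
  classical
  have hKT : 1 ≤ K * T := by nlinarith
  set I1 : Finset ℤ := Icc (-⌊K * T⌋) ⌊K * T⌋ with hI1
  set I2 : Finset ℤ := Icc (-⌊2 * (K * T)⌋) ⌊2 * (K * T)⌋ with hI2
  set I3 : Finset ℤ := Icc (-⌊K * T ^ 2⌋) ⌊K * T ^ 2⌋ with hI3
  have hK2 : K ≤ K ^ 2 := le_self_pow₀ hK (by norm_num)
  have hT2 : 0 ≤ T ^ 2 := by positivity
  have hKT2 : 1 ≤ K * T ^ 2 := by
    have : 1 ≤ T ^ 2 := one_le_pow₀ hT
    nlinarith
  have c1 : ((I1.card : ℕ) : ℝ) ≤ 3 * (K * T) := by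
    have := card_Icc_le (K * T) (by positivity)
    linarith
  have c2 : ((I2.card : ℕ) : ℝ) ≤ 5 * (K * T) := by
    have := card_Icc_le (2 * (K * T)) (by positivity)
    linarith
  have c3 : ((I3.card : ℕ) : ℝ) ≤ 3 * (K * T ^ 2) := by
    have := card_Icc_le (K * T ^ 2) (by positivity)
    linarith
  set S1 : Finset (ℤ × ℤ) := (I1 ×ˢ I1).image (fun p => (p.1, p.2 ^ 2)) with hS1
  set S2 : Finset (ℤ × ℤ) := (I1 ×ˢ I1).image (fun p => (p.1, -p.2 ^ 2)) with hS2
  set S3 : Finset (ℤ × ℤ) := (I1 ×ˢ I2).image (fun p => (p.1, p.1 ^ 2 - p.2 ^ 2)) with hS3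
  set S4 : Finset (ℤ × ℤ) := (I1 ×ˢ I2).image (fun p => (p.1, p.1 ^ 2 + p.2 ^ 2)) with hS4
  set S5 : Finset (ℤ × ℤ) := (Icc (-1) 1) ×ˢ I3 with hS5
  have hsub : Ex K T ⊆ ((S1 ∪ (S2 ∪ (S3 ∪ (S4 ∪ S5))) : Finset (ℤ × ℤ)) : Set (ℤ × ℤ)) := by
    rintro q ⟨⟨h1, h2⟩, h3⟩
    rw [mem_coe]
    simp only [mem_union]
    have hm := mem_Icc_floor h1
    have hq1 : (q.1 : ℝ) ^ 2 ≤ (K * T) ^ 2 := sq_le_sq' (abs_le.1 h1).1 (abs_le.1 h1).2
    have hKsq : K * T ^ 2 ≤ (K * T) ^ 2 := by nlinarith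
    rcases h3 with h3 | ⟨b, hb⟩ | ⟨b, hb⟩
    · right; right; right; right
      rw [hS5, mem_product]
      refine ⟨?_, mem_Icc_floor h2⟩
      rw [mem_Icc]
      omega
    · have hb' : (b : ℝ) ^ 2 = |(q.2 : ℝ)| := by
        rw [← cast_abs, hb]
        push_cast
        ring
      have hbb : ((b : ℤ) : ℝ) ^ 2 ≤ (K * T) ^ 2 := by
        push_cast
        rw [hb']
        linarith
      have hbm : (b : ℤ) ∈ I1 := mem_Icc_floor (abs_le_of_sq_le_sq hbb (by positivity))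
      have hor : q.2 = (b : ℤ) ^ 2 ∨ q.2 = -(b : ℤ) ^ 2 := by
        have h4 : ((q.2.natAbs : ℕ) : ℤ) = (b : ℤ) ^ 2 := by
          rw [hb]
          push_cast
          ring
        omega
      rcases hor with h4 | h4
      · left
        rw [hS1, mem_image]
        exact ⟨(q.1, (b : ℤ)), mem_product.2 ⟨hm, hbm⟩, Prod.ext rfl h4.symm⟩
      · right; left
        rw [hS2, mem_image]
        exact ⟨(q.1, (b : ℤ)), mem_product.2 ⟨hm, hbm⟩, Prod.ext rfl h4.symm⟩
    · have hb' : (b : ℝ) ^ 2 = |(q.1 : ℝ) ^ 2 - q.2| := by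
        have e : ((gf q : ℤ) : ℝ) = (q.1 : ℝ) ^ 2 - q.2 := by
          unfold gf
          push_cast
          rfl
        rw [← e, ← cast_abs, hb]
        push_cast
        ring
      have hbb : ((b : ℤ) : ℝ) ^ 2 ≤ (2 * (K * T)) ^ 2 := by
        push_cast
        rw [hb', abs_le]
        have k1 := abs_le.1 h2
        have k0 := sq_nonneg (q.1 : ℝ)
        have k2 : (2 * (K * T)) ^ 2 = 4 * (K * T) ^ 2 := by ring
        rw [k2]
        have k3 : 0 ≤ (K * T) ^ 2 := by positivity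
        constructor <;> linarith [k1.1, k1.2]
      have hbm : (b : ℤ) ∈ I2 := mem_Icc_floor (abs_le_of_sq_le_sq hbb (by positivity))
      have hor : gf q = (b : ℤ) ^ 2 ∨ gf q = -(b : ℤ) ^ 2 := by
        have h4 : (((gf q).natAbs : ℕ) : ℤ) = (b : ℤ) ^ 2 := by
          rw [hb]
          push_cast
          ring
        omega
      have hg : gf q = q.1 ^ 2 - q.2 := rfl
      rcases hor with h4 | h4
      · right; right; left
        rw [hS3, mem_image]
        refine ⟨(q.1, (b : ℤ)), mem_product.2 ⟨hm, hbm⟩, Prod.ext rfl ?_⟩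
        simp only
        linarith
      · right; right; right; left
        rw [hS4, mem_image]
        refine ⟨(q.1, (b : ℤ)), mem_product.2 ⟨hm, hbm⟩, Prod.ext rfl ?_⟩
        simp only
        linarith
  have h1 : ((Ex K T).ncard : ℝ) ≤ ((S1 ∪ (S2 ∪ (S3 ∪ (S4 ∪ S5)))).card : ℝ) := by
    have := Set.ncard_le_ncard hsub (Finset.finite_toSet _)
    rw [Set.ncard_coe_finset] at this
    exact_mod_cast this
  refine h1.trans ?_
  have e1 : ((S1.card : ℕ) : ℝ) ≤ (I1.card : ℝ) * I1.card := by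
    have := card_image_le (s := I1 ×ˢ I1) (f := fun p => (p.1, p.2 ^ 2))
    rw [card_product] at this
    exact_mod_cast this
  have e2 : ((S2.card : ℕ) : ℝ) ≤ (I1.card : ℝ) * I1.card := by
    have := card_image_le (s := I1 ×ˢ I1) (f := fun p => (p.1, -p.2 ^ 2))
    rw [card_product] at this
    exact_mod_cast this
  have e3 : ((S3.card : ℕ) : ℝ) ≤ (I1.card : ℝ) * I2.card := by
    have := card_image_le (s := I1 ×ˢ I2) (f := fun p => (p.1, p.1 ^ 2 - p.2 ^ 2))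
    rw [card_product] at this
    exact_mod_cast this
  have e4 : ((S4.card : ℕ) : ℝ) ≤ (I1.card : ℝ) * I2.card := by
    have := card_image_le (s := I1 ×ˢ I2) (f := fun p => (p.1, p.1 ^ 2 + p.2 ^ 2))
    rw [card_product] at this
    exact_mod_cast this
  have e5 : ((S5.card : ℕ) : ℝ) = 3 * I3.card := by
    rw [hS5, card_product]
    have : (Icc (-1 : ℤ) 1).card = 3 := by decide
    rw [this]
    push_cast
    rfl
  have u : ((S1 ∪ (S2 ∪ (S3 ∪ (S4 ∪ S5)))).card : ℝ) ≤ (S1.card : ℝ) + (S2.card + (S3.card +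
      (S4.card + S5.card))) := by
    exact_mod_cast (card_union_le _ _).trans (add_le_add le_rfl ((card_union_le _ _).trans
      (add_le_add le_rfl ((card_union_le _ _).trans (add_le_add le_rfl (card_union_le _ _))))))
  have f1 : (I1.card : ℝ) * I1.card ≤ (3 * (K * T)) * (3 * (K * T)) := by gcongr
  have f2 : (I1.card : ℝ) * I2.card ≤ (3 * (K * T)) * (5 * (K * T)) := by gcongr
  have f3 : 3 * (I3.card : ℝ) ≤ 9 * (K ^ 2 * T ^ 2) := by
    have : K * T ^ 2 ≤ K ^ 2 * T ^ 2 := by gcongr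
    linarith
  nlinarith

/-- most pairs give at most four pairs per triple -/
theorem le_four (k K s t : ℝ) (hk : 2 / 5 < k) (hK : 1 ≤ K) : ∀ᶠ T : ℝ in atTop,
    ((AS K s t T).ncard : ℝ) ≤ 4 * ((Tr k (T ^ 5) (Pc s t)).ncard : ℝ) + 57 * K ^ 2 * T ^ 2 := by
  classical
  have h1 : ∀ᶠ T : ℝ in atTop, 2 * K ^ 2 ≤ T ^ (5 * k - 2) :=
    (tendsto_rpow_atTop (by linarith)).eventually_ge_atTop _
  filter_upwards [h1, eventually_ge_atTop 1] with T hTk hT1
  have hT0 : 0 < T := by linarith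
  have hpow : 2 * K ^ 2 * T ^ 2 ≤ (T ^ 5) ^ k := by
    have e1 : (T ^ 5) ^ k = T ^ (5 * k - 2) * T ^ 2 := by
      rw [← Real.rpow_natCast T 5, ← Real.rpow_natCast T 2, ← Real.rpow_mul hT0.le,
        ← Real.rpow_add hT0]
      congr 1
      push_cast
      ring
    rw [e1]
    gcongr
  have hf := AS_finite K s t T hT0
  have hex : (Ex K T).Finite := (box_finite K T hT0).subset (fun q hq => hq.1)
  have hcard := ex_few K T hK hT1
  have htr := tr_finite k (T ^ 5) (Pc s t)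
  have hfG := hf.sdiff (t := Ex K T)
  set G := hfG.toFinset with hG
  have hmem : ∀ q ∈ G, q ∈ AS K s t T ∧ q ∉ Ex K T := by
    intro q hq
    rw [hG, Set.Finite.mem_toFinset] at hq
    exact hq
  have h4 : G.card ≤ 4 * (G.image Psi).card := by
    refine card_le_mul_card_image G 4 (fun b hb => ?_)
    rw [mem_image] at hb
    obtain ⟨q, hq, rfl⟩ := hb
    obtain ⟨a1, a2⟩ := hmem q hq
    obtain ⟨b1, b2, -, -⟩ := (mem_AS hT0 q).1 a1
    have hn : ¬ IsSquare q.2.natAbs ∧ ¬ IsSquare (gf q).natAbs := by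
      refine ⟨fun h => a2 ⟨b2, Or.inr (Or.inl h)⟩, fun h => a2 ⟨b2, Or.inr (Or.inr h)⟩⟩
    have hsub : G.filter (fun a => Psi a = Psi q) ⊆
        ({q, (-q.1, q.2), (q.1, gf q), (-q.1, gf q)} : Finset (ℤ × ℤ)) := by
      intro z hz
      rw [mem_filter] at hz
      have hz1 := ((mem_AS hT0 z).1 (hmem z hz.1).1).1
      simp only [mem_insert, mem_singleton]
      exact fibre b1 hz1 hz.2 hn.1 hn.2
    exact (card_le_card hsub).trans card_le_four
  have h5 : ((G.image Psi : Finset (ℕ × ℕ × ℕ)) : Set (ℕ × ℕ × ℕ)) ⊆ Tr k (T ^ 5) (Pc s t) := by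
    intro b hb
    rw [mem_coe, mem_image] at hb
    obtain ⟨q, hq, rfl⟩ := hb
    obtain ⟨a1, a2⟩ := hmem q hq
    obtain ⟨b1, b2, b3, b4⟩ := (mem_AS hT0 q).1 a1
    have hx2 : 2 ≤ q.1.natAbs := by
      by_contra h
      exact a2 ⟨b2, Or.inl (by omega)⟩
    refine ⟨psi_isT b1, ?_, b3, ?_, b4⟩
    · have := (psi_mem b1 (q.1.natAbs ^ 2)).2 (Or.inl rfl)
      have hp : PP (q.1.natAbs ^ 2) := ⟨q.1.natAbs, 2, hx2, le_rfl, rfl⟩
      rcases this with h | h | h
      · exact Or.inl (by rw [← h]; exact hp)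
      · exact Or.inr (Or.inl (by rw [← h]; exact hp))
      · exact Or.inr (Or.inr (by rw [← h]; exact hp))
    · refine le_trans ?_ hpow
      rw [psi_mx b1]
      unfold mx
      simp only
      obtain ⟨c1, c2⟩ := b2
      have k0 := sq_nonneg (q.1 : ℝ)
      have k1 : (q.1 : ℝ) ^ 2 ≤ K ^ 2 * T ^ 2 := by
        have := sq_le_sq' (abs_le.1 c1).1 (abs_le.1 c1).2
        rw [mul_pow] at this
        exact this
      have k2 : |(q.2 : ℝ)| ≤ K ^ 2 * T ^ 2 := by
        refine c2.trans ?_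
        have : K ≤ K ^ 2 := le_self_pow₀ hK (by norm_num)
        gcongr
      have k3 := abs_le.1 k2
      refine max_le (by linarith) (max_le (by linarith) ?_)
      rw [abs_le]
      constructor <;> linarith [k3.1, k3.2]
  have h6 : (G.image Psi).card ≤ (Tr k (T ^ 5) (Pc s t)).ncard := by
    rw [← Set.ncard_coe_finset]
    exact Set.ncard_le_ncard h5 htr
  have h7 : (AS K s t T).ncard ≤ (AS K s t T \ Ex K T).ncard + (Ex K T).ncard :=
    Set.ncard_le_ncard_sdiff_add_ncard _ _ hex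
  have h8 : (AS K s t T \ Ex K T).ncard = G.card := by
    rw [Set.ncard_eq_toFinset_card _ hfG]
  have h9 : ((AS K s t T).ncard : ℝ) ≤ 4 * ((Tr k (T ^ 5) (Pc s t)).ncard : ℝ) +
      ((Ex K T).ncard : ℝ) := by
    exact_mod_cast (by omega : (AS K s t T).ncard ≤ 4 * (Tr k (T ^ 5) (Pc s t)).ncard +
      (Ex K T).ncard)
  linarith

end Pool.Agent.T2h82.As
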